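import Pool.Agent.TD.BG.Basic

/-!
# ADH: a polyhedron which comes arbitrarily close to `(w, -∞)` is star-shaped about `w` after
projection
-/

open scoped Topology

namespace Pool.Agent.TD.BG

namespace ADH

/-- The set where the coordinates outside `p` are at most `c` is a polyhedron. -/
theorem polyh_le {ι : Type} [Fintype ι] (p : ι → Prop) (c : ℝ) :
    IsPolyh {x : ι → ℝ | ∀ i, ¬ p i → x i ≤ c} := by
  classical
  let e : Fin (Fintype.card ι) ≃ ι := (Fintype.equivFin ι).symm
  refine ⟨Fintype.card ι, fun j => if p (e j) then 0 else Pi.single (e j) 1,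
    fun j => if p (e j) then 0 else c, ?_⟩
  ext x
  simp only [Set.mem_setOf_eq]
  have key : ∀ j : Fin (Fintype.card ι),
      (∑ i, (if p (e j) then (0 : ι → ℝ) else Pi.single (e j) 1) i * x i ≤
        if p (e j) then 0 else c) ↔ (¬ p (e j) → x (e j) ≤ c) := by
    intro j
    by_cases hp : p (e j)
    · simp [hp]
    · have h1 : ∑ i, (Pi.single (e j) (1 : ℝ) : ι → ℝ) i * x i = x (e j) := by
        rw [Finset.sum_eq_single (e j)]
        · simp
        · intro i _ hi
          rw [Pi.single_eq_of_ne hi, zero_mul]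
        · intro h
          exact absurd (Finset.mem_univ _) h
      simp only [hp, if_false, h1, not_false_eq_true, true_imp_iff]
  constructor
  · intro h j
    exact (key j).2 (h (e j))
  · intro h i hi
    have h1 := (key (e.symm i)).1 (h (e.symm i))
    rw [Equiv.apply_symm_apply] at h1
    exact h1 hi

/-- The linear map which sets the coordinates outside `p` to `0`. -/
noncomputable def kill {ι : Type} (p : ι → Prop) [DecidablePred p] :
    (ι → ℝ) →ₗ[ℝ] (ι → ℝ) :=
  LinearMap.pi fun i => if p i then LinearMap.proj i else 0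

theorem kill_pos {ι : Type} (p : ι → Prop) [DecidablePred p] (x : ι → ℝ) {i : ι} (h : p i) :
    kill p x i = x i := by
  simp [kill, h]

theorem kill_neg {ι : Type} (p : ι → Prop) [DecidablePred p] (x : ι → ℝ) {i : ι} (h : ¬ p i) :
    kill p x i = 0 := by
  simp [kill, h]

end ADH

open ADH in
theorem ADH_thm (h1 : FM_Stmt) (h2 : PLB_Stmt) : ADH_Stmt := by
  classical
  intro ι _ p S hS w hw ε c _ x hx _ hxc r hr0 hr1
  obtain ⟨hinter, hcc, -⟩ := h2 ι
  have hSc : IsPolyh (S ∩ {x : ι → ℝ | ∀ i, ¬ p i → x i ≤ c}) := hinter _ _ hS (polyh_le p c)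
  have hC : IsClosed (kill p '' (S ∩ {x : ι → ℝ | ∀ i, ¬ p i → x i ≤ c})) :=
    (hcc _ (h1 ι ι (kill p) _ hSc)).2
  have hconv : Convex ℝ S := (hcc S hS).1
  let y : ι → ℝ := fun i => if p i then w i + r * (x i - w i) else 0
  have hy : y ∈ kill p '' (S ∩ {x : ι → ℝ | ∀ i, ¬ p i → x i ≤ c}) := by
    rw [← hC.closure_eq, Metric.mem_closure_iff]
    intro δ hδ
    have hc0 : 0 < |c| + 1 := by positivity
    obtain ⟨z, hz, hzp, hzn⟩ := hw (min (δ / 2) (1 / (|c| + 1))) (lt_min (half_pos hδ)
      (one_div_pos.2 hc0))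
    have hη0 : 0 < min (δ / 2) (1 / (|c| + 1)) := lt_min (half_pos hδ) (one_div_pos.2 hc0)
    have hη1 : |c| + 1 ≤ 1 / min (δ / 2) (1 / (|c| + 1)) := by
      rw [le_one_div hc0 hη0]
      exact min_le_right _ _
    refine ⟨kill p ((1 - r) • z + r • x), ⟨_, ⟨?_, ?_⟩, rfl⟩, ?_⟩
    · exact hconv hz hx (by linarith) hr0 (by ring)
    · intro i hi
      have hzi : z i ≤ c := by
        have h3 := hzn i hi
        have h4 : -|c| ≤ c := neg_abs_le c
        linarith
      have hxi : x i ≤ c := hxc i hi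
      show (1 - r) * z i + r * x i ≤ c
      have h5 : (1 - r) * z i ≤ (1 - r) * c := mul_le_mul_of_nonneg_left hzi (by linarith)
      have h6 : r * x i ≤ r * c := mul_le_mul_of_nonneg_left hxi hr0
      linarith
    · refine lt_of_le_of_lt ((dist_pi_le_iff (half_pos hδ).le).2 fun i => ?_) (half_lt_self hδ)
      by_cases hi : p i
      · rw [kill_pos p _ hi, Real.dist_eq]
        have h3 : y i - ((1 - r) • z + r • x) i = -((1 - r) * (z i - w i)) := by
          simp only [y, hi, if_true, Pi.add_apply, Pi.smul_apply, smul_eq_mul]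
          ring
        rw [h3, abs_neg, abs_mul, abs_of_nonneg (by linarith : (0 : ℝ) ≤ 1 - r)]
        have h4 : |z i - w i| ≤ δ / 2 := (hzp i hi).trans (min_le_left _ _)
        calc (1 - r) * |z i - w i| ≤ 1 * |z i - w i| :=
              mul_le_mul_of_nonneg_right (by linarith) (abs_nonneg _)
          _ ≤ δ / 2 := by rw [one_mul]; exact h4
      · rw [kill_neg p _ hi]
        simp only [y, hi, if_false, dist_self]
        exact (half_pos hδ).le
  obtain ⟨x', ⟨hx'S, hx'c⟩, hx'y⟩ := hy
  refine ⟨x', hx'S, fun i hi => ?_, hx'c⟩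
  have h3 := congrFun hx'y i
  rw [kill_pos p _ hi] at h3
  rw [h3]
  simp only [y, hi, if_true]

end Pool.Agent.TD.BG
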