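import Pool.Agent.TD.BG.Basic

/-!
# B1: points of the tropicalization come from multiplicative seminorms
-/

open scoped ContDiff Topology NNReal

namespace Pool.Agent.TD.BG

namespace B1

variable {K ι : Type} [NormedField K] [Fintype ι]

theorem wtZ_pos (w : ι → ℝ) (u : ι → ℤ) : 0 < wtZ w u := Real.exp_pos _

theorem wtZ_zero (w : ι → ℝ) : wtZ w 0 = 1 := by
  apply NNReal.eq
  show Real.exp _ = 1
  simp

theorem wtZ_add (w : ι → ℝ) (u v : ι → ℤ) : wtZ w (u + v) = wtZ w u * wtZ w v := by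
  apply NNReal.eq
  show Real.exp _ = Real.exp _ * Real.exp _
  rw [← Real.exp_add, ← Finset.sum_add_distrib]
  congr 1
  exact Finset.sum_congr rfl fun i _ => by push_cast [Pi.add_apply]; ring

theorem wtZ_single [DecidableEq ι] (w : ι → ℝ) (i : ι) (k : ℤ) :
    (wtZ w (Pi.single i k) : ℝ) = Real.exp (k * w i) := by
  show Real.exp _ = _
  congr 1
  rw [Finset.sum_eq_single i]
  · simp
  · intro j _ hj
    simp [Pi.single_eq_of_ne hj]
  · intro h
    exact absurd (Finset.mem_univ i) h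

/-- the Gauss norm -/
noncomputable def gn (w : ι → ℝ) (F : Laur K ι) : ℝ≥0 := nrm (wtZ w) (co F)

theorem gn_zero (w : ι → ℝ) : gn w (0 : Laur K ι) = 0 := nrm_zero

theorem gn_neg (w : ι → ℝ) (F : Laur K ι) : gn w (-F) = gn w F := nrm_neg (co F)

theorem gn_add [IsUltrametricDist K] (w : ι → ℝ) (F G : Laur K ι) :
    gn w (F + G) ≤ max (gn w F) (gn w G) := nrm_add_le (co F) (co G)

theorem gn_single (w : ι → ℝ) (u : ι → ℤ) (c : K) :
    gn w (AddMonoidAlgebra.single u c) ≤ ‖c‖₊ * wtZ w u := by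
  unfold gn
  rw [nrm_le_iff]
  intro v
  show ‖(Finsupp.single u c) v‖₊ * wtZ w v ≤ _
  by_cases h : v = u
  · rw [h, Finsupp.single_eq_same]
  · rw [Finsupp.single_eq_of_ne h, nnnorm_zero, zero_mul]
    exact bot_le

theorem gn_single_mul (w : ι → ℝ) (u : ι → ℤ) (c : K) (F : Laur K ι) :
    gn w (AddMonoidAlgebra.single u c * F) ≤ ‖c‖₊ * wtZ w u * gn w F := by
  unfold gn
  rw [nrm_le_iff]
  intro v
  show ‖(AddMonoidAlgebra.single u c * F).coeff v‖₊ * wtZ w v ≤ _
  rw [AddMonoidAlgebra.coeff_single_mul_apply]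
  have h1 : wtZ w v = wtZ w u * wtZ w (-u + v) := by
    rw [← wtZ_add]; congr 1; abel
  rw [h1, nnnorm_mul]
  calc ‖c‖₊ * ‖F.coeff (-u + v)‖₊ * (wtZ w u * wtZ w (-u + v))
      = ‖c‖₊ * wtZ w u * (‖F.coeff (-u + v)‖₊ * wtZ w (-u + v)) := by ring
    _ ≤ _ := mul_le_mul_right (le_nrm (co F) (-u + v)) _

theorem gn_sum [IsUltrametricDist K] (w : ι → ℝ) {κ : Type} (s : Finset κ) (F : κ → Laur K ι)
    {c : ℝ≥0} (h : ∀ j ∈ s, gn w (F j) ≤ c) : gn w (∑ j ∈ s, F j) ≤ c := by
  classical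
  induction s using Finset.induction_on with
  | empty => rw [Finset.sum_empty, gn_zero]; exact bot_le
  | insert i s hi ih =>
    rw [Finset.sum_insert hi]
    exact (gn_add w _ _).trans (max_le (h i (Finset.mem_insert_self _ _))
      (ih fun j hj => h j (Finset.mem_insert_of_mem hj)))

theorem gn_mul [IsUltrametricDist K] (w : ι → ℝ) (F G : Laur K ι) :
    gn w (F * G) ≤ gn w F * gn w G := by
  have h1 : F = ∑ u ∈ F.coeff.support, AddMonoidAlgebra.single u (F.coeff u) := by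
    apply AddMonoidAlgebra.coeff_injective
    rw [AddMonoidAlgebra.coeff_sum]
    simp only [AddMonoidAlgebra.coeff_single]
    exact (Finsupp.sum_single F.coeff).symm
  have h2 : F * G = ∑ u ∈ F.coeff.support, AddMonoidAlgebra.single u (F.coeff u) * G := by
    conv_lhs => rw [h1]
    rw [Finset.sum_mul]
  rw [h2]
  refine gn_sum w _ _ fun u _ => (gn_single_mul w u _ G).trans ?_
  exact mul_le_mul_left (le_nrm (co F) u) _

/-- the quotient seminorm -/
noncomputable def qn (w : ι → ℝ) (I : Ideal (Laur K ι)) (F : Laur K ι) : ℝ≥0 :=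
  ⨅ G : {G : Laur K ι // G ∈ I}, gn w (F + G.1)

instance (I : Ideal (Laur K ι)) : Nonempty {G : Laur K ι // G ∈ I} := ⟨⟨0, I.zero_mem⟩⟩

theorem qn_le (w : ι → ℝ) (I : Ideal (Laur K ι)) (F : Laur K ι) {G : Laur K ι} (hG : G ∈ I) :
    qn w I F ≤ gn w (F + G) :=
  ciInf_le (f := fun G : {G : Laur K ι // G ∈ I} => gn w (F + G.1)) (OrderBot.bddBelow _) ⟨G, hG⟩

theorem qn_le_gn (w : ι → ℝ) (I : Ideal (Laur K ι)) (F : Laur K ι) : qn w I F ≤ gn w F := by
  have h := qn_le w I F I.zero_mem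
  rwa [add_zero] at h

theorem le_qn (w : ι → ℝ) (I : Ideal (Laur K ι)) (F : Laur K ι) {c : ℝ≥0}
    (h : ∀ G ∈ I, c ≤ gn w (F + G)) : c ≤ qn w I F :=
  le_ciInf fun G => h G.1 G.2

theorem exists_lt (w : ι → ℝ) (I : Ideal (Laur K ι)) (F : Laur K ι) {c : ℝ≥0}
    (h : qn w I F < c) : ∃ G ∈ I, gn w (F + G) < c := by
  obtain ⟨G, hG⟩ := exists_lt_of_ciInf_lt h
  exact ⟨G.1, G.2, hG⟩

theorem qn_neg (w : ι → ℝ) (I : Ideal (Laur K ι)) (F : Laur K ι) : qn w I (-F) = qn w I F := by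
  have key : ∀ F, qn w I (-F) ≤ qn w I F := by
    intro F
    refine le_qn w I F fun G hG => ?_
    refine (qn_le w I (-F) (I.neg_mem hG)).trans ?_
    rw [show -F + -G = -(F + G) by abel, gn_neg]
  apply le_antisymm (key F)
  have := key (-F)
  rwa [neg_neg] at this

theorem qn_add [IsUltrametricDist K] (w : ι → ℝ) (I : Ideal (Laur K ι)) (F F' : Laur K ι) :
    qn w I (F + F') ≤ max (qn w I F) (qn w I F') := by
  refine le_of_forall_gt_imp_ge_of_dense fun c hc => ?_
  obtain ⟨G, hG, h1⟩ := exists_lt w I F ((le_max_left _ _).trans_lt hc)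
  obtain ⟨G', hG', h2⟩ := exists_lt w I F' ((le_max_right _ _).trans_lt hc)
  refine (qn_le w I _ (I.add_mem hG hG')).trans ?_
  rw [show F + F' + (G + G') = (F + G) + (F' + G') by abel]
  exact (gn_add w _ _).trans (max_le h1.le h2.le)

theorem qn_mul [IsUltrametricDist K] (w : ι → ℝ) (I : Ideal (Laur K ι)) (F F' : Laur K ι) :
    qn w I (F * F') ≤ qn w I F * qn w I F' := by
  refine NNReal.le_iInf_mul_iInf fun G G' => ?_
  obtain ⟨G, hG⟩ := G
  obtain ⟨G', hG'⟩ := G'
  have h1 : F * G' + G * F' + G * G' ∈ I :=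
    I.add_mem (I.add_mem (I.mul_mem_left _ hG') (I.mul_mem_right _ hG)) (I.mul_mem_left _ hG')
  refine (qn_le w I _ h1).trans ?_
  rw [show F * F' + (F * G' + G * F' + G * G') = (F + G) * (F' + G') by ring]
  exact gn_mul w _ _

theorem gn_one (w : ι → ℝ) : gn w (1 : Laur K ι) ≤ 1 := by
  have h := gn_single w 0 (1 : K)
  rw [wtZ_zero, nnnorm_one, mul_one] at h
  exact h

theorem qn_one [IsUltrametricDist K] {w : ι → ℝ} {I : Ideal (Laur K ι)} (hw : w ∈ Trop I) :
    qn w I 1 = 1 := by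
  refine le_antisymm ((qn_le_gn w I 1).trans (gn_one w)) (le_qn w I 1 fun G hG => ?_)
  by_contra hcon
  push Not at hcon
  unfold gn at hcon
  rw [nrm_lt_iff one_pos] at hcon
  have hone : ∀ u, (co (1 : Laur K ι)) u = if u = 0 then 1 else 0 := by
    intro u
    show (Finsupp.single (0 : ι → ℤ) (1 : K)) u = _
    rw [Finsupp.single_apply]
    by_cases h : u = 0
    · rw [if_pos h, if_pos h.symm]
    · rw [if_neg h, if_neg (Ne.symm h)]
  have hco : ∀ u, (co (1 + G : Laur K ι)) u = (if u = 0 then 1 else 0) + co G u := by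
    intro u
    rw [← hone u]
    rfl
  have h0 : ‖(1 : K) + co G 0‖₊ < 1 := by
    have h := hcon 0
    rw [hco, if_pos rfl, wtZ_zero, mul_one] at h
    exact h
  have hG0 : ‖co G 0‖₊ = 1 := by
    have h1 : ‖(1 : K)‖₊ ≤ max ‖(1 : K) + co G 0‖₊ ‖co G 0‖₊ := by
      have e : (1 : K) = (1 + co G 0) + (-co G 0) := by ring
      conv_lhs => rw [e]
      rw [← nnnorm_neg (co G 0)]
      exact IsUltrametricDist.nnnorm_add_le_max _ _
    have h2 : ‖co G 0‖₊ ≤ max ‖(1 : K) + co G 0‖₊ ‖(1 : K)‖₊ := by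
      have e : co G 0 = (1 + co G 0) + (-1) := by ring
      conv_lhs => rw [e]
      rw [← nnnorm_neg (1 : K)]
      exact IsUltrametricDist.nnnorm_add_le_max _ _
    rw [nnnorm_one] at h1 h2
    apply le_antisymm
    · exact h2.trans (max_le h0.le le_rfl)
    · rcases le_max_iff.1 h1 with h | h
      · exact absurd h (not_le.2 h0)
      · exact h
  refine hw G hG 0 ⟨?_, fun u hu => ?_⟩
  · intro h
    rw [h, nnnorm_zero] at hG0
    exact zero_ne_one hG0
  · rw [hG0, wtZ_zero, mul_one]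
    have h := hcon u
    rw [hco, if_neg hu, zero_add] at h
    exact h

end B1

open B1 in
theorem B1_thm (h1 : M3_Stmt) : B1_Stmt := by
  intro K ι _ _ _ _ I w hw
  obtain ⟨v, v0, v1, vmul, vadd, vle⟩ := h1 (Laur K ι) (fun F => (qn w I F : ℝ))
    (fun F => NNReal.coe_nonneg _)
    (by
      have h := qn_le_gn w I 0
      rw [gn_zero] at h
      exact_mod_cast le_antisymm h bot_le)
    (by
      have := qn_one hw
      exact_mod_cast this)
    (fun F => by
      have := qn_neg w I F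
      exact_mod_cast this)
    (fun F G => by
      have := qn_add w I F G
      exact_mod_cast this)
    (fun F G => by
      have := qn_mul w I F G
      exact_mod_cast this)
  have vgn : ∀ F, v F ≤ gn w F := fun F => (vle F).trans (by exact_mod_cast qn_le_gn w I F)
  have vz : v 0 = 0 := by
    have h := vgn 0
    rw [gn_zero] at h
    exact le_antisymm (by simpa using h) (v0 0)
  have vs : ∀ (u : ι → ℤ) (c : K), v (AddMonoidAlgebra.single u c) ≤ ‖c‖ * wtZ w u := by
    intro u c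
    refine (vgn _).trans ?_
    have h := gn_single w u c
    have h' : ((gn w (AddMonoidAlgebra.single u c) : ℝ≥0) : ℝ) ≤ ((‖c‖₊ * wtZ w u : ℝ≥0) : ℝ) :=
      NNReal.coe_le_coe.2 h
    rwa [NNReal.coe_mul, coe_nnnorm] at h'
  -- equality for monomials
  have vse : ∀ (u : ι → ℤ) (c : K), c ≠ 0 → v (AddMonoidAlgebra.single u c) = ‖c‖ * wtZ w u := by
    intro u c hc
    have h2 := vs u c
    have h3 := vs (-u) c⁻¹
    have h4 : v (AddMonoidAlgebra.single u c) * v (AddMonoidAlgebra.single (-u) c⁻¹) = 1 := by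
      rw [← vmul, AddMonoidAlgebra.single_mul_single, add_neg_cancel, mul_inv_cancel₀ hc]
      exact v1
    have hcn : 0 < ‖c‖ := norm_pos_iff.2 hc
    have hwp : (0 : ℝ) < wtZ w u := wtZ_pos w u
    have h5 : (wtZ w u : ℝ) * wtZ w (-u) = 1 := by
      have := wtZ_add w u (-u)
      rw [add_neg_cancel, wtZ_zero] at this
      exact_mod_cast this.symm
    have h6 : ‖c⁻¹‖ * (wtZ w (-u) : ℝ) = (‖c‖ * wtZ w u)⁻¹ := by
      rw [norm_inv, mul_inv]
      congr 1
      exact eq_inv_of_mul_eq_one_right h5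
    rw [h6] at h3
    refine le_antisymm h2 ?_
    have h7 : 0 < ‖c‖ * (wtZ w u : ℝ) := mul_pos hcn hwp
    have h8 : 1 ≤ v (AddMonoidAlgebra.single u c) * (‖c‖ * (wtZ w u : ℝ))⁻¹ := by
      rw [← h4]
      exact mul_le_mul_of_nonneg_left h3 (v0 _)
    rw [← div_eq_mul_inv, le_div_iff₀ h7, one_mul] at h8
    exact h8
  refine ⟨⟨v, v0, v1, vmul, vadd, fun c => ?_⟩, fun i => ?_, fun F hF => ?_⟩
  · by_cases hc : c = 0
    · rw [hc, map_zero, vz, norm_zero]
    · have h := vse 0 c hc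
      rw [wtZ_zero, NNReal.coe_one, mul_one] at h
      exact h
  · show v (var i) = _
    have h := vse (Pi.single i 1) (1 : K) one_ne_zero
    rw [norm_one, one_mul, wtZ_single] at h
    rw [show Real.exp (w i) = Real.exp (((1 : ℤ) : ℝ) * w i) by push_cast; rw [one_mul]]
    exact h
  · show v F = 0
    refine le_antisymm ((vle F).trans ?_) (v0 F)
    have h := qn_le w I F (I.neg_mem hF)
    rw [add_neg_cancel, gn_zero] at h
    exact_mod_cast h

end Pool.Agent.TD.BG
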