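import Pool.Agent.TD.BG.Basic

/-!
# BND: over a set on which generators are bounded everything is bounded
-/

namespace Pool.Agent.TD.BG

theorem BND_thm : BND_Stmt := by
  intro K A _ _ _ _ t ht Z hZ a
  have ha : a ∈ Algebra.adjoin K t := by rw [ht]; trivial
  induction ha using Algebra.adjoin_induction with
  | mem x hx => exact hZ x hx
  | algebraMap c => exact ⟨‖c‖, fun z _ => (z.ext c).le⟩
  | add x y _ _ hx hy =>
    obtain ⟨C, hC⟩ := hx
    obtain ⟨D, hD⟩ := hy
    exact ⟨max C D, fun z hz => (z.add x y).trans (max_le_max (hC z hz) (hD z hz))⟩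
  | mul x y _ _ hx hy =>
    obtain ⟨C, hC⟩ := hx
    obtain ⟨D, hD⟩ := hy
    refine ⟨|C| * |D|, fun z hz => ?_⟩
    rw [z.mul]
    exact mul_le_mul ((hC z hz).trans (le_abs_self C)) ((hD z hz).trans (le_abs_self D))
      (z.nonneg y) (abs_nonneg C)

end Pool.Agent.TD.BG
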