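import Pool.Agent.TD.BG.Basic

/-!
# CIR: finitely many circuits suffice
-/

open scoped ContDiff Topology NNReal

namespace Pool.Agent.TD.BG

namespace CIR

variable {K E : Type} [NormedField K] [IsUltrametricDist K]

/-- If `F` is single at `u` with the smallest possible number of monomials, every non-zero `G` of
`V` supported on the support of `F` is single at `u`. -/
theorem key {wt : E → ℝ≥0} {V : Submodule K (E →₀ K)} {F G : E →₀ K} {u : E} (hFV : F ∈ V)
    (hF : Single wt F u)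
    (hmin : ∀ G ∈ V, Single wt G u → F.support.card ≤ G.support.card) (hGV : G ∈ V)
    (hG : G ≠ 0) (hs : G.support ⊆ F.support) : Single wt G u := by
  classical
  obtain ⟨u1, hu1, hmin1⟩ := Finset.exists_min_image G.support (fun v => ‖F v‖₊ / ‖G v‖₊)
    (Finsupp.support_nonempty_iff.2 hG)
  have hG1 : G u1 ≠ 0 := Finsupp.mem_support_iff.1 hu1
  have hF1 : F u1 ≠ 0 := Finsupp.mem_support_iff.1 (hs hu1)
  obtain ⟨c, hc⟩ : ∃ c : K, c = F u1 / G u1 := ⟨_, rfl⟩
  have hc0 : c ≠ 0 := by rw [hc]; exact div_ne_zero hF1 hG1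
  have hcn : ‖c‖₊ = ‖F u1‖₊ / ‖G u1‖₊ := by rw [hc, nnnorm_div]
  have hcpos : 0 < ‖c‖₊ := by simpa using hc0
  have hle : ∀ v, ‖c‖₊ * ‖G v‖₊ ≤ ‖F v‖₊ := by
    intro v
    by_cases h0 : G v = 0
    · simp [h0]
    · have h1 := hmin1 v (Finsupp.mem_support_iff.2 h0)
      have h1' : ‖c‖₊ ≤ ‖F v‖₊ / ‖G v‖₊ := by rw [hcn]; exact h1
      have h2 : 0 < ‖G v‖₊ := by simpa using h0
      exact (le_div_iff₀ h2).1 h1'
  by_cases heq : ‖c‖₊ * ‖G u‖₊ = ‖F u‖₊
  · have hFu : ‖F u‖₊ ≠ 0 := by simpa using hF.1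
    refine ⟨?_, ?_⟩
    · intro h0
      rw [h0, nnnorm_zero, mul_zero] at heq
      exact hFu heq.symm
    · intro u' hne
      have h1 : ‖c‖₊ * (‖G u'‖₊ * wt u') < ‖c‖₊ * (‖G u‖₊ * wt u) := by
        calc ‖c‖₊ * (‖G u'‖₊ * wt u') = (‖c‖₊ * ‖G u'‖₊) * wt u' := by rw [mul_assoc]
          _ ≤ ‖F u'‖₊ * wt u' := mul_le_mul_left (hle u') _
          _ < ‖F u‖₊ * wt u := hF.2 u' hne
          _ = ‖c‖₊ * (‖G u‖₊ * wt u) := by rw [← heq, mul_assoc]
      exact lt_of_mul_lt_mul_left h1 zero_le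
  · exfalso
    have hlt : ‖c‖₊ * ‖G u‖₊ < ‖F u‖₊ := lt_of_le_of_ne (hle u) heq
    have happ : ∀ v, (F - c • G) v = F v - c * G v := by
      intro v
      simp
    have hcmul : ∀ v, ‖c * G v‖₊ = ‖c‖₊ * ‖G v‖₊ := fun v => nnnorm_mul _ _
    -- the value at `u`
    have hu : ‖F u‖₊ ≤ ‖(F - c • G) u‖₊ := by
      have h1 : ‖F u‖₊ ≤ max ‖(F - c • G) u‖₊ ‖c * G u‖₊ := by
        have h2 : F u = (F - c • G) u + c * G u := by rw [happ]; ring
        calc ‖F u‖₊ = ‖(F - c • G) u + c * G u‖₊ := by rw [← h2]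
          _ ≤ _ := IsUltrametricDist.nnnorm_add_le_max _ _
      rcases le_max_iff.1 h1 with h2 | h2
      · exact h2
      · rw [hcmul] at h2
        exact absurd h2 (not_le.2 hlt)
    have hother : ∀ v, ‖(F - c • G) v‖₊ ≤ ‖F v‖₊ := by
      intro v
      rw [happ, sub_eq_add_neg]
      refine (IsUltrametricDist.nnnorm_add_le_max _ _).trans (max_le le_rfl ?_)
      rw [nnnorm_neg, hcmul]
      exact hle v
    have hsing : Single wt (F - c • G) u := by
      refine ⟨?_, ?_⟩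
      · intro h0
        rw [h0, nnnorm_zero] at hu
        exact hF.1 (by simpa using hu)
      · intro u' hne
        calc ‖(F - c • G) u'‖₊ * wt u' ≤ ‖F u'‖₊ * wt u' := mul_le_mul_left (hother u') _
          _ < ‖F u‖₊ * wt u := hF.2 u' hne
          _ ≤ ‖(F - c • G) u‖₊ * wt u := mul_le_mul_left hu _
    have hmem : F - c • G ∈ V := V.sub_mem hFV (V.smul_mem c hGV)
    have hcard := hmin _ hmem hsing
    have hsub : (F - c • G).support ⊂ F.support := by
      refine (Finset.ssubset_iff_of_subset ?_).2 ⟨u1, Finsupp.mem_support_iff.2 hF1, ?_⟩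
      · intro v hv
        rw [Finsupp.mem_support_iff] at hv ⊢
        intro h0
        apply hv
        have h1 := hother v
        rw [h0, nnnorm_zero] at h1
        simpa using h1
      · rw [Finsupp.mem_support_iff, not_not, happ, hc, div_mul_cancel₀ _ hG1, sub_self]
    exact absurd hcard (not_le.2 (Finset.card_lt_card hsub))

end CIR

theorem CIR_thm : CIR_Stmt := by
  intro K E _ _ M V hV
  classical
  obtain ⟨g, hg, hg1⟩ : ∃ g : Finset E → (E →₀ K), (∀ S, g S ∈ V) ∧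
      ∀ S, (∃ F ∈ V, F ≠ 0 ∧ F.support = S) → g S ≠ 0 ∧ (g S).support = S := by
    have h : ∀ S : Finset E, ∃ G : E →₀ K, G ∈ V ∧
        ((∃ F ∈ V, F ≠ 0 ∧ F.support = S) → G ≠ 0 ∧ G.support = S) := by
      intro S
      by_cases hS : ∃ F ∈ V, F ≠ 0 ∧ F.support = S
      · obtain ⟨F, hFV, hF⟩ := hS
        exact ⟨F, hFV, fun _ => hF⟩
      · exact ⟨0, V.zero_mem, fun h => absurd h hS⟩
    choose g hg hg1 using h
    exact ⟨g, hg, hg1⟩
  refine ⟨M.powerset.image g, ?_, ?_⟩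
  · intro F hF
    obtain ⟨S, -, rfl⟩ := Finset.mem_image.1 hF
    exact hg S
  · intro wt hwt u hex
    obtain ⟨F0, hF0V, hF0⟩ := hex
    obtain ⟨F, ⟨hFV, hF⟩, hmin⟩ := WellFounded.has_min
      (measure fun F : E →₀ K => F.support.card).wf {F | F ∈ V ∧ Single wt F u} ⟨F0, hF0V, hF0⟩
    have hmin' : ∀ G ∈ V, Single wt G u → F.support.card ≤ G.support.card := by
      intro G hGV hG
      exact not_lt.1 (hmin G ⟨hGV, hG⟩)
    have hFne : F ≠ 0 := by
      rintro rfl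
      exact hF.1 rfl
    have hP := hg1 F.support ⟨F, hFV, hFne, rfl⟩
    refine ⟨g F.support, Finset.mem_image.2 ⟨F.support, ?_, rfl⟩, ?_⟩
    · rw [Finset.mem_powerset]
      intro v hv
      exact hV F hFV v (Finsupp.mem_support_iff.1 hv)
    · exact CIR.key hFV hF hmin' (hg _) hP.1 hP.2.le

end Pool.Agent.TD.BG
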