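import Pool.Agent.TD.BG.Basic

/-!
# CNT: the number of leading monomials of a graded subspace does not depend on the order
-/

open scoped ContDiff Topology NNReal

namespace Pool.Agent.TD.BG

namespace CNT

variable {K E : Type} [NormedField K] [IsUltrametricDist K] {wt : E → ℝ≥0}

/-- position of a monomial for the order `r` -/
noncomputable def pos (M : Finset E) (r : E → E → Prop) (u : E) : ℕ :=
  Set.ncard {m | m ∈ M ∧ r m u}

theorem pos_lt (M : Finset E) (r : E → E → Prop) [IsStrictTotalOrder E r] {u u' : E}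
    (hu' : u' ∈ M) (h : r u' u) : pos M r u' < pos M r u := by
  refine Set.ncard_lt_ncard ?_ (M.finite_toSet.subset fun m hm => hm.1)
  rw [Set.ssubset_iff_of_subset]
  · exact ⟨u', ⟨hu', h⟩, fun hh => irrefl_of r u' hh.2⟩
  · exact fun m hm => ⟨hm.1, trans_of r hm.2 h⟩

theorem approx (hwt : ∀ u, 0 < wt u) {M : Finset E} {W : Set (E →₀ K)}
    (hW : GSub wt (M : Set E) W) (r : E → E → Prop) [IsStrictTotalOrder E r]
    [Fintype {u | ∃ F ∈ W, IsLM wt r F u}]
    (B : {u | ∃ F ∈ W, IsLM wt r F u} → (E →₀ K)) (hB : ∀ μ, B μ ∈ W ∧ IsLM wt r (B μ) μ.1) :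
    ∀ n : ℕ, ∀ F ∈ W, ∀ u, IsLM wt r F u → pos M r u = n →
      ∃ c : {u | ∃ F ∈ W, IsLM wt r F u} → K, nrm wt (F - ∑ μ, c μ • B μ) < nrm wt F := by
  classical
  intro n
  induction n using Nat.strong_induction_on with
  | _ n ih =>
    intro F hF u hu hn
    have hFpos : 0 < nrm wt F := nrm_pos hwt (hW.ne F hF)
    set μ0 : {u | ∃ F ∈ W, IsLM wt r F u} := ⟨u, F, hF, hu⟩ with hμ0
    obtain ⟨hBW, hBu⟩ := hB μ0
    have hBu' : IsLM wt r (B μ0) u := hBu
    set c : K := F u / (B μ0) u with hc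
    have hc0 : c ≠ 0 := div_ne_zero hu.1 hBu'.1
    have hcB : nrm wt (c • B μ0) = nrm wt F := by
      rw [nrm_smul, hBu'.nrm_eq, hu.nrm_eq, ← mul_assoc, ← nnnorm_mul, hc,
        div_mul_cancel₀ _ hBu'.1]
    have hle : nrm wt (F - c • B μ0) ≤ nrm wt F := by
      refine (nrm_sub_le _ _).trans ?_
      rw [hcB, max_self]
    have hsingle : ∀ c' : K, ∑ μ, (Pi.single μ0 c' : {u | ∃ F ∈ W, IsLM wt r F u} → K) μ • B μ
        = c' • B μ0 := by
      intro c'
      rw [Finset.sum_eq_single μ0]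
      · rw [Pi.single_eq_same]
      · intro μ _ hne
        rw [Pi.single_eq_of_ne hne, zero_smul]
      · intro h; exact absurd (Finset.mem_univ _) h
    rcases hle.lt_or_eq with hlt | heq
    · exact ⟨Pi.single μ0 c, by rw [hsingle]; exact hlt⟩
    · have hF'W : F - c • B μ0 ∈ W := by
        have h1 := hW.add F hF ((-c) • B μ0) (hW.smul _ (neg_ne_zero.mpr hc0) _ hBW)
        rw [neg_smul, nrm_neg, hcB, ← sub_eq_add_neg] at h1
        exact h1 rfl heq
      obtain ⟨u', hu'⟩ := exists_isLM hwt r (hW.ne _ hF'W)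
      have hF'u : (F - c • B μ0) u = 0 := by
        rw [Finsupp.sub_apply, Finsupp.smul_apply, smul_eq_mul, hc, div_mul_cancel₀ _ hBu'.1,
          sub_self]
      have hne : u' ≠ u := by
        rintro rfl
        exact hu'.1 hF'u
      have hr : r u' u := by
        rcases trichotomous_of r u' u with h1 | h1 | h1
        · exact h1
        · exact absurd h1 hne
        · exfalso
          have h2 : ‖F u'‖₊ * wt u' < nrm wt F := by
            rw [hu.nrm_eq]; exact (hu.2 u' hne).2 h1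
          have h3 : ‖(c • B μ0) u'‖₊ * wt u' < nrm wt F := by
            rw [← hcB, nrm_smul, hBu'.nrm_eq, Finsupp.smul_apply, smul_eq_mul, nnnorm_mul,
              mul_assoc]
            exact (mul_lt_mul_iff_right₀ (by simpa using hc0)).2 ((hBu'.2 u' hne).2 h1)
          have h4 : ‖(F - c • B μ0) u'‖₊ ≤ max ‖F u'‖₊ ‖(c • B μ0) u'‖₊ := by
            rw [Finsupp.sub_apply, sub_eq_add_neg, ← nnnorm_neg ((c • B μ0) u')]
            exact IsUltrametricDist.nnnorm_add_le_max _ _
          have h5 : nrm wt (F - c • B μ0) < nrm wt F := by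
            rw [hu'.nrm_eq]
            calc ‖(F - c • B μ0) u'‖₊ * wt u'
                ≤ max (‖F u'‖₊ * wt u') (‖(c • B μ0) u'‖₊ * wt u') := by
                  rw [← max_mul]; exact mul_le_mul_left h4 _
              _ < nrm wt F := max_lt h2 h3
          rw [heq] at h5
          exact lt_irrefl _ h5
      have hu'M : u' ∈ M := hW.mon _ hF'W u' hu'.1
      obtain ⟨c', hc'⟩ := ih (pos M r u') (by rw [← hn]; exact pos_lt M r hu'M hr) _ hF'W u' hu' rfl
      refine ⟨c' + Pi.single μ0 c, ?_⟩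
      have h6 : F - ∑ μ, (c' + Pi.single μ0 c : {u | ∃ F ∈ W, IsLM wt r F u} → K) μ • B μ
          = (F - c • B μ0) - ∑ μ, c' μ • B μ := by
        simp only [Pi.add_apply, add_smul, Finset.sum_add_distrib]
        rw [hsingle]; abel
      rw [h6, ← heq]
      exact hc'

theorem finite_LM {M : Finset E} {W : Set (E →₀ K)}
    (hW : GSub wt (M : Set E) W) (r : E → E → Prop) : {u | ∃ F ∈ W, IsLM wt r F u}.Finite := by
  refine M.finite_toSet.subset ?_
  rintro u ⟨F, hF, hu⟩
  exact hW.mon F hF u hu.1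

theorem card_le (h1 : ORT_Stmt) (hwt : ∀ u, 0 < wt u) {M : Finset E} {W : Set (E →₀ K)}
    (hW : GSub wt (M : Set E) W) (r r' : E → E → Prop) [IsStrictTotalOrder E r]
    [IsStrictTotalOrder E r'] :
    Set.ncard {u | ∃ F ∈ W, IsLM wt r' F u} ≤ Set.ncard {u | ∃ F ∈ W, IsLM wt r F u} := by
  classical
  haveI : Fintype {u | ∃ F ∈ W, IsLM wt r F u} := (finite_LM hW r).fintype
  haveI : Fintype {u | ∃ F ∈ W, IsLM wt r' F u} := (finite_LM hW r').fintype
  by_contra hlt
  push Not at hlt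
  rw [Set.ncard_eq_toFinset_card', Set.ncard_eq_toFinset_card', Set.toFinset_card,
    Set.toFinset_card] at hlt
  choose B hB using fun μ : {u | ∃ F ∈ W, IsLM wt r F u} => μ.2
  choose G hG using fun μ : {u | ∃ F ∈ W, IsLM wt r' F u} => μ.2
  have happ : ∀ j, ∃ c : {u | ∃ F ∈ W, IsLM wt r F u} → K,
      nrm wt (G j - ∑ μ, c μ • B μ) < nrm wt (G j) := by
    intro j
    obtain ⟨u, hu⟩ := exists_isLM hwt r (hW.ne _ (hG j).1)
    exact approx hwt hW r B hB _ (G j) (hG j).1 u hu rfl
  choose c hc using happ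
  let f : ({u | ∃ F ∈ W, IsLM wt r' F u} → K) →ₗ[K] ({u | ∃ F ∈ W, IsLM wt r F u} → K) :=
    { toFun := fun d μ => ∑ j, d j * c j μ
      map_add' := by
        intro d d'
        funext μ
        simp only [Pi.add_apply, add_mul, Finset.sum_add_distrib]
      map_smul' := by
        intro a d
        funext μ
        simp only [Pi.smul_apply, smul_eq_mul, RingHom.id_apply, Finset.mul_sum, mul_assoc] }
  have hker : LinearMap.ker f ≠ ⊥ := by
    apply LinearMap.ker_ne_bot_of_finrank_lt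
    rw [Module.finrank_fintype_fun_eq_card, Module.finrank_fintype_fun_eq_card]
    exact hlt
  obtain ⟨d, hd, hd0⟩ := (Submodule.ne_bot_iff _).mp hker
  have hfd : ∀ μ, ∑ j, d j * c j μ = 0 := fun μ => congrFun (LinearMap.mem_ker.mp hd) μ
  have hort := h1 K E wt hwt r' _ G (fun j => j.1) Subtype.val_injective (fun j => (hG j).2) d
  obtain ⟨j0, hj0⟩ : ∃ j, d j ≠ 0 := by
    by_contra hcon
    push Not at hcon
    exact hd0 (funext hcon)
  have hpos : 0 < Finset.univ.sup fun j => ‖d j‖₊ * nrm wt (G j) := by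
    refine lt_of_lt_of_le ?_ (Finset.le_sup (f := fun j => ‖d j‖₊ * nrm wt (G j))
      (Finset.mem_univ j0))
    exact mul_pos (by simpa using hj0) (nrm_pos hwt (hW.ne _ (hG j0).1))
  have hsum : ∑ j, d j • G j = ∑ j, d j • (G j - ∑ μ, c j μ • B μ) := by
    have h2 : ∑ j, d j • ∑ μ, c j μ • B μ = 0 := by
      have h3 : ∀ j, d j • ∑ μ, c j μ • B μ = ∑ μ, (d j * c j μ) • B μ := by
        intro j
        rw [Finset.smul_sum]
        refine Finset.sum_congr rfl fun μ _ => ?_
        rw [smul_smul]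
      rw [Finset.sum_congr rfl fun j _ => h3 j, Finset.sum_comm]
      refine Finset.sum_eq_zero fun μ _ => ?_
      rw [← Finset.sum_smul, hfd μ, zero_smul]
    simp only [smul_sub, Finset.sum_sub_distrib]
    rw [h2, sub_zero]
  have hfin : nrm wt (∑ j, d j • G j) < Finset.univ.sup fun j => ‖d j‖₊ * nrm wt (G j) := by
    rw [hsum]
    refine (nrm_sum_le _ _).trans_lt ?_
    rw [Finset.sup_lt_iff hpos]
    intro j _
    rw [nrm_smul]
    by_cases hdj : d j = 0
    · rw [hdj, nnnorm_zero, zero_mul]; exact hpos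
    · refine lt_of_lt_of_le ?_ (Finset.le_sup (f := fun j => ‖d j‖₊ * nrm wt (G j))
        (Finset.mem_univ j))
      exact (mul_lt_mul_iff_right₀ (by simpa using hdj)).2 (hc j)
  rw [hort] at hfin
  exact lt_irrefl _ hfin

end CNT

theorem CNT_thm (h1 : ORT_Stmt) : CNT_Stmt := by
  intro K E _ _ wt hwt M W hW r r' _ _
  exact le_antisymm (CNT.card_le h1 hwt hW r' r) (CNT.card_le h1 hwt hW r r')

end Pool.Agent.TD.BG
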