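import Pool.Agent.TD.BG.Basic

/-!
# Block M, module CUT: cut-off functions on Berkovich spectra
-/

open scoped ContDiff Topology NNReal

namespace Pool.Agent.TD.BG

namespace CUT

section gen

variable {X Φ : Type} [TopologicalSpace X] {L : LogSpace X Φ}

theorem smooth_const (c : ℝ) : L.Smooth (fun _ => c) := fun _ =>
  ⟨∅, by simp, fun _ => c, contDiff_const, Filter.Eventually.of_forall fun _ => rfl⟩

theorem smooth_op2 {F : ℝ × ℝ → ℝ} (hF : ContDiff ℝ ∞ F) {g h : X → ℝ} (hg : L.Smooth g)
    (hh : L.Smooth h) : L.Smooth (fun z => F (g z, h z)) := by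
  classical
  intro z
  obtain ⟨s, hs, a, ha, ea⟩ := hg z
  obtain ⟨t, ht, b, hb, eb⟩ := hh z
  have h1 : s ⊆ s ∪ t := Finset.subset_union_left
  have h2 : t ⊆ s ∪ t := Finset.subset_union_right
  refine ⟨s ∪ t, ?_, fun x => F (a (rst h1 x), b (rst h2 x)), ?_, ?_⟩
  · intro f hf
    rcases Finset.mem_union.1 hf with h | h
    exacts [hs f h, ht f h]
  · exact hF.comp ((ha.comp (rst h1).contDiff).prodMk (hb.comp (rst h2).contDiff))
  · filter_upwards [ea, eb] with z' e1 e2
    rw [e1, e2, L.rst_trop, L.rst_trop]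

theorem smooth_mul {g h : X → ℝ} (hg : L.Smooth g) (hh : L.Smooth h) :
    L.Smooth (fun z => g z * h z) :=
  smooth_op2 (F := fun p : ℝ × ℝ => p.1 * p.2) (contDiff_fst.mul contDiff_snd) hg hh

theorem smooth_sub {g h : X → ℝ} (hg : L.Smooth g) (hh : L.Smooth h) :
    L.Smooth (fun z => g z - h z) :=
  smooth_op2 (F := fun p : ℝ × ℝ => p.1 - p.2) (contDiff_fst.sub contDiff_snd) hg hh

theorem smooth_prod {ι : Type} (s : Finset ι) (g : ι → X → ℝ) (hg : ∀ i ∈ s, L.Smooth (g i)) :
    L.Smooth (fun z => ∏ i ∈ s, g i z) := by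
  classical
  induction s using Finset.induction_on with
  | empty => simpa using smooth_const (L := L) 1
  | insert i s hi ih =>
    have e : (fun z => ∏ j ∈ insert i s, g j z) = fun z => g i z * ∏ j ∈ s, g j z := by
      funext z
      rw [Finset.prod_insert hi]
    rw [e]
    exact smooth_mul (hg i (Finset.mem_insert_self i s))
      (ih fun j hj => hg j (Finset.mem_insert_of_mem hj))

end gen

section ber

variable {K A : Type} [NormedField K] [CommRing A] [Algebra K A]

/-- functions of `log |a|` which are constant where `|a|` is small -/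
theorem smooth_log (a : A) (hc : Continuous fun z : Ber K A => z.v a) {β : ℝ → ℝ}
    (hβ : ContDiff ℝ ∞ β) {κ m : ℝ} (hm : ∀ s ≤ m, β s = κ) :
    (berLS K A).Smooth (fun z => if z.v a = 0 then κ else β (Real.log (z.v a))) := by
  intro y
  by_cases hy : y.v a = 0
  · refine ⟨∅, by simp, fun _ => κ, contDiff_const, ?_⟩
    have h1 : ∀ᶠ z' : Ber K A in 𝓝 y, z'.v a < Real.exp m := by
      have h2 := hc.continuousAt (x := y)
      refine h2.eventually_lt_const ?_
      show y.v a < Real.exp m
      rw [hy]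
      exact Real.exp_pos m
    filter_upwards [h1] with z' hz'
    by_cases h0 : z'.v a = 0
    · rw [if_pos h0]
    · rw [if_neg h0]
      have hpos : 0 < z'.v a := lt_of_le_of_ne (z'.nonneg a) (Ne.symm h0)
      refine hm _ ?_
      rw [← Real.log_exp m]
      exact Real.log_le_log hpos hz'.le
  · refine ⟨{a}, ?_, fun x => β (x ⟨a, Finset.mem_singleton_self a⟩), ?_, ?_⟩
    · intro f hf
      rw [Finset.mem_singleton.1 hf]
      exact hy
    · exact hβ.comp (contDiff_apply ℝ ℝ _)
    · have h1 : ∀ᶠ z' : Ber K A in 𝓝 y, z'.v a ≠ 0 := by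
        have h2 := hc.continuousAt (x := y)
        exact h2.eventually_ne hy
      filter_upwards [h1] with z' hz'
      rw [if_neg hz']
      rfl

/-- the cut-off function at a point -/
theorem exists_local (hT : ∀ a : A, Continuous fun z : Ber K A => z.v a) (z : Ber K A)
    (t : Finset A) {η : ℝ} (hη : 0 < η) :
    ∃ g : Ber K A → ℝ, (berLS K A).Smooth g ∧ (∀ᶠ z' in 𝓝 z, g z' = 1) ∧
      ∀ z', z' ∉ box z t η η → g z' = 0 := by
  classical
  -- the factors
  have hfac : ∀ a : A, ∃ f : Ber K A → ℝ, (berLS K A).Smooth f ∧ (∀ᶠ z' in 𝓝 z, f z' = 1) ∧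
      ∀ z', ¬ ((z.v a ≠ 0 → z'.v a ≠ 0 ∧ |Real.log (z'.v a) - Real.log (z.v a)| ≤ η) ∧
        (z.v a = 0 → z'.v a ≤ η)) → f z' = 0 := by
    intro a
    by_cases ha : z.v a = 0
    · set β : ℝ → ℝ := fun s => Real.smoothTransition (Real.log η - s) with hβdef
      have hβ : ContDiff ℝ ∞ β := Real.smoothTransition.contDiff.comp (contDiff_const.sub contDiff_id)
      have h1 : ∀ s ≤ Real.log η - 1, β s = 1 := fun s hs =>
        Real.smoothTransition.one_of_one_le (by linarith)
      refine ⟨_, smooth_log a (hT a) hβ h1, ?_, ?_⟩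
      · have h2 : ∀ᶠ z' : Ber K A in 𝓝 z, z'.v a < Real.exp (Real.log η - 1) := by
          refine (hT a).continuousAt.eventually_lt_const ?_
          show z.v a < _
          rw [ha]
          exact Real.exp_pos _
        filter_upwards [h2] with z' hz'
        by_cases h0 : z'.v a = 0
        · rw [if_pos h0]
        · rw [if_neg h0]
          have hpos : 0 < z'.v a := lt_of_le_of_ne (z'.nonneg a) (Ne.symm h0)
          refine h1 _ ?_
          rw [← Real.log_exp (Real.log η - 1)]
          exact Real.log_le_log hpos hz'.le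
      · intro z' hz'
        have h3 : η < z'.v a := by
          by_contra hcon
          exact hz' ⟨fun h => absurd ha h, fun _ => not_lt.1 hcon⟩
        have hpos : 0 < z'.v a := hη.trans h3
        show (if z'.v a = 0 then (1 : ℝ) else β (Real.log (z'.v a))) = 0
        rw [if_neg hpos.ne']
        refine Real.smoothTransition.zero_of_nonpos ?_
        have := Real.log_le_log hη h3.le
        linarith
    · set c := Real.log (z.v a) with hcdef
      have hη2 : 0 < η / 2 := by positivity
      have hη3 : η / 2 < η := by linarith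
      set b : ContDiffBump c := ⟨η / 2, η, hη2, hη3⟩ with hbdef
      have hβ : ContDiff ℝ ∞ (fun s => b s) := b.contDiff
      have h1 : ∀ s ≤ c - η, b s = 0 := fun s hs => by
        refine b.zero_of_le_dist ?_
        show η ≤ dist s c
        rw [Real.dist_eq, abs_sub_comm]
        exact le_trans (by linarith) (le_abs_self _)
      refine ⟨_, smooth_log a (hT a) hβ h1, ?_, ?_⟩
      · have h2 : ∀ᶠ z' : Ber K A in 𝓝 z, z'.v a ≠ 0 := (hT a).continuousAt.eventually_ne ha
        have h3 : ∀ᶠ z' : Ber K A in 𝓝 z, Real.log (z'.v a) ∈ Metric.closedBall c (η / 2) := by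
          have h4 : ContinuousAt (fun z' : Ber K A => Real.log (z'.v a)) z :=
            (hT a).continuousAt.log ha
          exact h4.eventually_mem (Metric.closedBall_mem_nhds c hη2)
        filter_upwards [h2, h3] with z' h5 h6
        rw [if_neg h5]
        exact b.one_of_mem_closedBall h6
      · intro z' hz'
        show (if z'.v a = 0 then (0 : ℝ) else b (Real.log (z'.v a))) = 0
        by_cases h0 : z'.v a = 0
        · rw [if_pos h0]
        · rw [if_neg h0]
          refine b.zero_of_le_dist ?_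
          show η ≤ dist (Real.log (z'.v a)) c
          rw [Real.dist_eq]
          by_contra hcon
          exact hz' ⟨fun _ => ⟨h0, (not_le.1 hcon).le⟩, fun h => absurd h ha⟩
  choose f hf1 hf2 hf3 using hfac
  refine ⟨fun z' => ∏ a ∈ t, f a z', smooth_prod t f fun a _ => hf1 a, ?_, ?_⟩
  · have h1 : ∀ᶠ z' in 𝓝 z, ∀ a ∈ t, f a z' = 1 := by
      rw [Filter.eventually_all_finset]
      exact fun a _ => hf2 a
    filter_upwards [h1] with z' hz'
    exact Finset.prod_eq_one hz'
  · intro z' hz'
    unfold box at hz'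
    rw [Set.mem_ofPred_eq] at hz'
    push Not at hz'
    obtain ⟨a, hat, ha⟩ := hz'
    refine Finset.prod_eq_zero hat (hf3 a z' ?_)
    intro hcon
    have h2 := ha hcon.1
    exact absurd (hcon.2 h2.1) (not_le.2 h2.2)

end ber

end CUT

open CUT in
/-- CUT: cut-off functions. -/
theorem CUT_thm (h1 : TOP_Stmt) (h2 : NHD_Stmt) : CUT_Stmt := by
  classical
  intro K A _ _ _ _ _
  obtain ⟨hT2, hT, -, -⟩ := h1 K A
  intro S V hS hV hSV
  have hloc : ∀ z : Ber K A, z ∈ S → ∃ g : Ber K A → ℝ, (berLS K A).Smooth g ∧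
      (∀ᶠ z' in 𝓝 z, g z' = 1) ∧ ∃ C, IsClosed C ∧ C ⊆ V ∧ ∀ z', z' ∉ C → g z' = 0 := by
    intro z hz
    obtain ⟨t, -, -, η, hη, hbox⟩ := h2 K A z ∅ V (hV.mem_nhds (hSV hz))
    obtain ⟨b1, -, b3⟩ := hbox η η hη le_rfl hη le_rfl
    obtain ⟨g, g1, g2, g3⟩ := exists_local hT z t hη
    exact ⟨g, g1, g2, box z t η η, b3.isClosed, b1, g3⟩
  choose! g g1 g2 C c1 c2 c3 using hloc
  obtain ⟨s, hs, hcov⟩ := hS.elim_nhds_subcover (fun z => interior {z' | g z z' = 1})
    fun z hz => interior_mem_nhds.2 (g2 z hz)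
  refine ⟨fun z' => 1 - ∏ z ∈ s, (1 - g z z'),
    smooth_sub (smooth_const 1) (smooth_prod s _ fun z hz =>
      smooth_sub (smooth_const 1) (g1 z (hs z hz))), ?_,
    ⋃ z ∈ s, C z, ?_, ?_, ?_⟩
  · have hopen : IsOpen (⋃ z ∈ s, interior {z' | g z z' = 1}) :=
      isOpen_biUnion fun z _ => isOpen_interior
    filter_upwards [hopen.mem_nhdsSet.2 hcov] with y hy
    obtain ⟨z, hz, hyz⟩ := Set.mem_iUnion₂.1 hy
    have h5 : y ∈ {z' | g z z' = 1} := interior_subset hyz
    have h3 : g z y = 1 := h5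
    have h4 : ∏ z ∈ s, (1 - g z y) = 0 := Finset.prod_eq_zero hz (by rw [h3, sub_self])
    rw [h4, sub_zero]
  · exact isClosed_biUnion_finset fun z hz => c1 z (hs z hz)
  · exact Set.iUnion₂_subset fun z hz => c2 z (hs z hz)
  · intro z' hz'
    have h3 : ∏ z ∈ s, (1 - g z z') = 1 := by
      refine Finset.prod_eq_one fun z hz => ?_
      rw [c3 z (hs z hz) z' fun hc => hz' (Set.mem_biUnion hz hc), sub_zero]
    show 1 - ∏ z ∈ s, (1 - g z z') = 0
    rw [h3, sub_self]

end Pool.Agent.TD.BG
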