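import Pool.Agent.TD.BG.Basic

/-!
# Module TD_BG_DIM: the number of leading monomials of a subspace is its dimension
-/

open scoped ContDiff Topology NNReal

namespace Pool.Agent.TD.BG.DIM

variable {K E : Type} [NormedField K]

/-- Evaluation at the points of a set. -/
def ev (V : Submodule K (E →₀ K)) (S : Set E) : V →ₗ[K] (S → K) where
  toFun G u := (G : E →₀ K) (u : E)
  map_add' _ _ := rfl
  map_smul' _ _ := rfl

theorem finite_of_supp (M : Finset E) (V : Submodule K (E →₀ K))
    (hV : ∀ F ∈ V, ∀ u, F u ≠ 0 → u ∈ M) : Module.Finite K V := by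
  have hinj : Function.Injective (ev V (M : Set E)) := by
    rw [injective_iff_map_eq_zero]
    intro G hG
    apply Subtype.ext
    ext u
    by_contra hne
    exact hne (congrFun hG ⟨u, hV G.1 G.2 u hne⟩)
  exact Module.Finite.of_injective (ev V (M : Set E)) hinj

end Pool.Agent.TD.BG.DIM

namespace Pool.Agent.TD.BG

open DIM in
theorem DIM_thm (h1 : ORT_Stmt) : DIM_Stmt := by
  classical
  intro K E _ _ wt hwt M V hV r _
  have hset : {u | ∃ F : E →₀ K, F ≠ 0 ∧ (∃ G ∈ V, nrm wt (F - G) < nrm wt F) ∧
      IsLM wt r F u} = {u | ∃ G ∈ V, IsLM wt r G u} := by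
    ext u
    constructor
    · rintro ⟨F, -, ⟨G, hG, hFG⟩, hu⟩
      exact ⟨G, hG, hu.of_approx hFG⟩
    · rintro ⟨G, hG, hu⟩
      have hG0 : G ≠ 0 := by
        rintro rfl
        exact hu.1 rfl
      refine ⟨G, hG0, ⟨G, hG, ?_⟩, hu⟩
      rw [sub_self, nrm_zero]
      exact nrm_pos hwt hG0
  rw [hset]
  set S : Set E := {u | ∃ G ∈ V, IsLM wt r G u} with hS
  have hSM : S ⊆ (M : Set E) := by
    rintro u ⟨G, hG, hu⟩
    exact hV G hG u hu.1
  have hSf : S.Finite := M.finite_toSet.subset hSM
  have : Fintype S := hSf.fintype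
  have : Module.Finite K V := finite_of_supp M V hV
  rw [← Nat.card_coe_set_eq, Nat.card_eq_fintype_card]
  apply le_antisymm
  · have hch : ∀ u : S, ∃ G ∈ V, IsLM wt r G u := fun u => u.2
    choose G hG hu using hch
    have hli : LinearIndependent K (fun u : S => (⟨G u, hG u⟩ : V)) := by
      refine (Fintype.linearIndependent_iff (R := K) (ι := S)
        (v := fun u : S => (⟨G u, hG u⟩ : V))).2 fun c hc u => ?_
      have h2 := h1 K E wt hwt r S G (fun u => (u : E)) Subtype.coe_injective hu c
      have h3 : (∑ j, c j • G j) = 0 := by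
        have h4 := congrArg (fun v : V => (v : E →₀ K)) hc
        simpa using h4
      rw [h3, nrm_zero] at h2
      have h4 : ‖c u‖₊ * nrm wt (G u) ≤ 0 := by
        rw [h2]
        exact Finset.le_sup (f := fun j => ‖c j‖₊ * nrm wt (G j)) (Finset.mem_univ u)
      have h5 : 0 < nrm wt (G u) := by
        apply nrm_pos hwt
        intro h6
        have h7 := (hu u).1
        rw [h6] at h7
        exact h7 rfl
      rw [nonpos_iff_eq_zero, mul_eq_zero] at h4
      rcases h4 with h4 | h4
      · simpa using h4
      · exact absurd h4 h5.ne'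
    exact hli.fintype_card_le_finrank
  · have hinj : Function.Injective (ev V S) := by
      rw [injective_iff_map_eq_zero]
      intro G hG
      by_contra hne
      have hG0 : (G : E →₀ K) ≠ 0 := fun h => hne (Subtype.ext h)
      obtain ⟨u, hu⟩ := exists_isLM hwt r hG0
      exact hu.1 (congrFun hG ⟨u, G.1, G.2, hu⟩)
    have h2 := LinearMap.finrank_le_finrank_of_injective hinj
    rwa [Module.finrank_fintype_fun_eq_card] at h2

end Pool.Agent.TD.BG
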