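import Pool.Agent.TD.BG.Basic

/-!
# EXH: `M(A)` is locally compact and exhausted by compact sets
-/

open scoped ContDiff Topology NNReal

namespace Pool.Agent.TD.BG

/-- EXH. -/
theorem EXH_thm (h1 : TOP_Stmt) (h2 : BND_Stmt) : EXH_Stmt := by
  intro K A _ _ _ _ hft
  obtain ⟨hT2, hcont, hcomp, -⟩ := h1 K A
  obtain ⟨t, ht⟩ := hft.out
  -- the exhaustion
  let B : ℕ → Set (Ber K A) := fun n => {z | ∀ a ∈ t, z.v a ≤ n}
  have hBdef : ∀ n z, z ∈ B n ↔ ∀ a ∈ t, z.v a ≤ n := fun n z => Iff.rfl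
  have hBclosed : ∀ n, IsClosed (B n) := by
    intro n
    have : B n = ⋂ a ∈ t, {z : Ber K A | z.v a ≤ (n : ℝ)} := by
      ext z
      simp [hBdef]
    rw [this]
    exact isClosed_biInter fun a _ => isClosed_le (hcont a) continuous_const
  have hBcompact : ∀ n, IsCompact (B n) := by
    intro n
    refine hcomp (B n) (hBclosed n) (h2 K A (t : Set A) ht (B n) ?_)
    intro a ha
    exact ⟨n, fun z hz => hz a ha⟩
  have hBint : ∀ n, B n ⊆ interior (B (n + 1)) := by
    intro n
    have hopen : IsOpen (⋂ a ∈ t, {z : Ber K A | z.v a < (n : ℝ) + 1}) :=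
      isOpen_biInter_finset fun a _ => isOpen_lt (hcont a) continuous_const
    refine subset_trans ?_ (interior_maximal ?_ hopen)
    · intro z hz
      simp only [Set.mem_iInter]
      intro a ha
      have := hz a ha
      show z.v a < (n : ℝ) + 1
      linarith
    · intro z hz a ha
      simp only [Set.mem_iInter] at hz
      have : z.v a < (n : ℝ) + 1 := hz a ha
      push_cast
      exact this.le
  have hBun : ⋃ n, B n = Set.univ := by
    refine Set.eq_univ_of_forall fun z => ?_
    obtain ⟨n, hn⟩ := exists_nat_ge (∑ a ∈ t, |z.v a|)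
    refine Set.mem_iUnion.2 ⟨n, fun a ha => ?_⟩
    calc z.v a ≤ |z.v a| := le_abs_self _
      _ ≤ ∑ a ∈ t, |z.v a| := Finset.single_le_sum (f := fun a => |z.v a|)
          (fun _ _ => abs_nonneg _) ha
      _ ≤ n := hn
  refine ⟨?_, B, hBcompact, hBint, hBun⟩
  have := hT2
  have : WeaklyLocallyCompactSpace (Ber K A) := by
    constructor
    intro z
    have hz : z ∈ ⋃ n, B n := by rw [hBun]; trivial
    obtain ⟨n, hn⟩ := Set.mem_iUnion.1 hz
    exact ⟨B (n + 1), hBcompact (n + 1), mem_interior_iff_mem_nhds.1 (hBint n hn)⟩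
  infer_instance

end Pool.Agent.TD.BG
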