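import Pool.Agent.TD.BG.Basic

/-!
# Linear images of polyhedra are polyhedra
-/

open scoped Topology

namespace Pool.Agent.TD.BG

namespace FM

theorem reindex {ι κ : Type} [Fintype ι] [Fintype κ] (e : ι ≃ κ) {S : Set (ι → ℝ)}
    (h : IsPolyh S) : IsPolyh {y : κ → ℝ | (fun i => y (e i)) ∈ S} := by
  obtain ⟨n, l, c, rfl⟩ := h
  refine ⟨n, fun j k => l j (e.symm k), c, ?_⟩
  ext y
  show (∀ j, ∑ i, l j i * y (e i) ≤ c j) ↔ ∀ j, ∑ k, l j (e.symm k) * y k ≤ c j
  refine forall_congr' fun j => ?_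
  rw [← Equiv.sum_comp e (fun k => l j (e.symm k) * y k)]
  simp only [Equiv.symm_apply_apply]

theorem elimOption (h1 : FM1_Stmt) {κ : Type} [Fintype κ] {T : Set (Option κ → ℝ)}
    (h : IsPolyh T) : IsPolyh ((fun z : Option κ → ℝ => fun k => z (some k)) '' T) := by
  set n := Fintype.card κ
  let e : κ ≃ Fin n := Fintype.equivFin κ
  let e' : Option κ ≃ Fin (n + 1) := (Equiv.optionCongr e).trans (finSuccEquiv n).symm
  have he' : ∀ k, e' (some k) = (e k).succ := fun k => by
    simp [e']
  have he2 : ∀ i : Fin n, e'.symm i.succ = some (e.symm i) := fun i => by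
    rw [Equiv.symm_apply_eq, he', Equiv.apply_symm_apply]
  have hT' := h1 n _ (reindex e' h)
  have hT2 := reindex e.symm hT'
  convert hT2 using 1
  ext y
  constructor
  · rintro ⟨z, hz, rfl⟩
    refine ⟨fun i => z (e'.symm i), ?_, ?_⟩
    · show (fun i => z (e'.symm (e' i))) ∈ T
      simpa only [Equiv.symm_apply_apply] using hz
    · funext i
      show z (e'.symm i.succ) = z (some (e.symm i))
      rw [he2]
  · rintro ⟨x, hx, hxy⟩
    refine ⟨fun i => x (e' i), hx, ?_⟩
    funext k
    show x (e' (some k)) = y k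
    have h2 := congrFun hxy (e k)
    have h3 : x (e k).succ = y (e.symm (e k)) := h2
    rw [he', h3, Equiv.symm_apply_apply]

/-- elimination of all coordinates of one type -/
theorem elim (h1 : FM1_Stmt) (ι : Type) [Finite ι] : ∀ [Fintype ι] (κ : Type) [Fintype κ]
    (T : Set (ι ⊕ κ → ℝ)), IsPolyh T →
      IsPolyh ((fun z : ι ⊕ κ → ℝ => fun k => z (Sum.inr k)) '' T) := by
  induction ι using Finite.induction_empty_option with
  | of_equiv e ih =>
    rename_i α β
    intro _ κ _ T hT
    have : Fintype α := Fintype.ofEquiv β e.symm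
    have h2 := ih κ _ (reindex (Equiv.sumCongr e.symm (Equiv.refl κ)) hT)
    convert h2 using 1
    ext y
    constructor
    · rintro ⟨z, hz, rfl⟩
      refine ⟨fun i => z (Equiv.sumCongr e (Equiv.refl κ) i), ?_, rfl⟩
      show (fun i => z (Equiv.sumCongr e (Equiv.refl κ)
        (Equiv.sumCongr e.symm (Equiv.refl κ) i))) ∈ T
      convert hz using 1
      funext i
      congr 1
      rcases i with i | i
      · simp
      · simp
    · rintro ⟨z, hz, rfl⟩
      exact ⟨_, hz, rfl⟩
  | h_empty =>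
    intro _ κ _ T hT
    have h2 := reindex (Equiv.emptySum PEmpty κ) hT
    convert h2 using 1
    ext y
    constructor
    · rintro ⟨z, hz, rfl⟩
      show (fun i => z (Sum.inr (Equiv.emptySum PEmpty κ i))) ∈ T
      convert hz using 1
      funext i
      rcases i with i | i
      · exact i.elim
      · rfl
    · intro hy
      exact ⟨_, hy, rfl⟩
  | h_option ih =>
    rename_i α _
    intro _ κ _ T hT
    let e : Option α ⊕ κ ≃ α ⊕ Option κ :=
      { toFun := fun i => match i with
          | Sum.inl none => Sum.inr none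
          | Sum.inl (some a) => Sum.inl a
          | Sum.inr k => Sum.inr (some k)
        invFun := fun i => match i with
          | Sum.inl a => Sum.inl (some a)
          | Sum.inr none => Sum.inl none
          | Sum.inr (some k) => Sum.inr k
        left_inv := by
          rintro ((_ | _) | _) <;> rfl
        right_inv := by
          rintro (_ | _ | _) <;> rfl }
    have h2 := ih (Option κ) _ (reindex e hT)
    have h3 := elimOption h1 h2
    convert h3 using 1
    ext y
    constructor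
    · rintro ⟨z, hz, rfl⟩
      refine ⟨_, ⟨fun i => z (e.symm i), ?_, rfl⟩, rfl⟩
      show (fun i => z (e.symm (e i))) ∈ T
      simpa only [Equiv.symm_apply_apply] using hz
    · rintro ⟨_, ⟨z, hz, rfl⟩, rfl⟩
      exact ⟨_, hz, rfl⟩

theorem inter_fin (h2 : PLB_Stmt) {ι κ : Type} [Fintype ι] (A : κ → Set (ι → ℝ))
    (hA : ∀ k, IsPolyh (A k)) (s : Finset κ) : IsPolyh (⋂ k ∈ s, A k) := by
  classical
  induction s using Finset.induction_on with
  | empty =>
    simp only [Finset.notMem_empty, Set.iInter_of_empty, Set.iInter_univ]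
    exact (h2 ι).2.2.2.2.2.2.1
  | insert k s _ ih =>
    rw [Finset.set_biInter_insert]
    exact (h2 ι).1 _ _ (hA k) ih

end FM

/-- Linear images of polyhedra are polyhedra. -/
theorem FM_thm (h1 : FM1_Stmt) (h2 : PLB_Stmt) : FM_Stmt := by
  classical
  intro ι κ _ _ L S hS
  let G : Set (ι ⊕ κ → ℝ) := {z | (fun i => z (Sum.inl i)) ∈ S} ∩
    ⋂ k ∈ (Finset.univ : Finset κ), {z | ∑ j, (Sum.elim
      (fun i => - L (Pi.single i 1) k) (Pi.single k 1) : ι ⊕ κ → ℝ) j * z j = 0}
  have hLx : ∀ (x : ι → ℝ) (k : κ), L x k = ∑ i, L (Pi.single i 1) k * x i := by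
    intro x k
    have h3 : x = ∑ i, x i • (Pi.single i (1 : ℝ) : ι → ℝ) := by
      funext j
      simp [Finset.sum_apply, Pi.single_apply]
    conv_lhs => rw [h3]
    rw [map_sum, Finset.sum_apply]
    refine Finset.sum_congr rfl fun i _ => ?_
    rw [map_smul, Pi.smul_apply, smul_eq_mul, mul_comm]
  have hmem : ∀ (z : ι ⊕ κ → ℝ) (k : κ), (∑ j, (Sum.elim
      (fun i => - L (Pi.single i 1) k) (Pi.single k 1) : ι ⊕ κ → ℝ) j * z j = 0) ↔
      z (Sum.inr k) = L (fun i => z (Sum.inl i)) k := by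
    intro z k
    rw [hLx, Fintype.sum_sum_type]
    simp only [Sum.elim_inl, Sum.elim_inr, Pi.single_apply, ite_mul, one_mul, zero_mul,
      Finset.sum_ite_eq', Finset.mem_univ, if_true, neg_mul, Finset.sum_neg_distrib]
    constructor <;> intro h <;> linarith
  have hG : IsPolyh G := by
    refine (h2 _).1 _ _ ?_ (FM.inter_fin h2 _ (fun k => (h2 _).2.2.2.2.2.1 _ 0) _)
    obtain ⟨n, l, c, rfl⟩ := hS
    refine ⟨n, fun j => Sum.elim (l j) 0, c, ?_⟩
    ext z
    show (∀ j, ∑ i, l j i * z (Sum.inl i) ≤ c j) ↔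
      ∀ j, ∑ i, (Sum.elim (l j) 0 : ι ⊕ κ → ℝ) i * z i ≤ c j
    refine forall_congr' fun j => ?_
    rw [Fintype.sum_sum_type]
    simp
  have h4 := FM.elim h1 ι κ G hG
  convert h4 using 1
  ext y
  constructor
  · rintro ⟨x, hx, rfl⟩
    refine ⟨Sum.elim x (L x), ⟨hx, ?_⟩, rfl⟩
    refine Set.mem_iInter₂.2 fun k _ => ?_
    exact (hmem _ k).2 rfl
  · rintro ⟨z, ⟨hz, hz2⟩, rfl⟩
    refine ⟨_, hz, ?_⟩
    funext k
    exact ((hmem z k).1 (Set.mem_iInter₂.1 hz2 k (Finset.mem_univ k))).symm

end Pool.Agent.TD.BG
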