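import Pool.Agent.TD.BG.Basic

/-!
# FM1: Fourier-Motzkin elimination of one variable
-/

namespace Pool.Agent.TD.BG

namespace FM1

/-- A finite system of inequalities indexed by an arbitrary finite type. -/
theorem isPolyh_of_fintype {ι : Type} [Fintype ι] {J : Type} [Fintype J] (l : J → ι → ℝ)
    (c : J → ℝ) : IsPolyh {x : ι → ℝ | ∀ j, ∑ i, l j i * x i ≤ c j} := by
  classical
  refine ⟨Fintype.card J, fun k => l ((Fintype.equivFin J).symm k),
    fun k => c ((Fintype.equivFin J).symm k), ?_⟩
  ext x
  simp only [Set.mem_ofPred_eq]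
  constructor
  · intro h k
    exact h _
  · intro h j
    have := h (Fintype.equivFin J j)
    simpa using this

/-- Finitely many lower bounds below finitely many upper bounds. -/
theorem exists_mid {P N : Type} [Finite P] [Finite N] (lo : N → ℝ) (up : P → ℝ)
    (h : ∀ a b, lo b ≤ up a) : ∃ t : ℝ, (∀ b, lo b ≤ t) ∧ ∀ a, t ≤ up a := by
  rcases isEmpty_or_nonempty N with hN | hN
  · rcases isEmpty_or_nonempty P with hP | hP
    · exact ⟨0, fun b => (hN.false b).elim, fun a => (hP.false a).elim⟩
    · obtain ⟨a0, ha0⟩ := Finite.exists_min up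
      exact ⟨up a0, fun b => (hN.false b).elim, ha0⟩
  · obtain ⟨b0, hb0⟩ := Finite.exists_max lo
    exact ⟨lo b0, hb0, fun a => h a b0⟩

end FM1

theorem FM1_thm : FM1_Stmt := by
  intro n S hS
  obtain ⟨m, l, c, rfl⟩ := hS
  classical
  let J : Type := {j : Fin m // l j 0 = 0} ⊕ ({j : Fin m // 0 < l j 0} × {j : Fin m // l j 0 < 0})
  let L : J → Fin n → ℝ := fun j => Sum.elim (fun a i => l a.1 i.succ)
    (fun p i => (-(l p.2.1 0)) * l p.1.1 i.succ + l p.1.1 0 * l p.2.1 i.succ) j
  let C : J → ℝ := fun j => Sum.elim (fun a => c a.1)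
    (fun p => (-(l p.2.1 0)) * c p.1.1 + l p.1.1 0 * c p.2.1) j
  have key : ((fun x : Fin (n + 1) → ℝ => fun i : Fin n => x i.succ) ''
      {x | ∀ j, ∑ i, l j i * x i ≤ c j}) = {y : Fin n → ℝ | ∀ j : J, ∑ i, L j i * y i ≤ C j} := by
    ext y
    simp only [Set.mem_image, Set.mem_ofPred_eq]
    constructor
    · rintro ⟨x, hx, rfl⟩ j
      have hx' : ∀ j, l j 0 * x 0 + ∑ i : Fin n, l j i.succ * x i.succ ≤ c j := by
        intro j
        have := hx j
        rwa [Fin.sum_univ_succ] at this
      rcases j with a | ⟨a, b⟩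
      · have := hx' a.1
        rw [a.2] at this
        simp only [L, C, Sum.elim_inl]
        linarith
      · have h1 := hx' a.1
        have h2 := hx' b.1
        simp only [L, C, Sum.elim_inr]
        have e : ∑ i : Fin n, (-(l b.1 0) * l a.1 i.succ + l a.1 0 * l b.1 i.succ) * x i.succ =
            (-(l b.1 0)) * ∑ i : Fin n, l a.1 i.succ * x i.succ +
              l a.1 0 * ∑ i : Fin n, l b.1 i.succ * x i.succ := by
          rw [Finset.mul_sum, Finset.mul_sum, ← Finset.sum_add_distrib]
          exact Finset.sum_congr rfl fun i _ => by ring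
        rw [e]
        have p1 : 0 ≤ -(l b.1 0) := by have := b.2; linarith
        have p2 : 0 ≤ l a.1 0 := a.2.le
        have m1 := mul_le_mul_of_nonneg_left h1 p1
        have m2 := mul_le_mul_of_nonneg_left h2 p2
        nlinarith [m1, m2]
    · intro h
      obtain ⟨t, ht1, ht2⟩ := FM1.exists_mid
        (fun b : {j : Fin m // l j 0 < 0} => (c b.1 - ∑ i : Fin n, l b.1 i.succ * y i) / l b.1 0)
        (fun a : {j : Fin m // 0 < l j 0} => (c a.1 - ∑ i : Fin n, l a.1 i.succ * y i) / l a.1 0)
        (by
          intro a b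
          have hab := h (Sum.inr (a, b))
          simp only [L, C, Sum.elim_inr] at hab
          have e : ∑ i : Fin n, (-(l b.1 0) * l a.1 i.succ + l a.1 0 * l b.1 i.succ) * y i =
              (-(l b.1 0)) * ∑ i : Fin n, l a.1 i.succ * y i +
                l a.1 0 * ∑ i : Fin n, l b.1 i.succ * y i := by
            rw [Finset.mul_sum, Finset.mul_sum, ← Finset.sum_add_distrib]
            exact Finset.sum_congr rfl fun i _ => by ring
          rw [e] at hab
          have hb : l b.1 0 < 0 := b.2
          have ha : 0 < l a.1 0 := a.2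
          show (c b.1 - ∑ i : Fin n, l b.1 i.succ * y i) / l b.1 0 ≤
            (c a.1 - ∑ i : Fin n, l a.1 i.succ * y i) / l a.1 0
          rw [div_le_iff_of_neg hb, div_mul_eq_mul_div, div_le_iff₀ ha]
          nlinarith [hab])
      refine ⟨Fin.cons t y, ?_, ?_⟩
      · intro j
        rw [Fin.sum_univ_succ]
        simp only [Fin.cons_zero, Fin.cons_succ]
        rcases lt_trichotomy (l j 0) 0 with hj | hj | hj
        · have := ht1 ⟨j, hj⟩
          simp only at this
          rw [div_le_iff_of_neg hj] at this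
          linarith
        · have := h (Sum.inl ⟨j, hj⟩)
          simp only [L, C, Sum.elim_inl] at this
          rw [hj]
          linarith
        · have := ht2 ⟨j, hj⟩
          simp only at this
          rw [le_div_iff₀ hj] at this
          linarith
      · funext i
        simp
  rw [key]
  exact FM1.isPolyh_of_fintype L C

end Pool.Agent.TD.BG
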