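import Pool.Agent.TD.BG.Basic

/-!
# FTB: finite tropical bases of ideals of Laurent polynomials
-/

open scoped ContDiff Topology NNReal

namespace Pool.Agent.TD.BG

namespace FTB

variable {K : Type} [NormedField K] {ι : Type} {m : ℕ}

/-- Dehomogenisation of exponents. -/
def psi (e : ι ≃ Fin m) (u : Fin (m + 1) → ℕ) (i : ι) : ℤ := (u (e i).succ : ℤ)

/-- Dehomogenisation. -/
noncomputable def deh (e : ι ≃ Fin m) (F : (Fin (m + 1) → ℕ) →₀ K) : Laur K ι :=
  .ofCoeff (F.mapDomain (psi e))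

/-- The weight of the homogeneous variables. -/
def whom (e : ι ≃ Fin m) (w : ι → ℝ) : Fin (m + 1) → ℝ := Fin.cons 0 fun j => w (e.symm j)

theorem psi_add (e : ι ≃ Fin m) (u a : Fin (m + 1) → ℕ) : psi e (u + a) = psi e u + psi e a := by
  funext i
  simp [psi]

theorem psi_inj (e : ι ≃ Fin m) {u u' : Fin (m + 1) → ℕ} (hd : deg u = deg u')
    (h : psi e u = psi e u') : u = u' := by
  have h1 : ∀ j : Fin m, u j.succ = u' j.succ := by
    intro j
    have := congrFun h (e.symm j)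
    simpa [psi] using this
  have h2 : u 0 = u' 0 := by
    unfold deg at hd
    rw [Fin.sum_univ_succ, Fin.sum_univ_succ] at hd
    have h3 : ∑ j : Fin m, u j.succ = ∑ j : Fin m, u' j.succ :=
      Finset.sum_congr rfl fun j _ => h1 j
    omega
  funext i
  refine Fin.cases h2 (fun j => h1 j) i

theorem wt_eq [Fintype ι] (e : ι ≃ Fin m) (w : ι → ℝ) (u : Fin (m + 1) → ℕ) :
    wtN (whom e w) u = wtZ w (psi e u) := by
  apply NNReal.eq
  show Real.exp _ = Real.exp _
  congr 1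
  rw [Fin.sum_univ_succ]
  simp only [whom, psi, Fin.cons_zero, Fin.cons_succ, mul_zero, zero_add]
  rw [← Equiv.sum_comp e]
  simp

theorem wtZ_add [Fintype ι] (w : ι → ℝ) (u v : ι → ℤ) :
    wtZ w (u + v) = wtZ w u * wtZ w v := by
  apply NNReal.eq
  show Real.exp _ = Real.exp _ * Real.exp _
  rw [← Real.exp_add, ← Finset.sum_add_distrib]
  congr 1
  exact Finset.sum_congr rfl fun i _ => by simp [add_mul]

theorem wtZ_pos [Fintype ι] (w : ι → ℝ) (u : ι → ℤ) : 0 < wtZ w u := Real.exp_pos _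

theorem co_deh (e : ι ≃ Fin m) (F : (Fin (m + 1) → ℕ) →₀ K) :
    co (deh e F) = F.mapDomain (psi e) := rfl

theorem deh_add (e : ι ≃ Fin m) (F G : (Fin (m + 1) → ℕ) →₀ K) :
    deh e (F + G) = deh e F + deh e G := by
  apply AddMonoidAlgebra.coeff_injective
  exact Finsupp.mapDomain_add

theorem deh_smul (e : ι ≃ Fin m) (c : K) (F : (Fin (m + 1) → ℕ) →₀ K) :
    deh e (c • F) = c • deh e F := by
  apply AddMonoidAlgebra.coeff_injective
  exact Finsupp.mapDomain_smul c F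

theorem deh_zero (e : ι ≃ Fin m) : deh e (0 : (Fin (m + 1) → ℕ) →₀ K) = 0 := by
  apply AddMonoidAlgebra.coeff_injective
  exact Finsupp.mapDomain_zero (f := psi e)

/-- multiplication by a monomial -/
theorem coeff_mono (b : ι → ℤ) (F : Laur K ι) :
    (AddMonoidAlgebra.single b (1 : K) * F).coeff = F.coeff.mapDomain (fun v => b + v) := by
  ext v
  rw [AddMonoidAlgebra.coeff_single_mul_apply, one_mul]
  have h1 : v = b + (-b + v) := by abel
  conv_rhs => rw [h1]
  exact (Finsupp.mapDomain_apply (add_right_injective b) F.coeff (-b + v)).symm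

theorem deh_sh (e : ι ≃ Fin m) (a : Fin (m + 1) → ℕ) (F : (Fin (m + 1) → ℕ) →₀ K) :
    deh e (sh a F) = AddMonoidAlgebra.single (psi e a) 1 * deh e F := by
  apply AddMonoidAlgebra.coeff_injective
  rw [coeff_mono]
  show (F.mapDomain fun u => u + a).mapDomain (psi e) =
    (F.mapDomain (psi e)).mapDomain fun v => psi e a + v
  rw [← Finsupp.mapDomain_comp, ← Finsupp.mapDomain_comp]
  congr 1
  funext u
  show psi e (u + a) = psi e a + psi e u
  rw [psi_add, add_comm]

/-- Coefficients of the dehomogenisation. -/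
theorem co_deh_apply (e : ι ≃ Fin m) {d : ℕ} {F : (Fin (m + 1) → ℕ) →₀ K} (hF : Hom d F)
    {u : Fin (m + 1) → ℕ} (hu : deg u = d) : co (deh e F) (psi e u) = F u := by
  rw [co_deh]
  refine Finsupp.mapDomain_apply' {u | deg u = d} F ?_ ?_ hu
  · intro v hv
    exact hF v (Finsupp.mem_support_iff.1 hv)
  · intro v hv v' hv' h
    exact psi_inj e (hv.trans hv'.symm) h

theorem co_deh_ne (e : ι ≃ Fin m) {F : (Fin (m + 1) → ℕ) →₀ K} {v : ι → ℤ}
    (h : co (deh e F) v ≠ 0) : ∃ u, psi e u = v ∧ F u ≠ 0 := by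
  classical
  rw [co_deh] at h
  have h1 := Finsupp.mapDomain_support (Finsupp.mem_support_iff.2 h)
  obtain ⟨u, hu, hu'⟩ := Finset.mem_image.1 h1
  exact ⟨u, hu', Finsupp.mem_support_iff.1 hu⟩

/-- Single forms: from homogeneous to Laurent polynomials. -/
theorem single_deh [Fintype ι] (e : ι ≃ Fin m) (w : ι → ℝ) {d : ℕ}
    {F : (Fin (m + 1) → ℕ) →₀ K} (hF : Hom d F) {a : Fin (m + 1) → ℕ}
    (h : Single (wtN (whom e w)) F a) : Single (wtZ w) (co (deh e F)) (psi e a) := by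
  have ha : co (deh e F) (psi e a) = F a := co_deh_apply e hF (hF a h.1)
  refine ⟨by rw [ha]; exact h.1, fun v hv => ?_⟩
  rw [ha]
  by_cases h0 : co (deh e F) v = 0
  · rw [h0, nnnorm_zero, zero_mul]
    exact mul_pos (by simpa using h.1) (wtZ_pos _ _)
  · obtain ⟨u, rfl, hu⟩ := co_deh_ne e h0
    rw [co_deh_apply e hF (hF u hu), ← wt_eq, ← wt_eq]
    exact h.2 u fun h1 => hv (by rw [h1])

/-- Single forms: from Laurent polynomials to homogeneous polynomials. -/
theorem single_hom [Fintype ι] (e : ι ≃ Fin m) (w : ι → ℝ) {d : ℕ}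
    {F : (Fin (m + 1) → ℕ) →₀ K} (hF : Hom d F) {a : Fin (m + 1) → ℕ} (had : deg a = d)
    (h : Single (wtZ w) (co (deh e F)) (psi e a)) : Single (wtN (whom e w)) F a := by
  have ha : co (deh e F) (psi e a) = F a := co_deh_apply e hF had
  have ha0 : F a ≠ 0 := by rw [← ha]; exact h.1
  refine ⟨ha0, fun u hu => ?_⟩
  by_cases h0 : F u = 0
  · rw [h0, nnnorm_zero, zero_mul]
    exact mul_pos (by simpa using ha0) (wtN_pos _ _)
  · have h1 := h.2 (psi e u) fun h2 => hu (psi_inj e ((hF u h0).trans had.symm) h2)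
    rw [ha, co_deh_apply e hF (hF u h0), ← wt_eq, ← wt_eq] at h1
    exact h1

/-- The homogeneous ideal (as a subspace). -/
noncomputable def JJ (e : ι ≃ Fin m) (I : Ideal (Laur K ι)) :
    Submodule K ((Fin (m + 1) → ℕ) →₀ K) where
  carrier := {F | ∀ d, deh e (F.filter fun u => deg u = d) ∈ I}
  add_mem' := by
    intro F G hF hG d
    rw [Finsupp.filter_add, deh_add]
    exact I.add_mem (hF d) (hG d)
  zero_mem' := by
    intro d
    rw [Finsupp.filter_zero, deh_zero]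
    exact I.zero_mem
  smul_mem' := by
    intro c F hF d
    rw [Finsupp.filter_smul, deh_smul, Algebra.smul_def]
    exact I.mul_mem_left _ (hF d)

theorem mem_JJ (e : ι ≃ Fin m) (I : Ideal (Laur K ι)) (F : (Fin (m + 1) → ℕ) →₀ K) :
    F ∈ JJ e I ↔ ∀ d, deh e (F.filter fun u => deg u = d) ∈ I := Iff.rfl

theorem filter_hom {d : ℕ} {F : (Fin (m + 1) → ℕ) →₀ K} (hF : Hom d F) :
    (F.filter fun u => deg u = d) = F := by
  rw [Finsupp.filter_eq_self_iff]
  exact hF

theorem filter_hom_ne {d d' : ℕ} (hd : d ≠ d') {F : (Fin (m + 1) → ℕ) →₀ K} (hF : Hom d F) :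
    (F.filter fun u => deg u = d') = 0 := by
  rw [Finsupp.filter_eq_zero_iff]
  intro u hu
  by_contra h
  exact hd ((hF u h).symm.trans hu)

theorem deh_mem (e : ι ≃ Fin m) {I : Ideal (Laur K ι)} {d : ℕ} {F : (Fin (m + 1) → ℕ) →₀ K}
    (hF : Hom d F) (h : F ∈ JJ e I) : deh e F ∈ I := by
  have := h d
  rwa [filter_hom hF] at this

theorem mem_JJ_of_hom (e : ι ≃ Fin m) {I : Ideal (Laur K ι)} {d : ℕ}
    {F : (Fin (m + 1) → ℕ) →₀ K} (hF : Hom d F) (h : deh e F ∈ I) : F ∈ JJ e I := by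
  rw [mem_JJ]
  intro d'
  by_cases hd : d = d'
  · subst hd
    rwa [filter_hom hF]
  · rw [filter_hom_ne hd hF, deh_zero]
    exact I.zero_mem

theorem sh_mem (e : ι ≃ Fin m) (I : Ideal (Laur K ι)) (F : (Fin (m + 1) → ℕ) →₀ K)
    (hF : F ∈ JJ e I) (a : Fin (m + 1) → ℕ) : sh a F ∈ JJ e I := by
  rw [mem_JJ]
  intro d
  have hdeg : ∀ u : Fin (m + 1) → ℕ, a ≤ u → deg (u - a) + deg a = deg u := by
    intro u hu
    rw [← deg_add, tsub_add_cancel_of_le hu]
  by_cases hd : deg a ≤ d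
  · have h1 : ((sh a F).filter fun u => deg u = d) = sh a (F.filter fun u => deg u = d - deg a) := by
      ext u
      by_cases hu : a ≤ u
      · obtain ⟨v, rfl⟩ : ∃ v, u = v + a := ⟨u - a, (tsub_add_cancel_of_le hu).symm⟩
        rw [sh_apply_add, Finsupp.filter_apply, Finsupp.filter_apply, sh_apply_add, deg_add]
        have h2 : deg v + deg a = d ↔ deg v = d - deg a := by omega
        simp only [h2]
      · rw [sh_apply_of_not_le _ hu, Finsupp.filter_apply, sh_apply_of_not_le _ hu]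
        simp
    rw [h1, deh_sh]
    exact I.mul_mem_left _ (hF _)
  · have h1 : ((sh a F).filter fun u => deg u = d) = 0 := by
      rw [Finsupp.filter_eq_zero_iff]
      intro u hu
      apply sh_apply_of_not_le
      intro h2
      have := hdeg u h2
      omega
    rw [h1, deh_zero]
    exact I.zero_mem

/-- The subspace of elements of degree `N`. -/
noncomputable def VV (e : ι ≃ Fin m) (I : Ideal (Laur K ι)) (N : ℕ) :
    Submodule K ((Fin (m + 1) → ℕ) →₀ K) where
  carrier := {F | F ∈ JJ e I ∧ Hom N F}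
  add_mem' := by
    rintro F G ⟨hF, hF'⟩ ⟨hG, hG'⟩
    refine ⟨(JJ e I).add_mem hF hG, fun u hu => ?_⟩
    by_contra hne
    have a1 : F u = 0 := by by_contra h; exact hne (hF' u h)
    have a2 : G u = 0 := by by_contra h; exact hne (hG' u h)
    exact hu (by simp [a1, a2])
  zero_mem' := ⟨(JJ e I).zero_mem, fun u hu => absurd rfl hu⟩
  smul_mem' := by
    rintro c F ⟨hF, hF'⟩
    refine ⟨(JJ e I).smul_mem c hF, fun u hu => hF' u fun h => hu (by simp [h])⟩

/-- Homogenisation of a Laurent polynomial. -/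
theorem exists_hom [Fintype ι] (e : ι ≃ Fin m) (F : Laur K ι) {u : ι → ℤ}
    (hu : co F u ≠ 0) : ∃ (b : ι → ℤ) (N : ℕ) (G : (Fin (m + 1) → ℕ) →₀ K)
    (a : Fin (m + 1) → ℕ), Hom N G ∧ deh e G = AddMonoidAlgebra.single b 1 * F ∧ deg a = N ∧
      psi e a = b + u := by
  classical
  obtain ⟨S, hS⟩ : ∃ S, S = (co F).support := ⟨_, rfl⟩
  obtain ⟨b, hb⟩ : ∃ b : ι → ℤ, ∀ v ∈ S, ∀ i, 0 ≤ v i + b i := by
    refine ⟨fun i => ∑ v ∈ S, |v i|, fun v hv i => ?_⟩
    have h1 : |v i| ≤ ∑ v ∈ S, |v i| :=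
      Finset.single_le_sum (f := fun v : ι → ℤ => |v i|) (fun _ _ => abs_nonneg _) hv
    have h2 := neg_abs_le (v i)
    show 0 ≤ v i + ∑ v ∈ S, |v i|
    omega
  obtain ⟨N, hN⟩ : ∃ N : ℕ, ∀ v ∈ S, ∑ i, (v i + b i).toNat ≤ N :=
    ⟨∑ v ∈ S, ∑ i, (v i + b i).toNat, fun v hv =>
      Finset.single_le_sum (f := fun v : ι → ℤ => ∑ i, (v i + b i).toNat)
        (fun _ _ => Nat.zero_le _) hv⟩
  obtain ⟨θ, hθ⟩ : ∃ θ : (ι → ℤ) → Fin (m + 1) → ℕ, ∀ v, θ v =
      Fin.cons (N - ∑ i, (v i + b i).toNat)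
        (fun j => (v (e.symm j) + b (e.symm j)).toNat) := ⟨_, fun _ => rfl⟩
  have hdeg : ∀ v ∈ S, deg (θ v) = N := by
    intro v hv
    unfold deg
    rw [Fin.sum_univ_succ, hθ]
    simp only [Fin.cons_zero, Fin.cons_succ]
    have h1 : ∑ j : Fin m, (v (e.symm j) + b (e.symm j)).toNat = ∑ i, (v i + b i).toNat :=
      Equiv.sum_comp e.symm fun i => (v i + b i).toNat
    rw [h1]
    have := hN v hv
    omega
  have hpsi : ∀ v ∈ S, psi e (θ v) = b + v := by
    intro v hv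
    funext i
    unfold psi
    rw [hθ]
    simp only [Fin.cons_succ, Equiv.symm_apply_apply, Pi.add_apply]
    rw [Int.toNat_of_nonneg (hb v hv i), add_comm]
  have huS : u ∈ S := by rw [hS]; exact Finsupp.mem_support_iff.2 hu
  refine ⟨b, N, (co F).mapDomain θ, θ u, ?_, ?_, hdeg u huS, hpsi u huS⟩
  · intro v hv
    have h1 := Finsupp.mapDomain_support (Finsupp.mem_support_iff.2 hv)
    obtain ⟨v', hv', rfl⟩ := Finset.mem_image.1 h1
    exact hdeg v' (by rw [hS]; exact hv')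
  · apply AddMonoidAlgebra.coeff_injective
    rw [coeff_mono]
    show ((co F).mapDomain θ).mapDomain (psi e) = (co F).mapDomain fun v => b + v
    rw [← Finsupp.mapDomain_comp]
    exact Finsupp.mapDomain_congr fun v hv => hpsi v (by rw [hS]; exact hv)

end FTB

theorem FTB_thm (h1 : UNI_Stmt) (h2 : CIR_Stmt) : FTB_Stmt := by
  intro K ι _ _ _ I
  classical
  obtain ⟨m, hm⟩ : ∃ m, m = Fintype.card ι := ⟨_, rfl⟩
  have e : ι ≃ Fin m := (Fintype.equivFin ι).trans (finCongr hm.symm)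
  obtain ⟨k, hk⟩ := h1 K (m + 1) (FTB.JJ e I) (FTB.sh_mem e I)
  obtain ⟨C', hC', hC⟩ := h2 K (Fin (m + 1) → ℕ) (finite_deg (m + 1) ((m + 1) * k)).toFinset
    (FTB.VV e I ((m + 1) * k)) (fun F hF u hu => by
      rw [Set.Finite.mem_toFinset]
      exact hF.2 u hu)
  refine ⟨C'.image (FTB.deh e), ?_, fun w hw => ?_⟩
  · intro F hF
    obtain ⟨F', hF', rfl⟩ := Finset.mem_image.1 hF
    have := hC' F' hF'
    exact FTB.deh_mem e this.2 this.1
  · have hw' : ∃ F ∈ I, ∃ u, Single (wtZ w) (co F) u := by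
      by_contra hcon
      push Not at hcon
      exact hw hcon
    obtain ⟨F, hF, u, hu⟩ := hw'
    obtain ⟨b, N, G, a, hG, hGF, ha, hab⟩ := FTB.exists_hom e F hu.1
    have hGJ : G ∈ FTB.JJ e I := by
      apply FTB.mem_JJ_of_hom e hG
      rw [hGF]
      exact I.mul_mem_left _ hF
    have hco : ∀ v, co (FTB.deh e G) (b + v) = co F v := by
      intro v
      rw [hGF]
      show (AddMonoidAlgebra.single b (1 : K) * F).coeff (b + v) = F.coeff v
      rw [AddMonoidAlgebra.coeff_single_mul_apply, one_mul, neg_add_cancel_left]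
    have hsG : Single (wtN (FTB.whom e w)) G a := by
      apply FTB.single_hom e w hG ha
      rw [hab]
      refine ⟨by rw [hco]; exact hu.1, fun v hv => ?_⟩
      obtain ⟨v', rfl⟩ : ∃ v', v = b + v' := ⟨-b + v, by abel⟩
      rw [hco, hco, FTB.wtZ_add, FTB.wtZ_add, mul_left_comm, mul_left_comm _ (wtZ w b)]
      exact (mul_lt_mul_iff_right₀ (FTB.wtZ_pos w b)).2
        (hu.2 v' fun h => hv (by rw [h]))
    obtain ⟨G', hG', hG'h, hG's⟩ := hk (FTB.whom e w) N G a hGJ hG hsG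
    obtain ⟨F', hF', hF's⟩ := hC (wtN (FTB.whom e w)) (wtN_pos _) (fun _ => k)
      ⟨G', ⟨hG', hG'h⟩, hG's⟩
    exact ⟨FTB.deh e F', Finset.mem_image_of_mem _ hF', _,
      FTB.single_deh e w (hC' F' hF').2 hF's⟩

end Pool.Agent.TD.BG
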