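import Pool.Agent.TD.BG.Basic

/-!
# Module IDJ: `IJ t J` is an ideal
-/

set_option autoImplicit false
set_option linter.unusedSectionVars false

open scoped ContDiff Topology NNReal

namespace Pool.Agent.TD.BG

namespace IDJ

variable {K A : Type} [NormedField K] [CommRing A] [Algebra K A] [DecidableEq A] {J : Finset A}

/-- The Laurent monomial with exponent `u`. -/
noncomputable def mz (K : Type) [NormedField K] (J : Finset A) (u : J → ℤ) : Laur K J :=
  AddMonoidAlgebra.single u 1

theorem mz_add (u u' : J → ℤ) : mz K J (u + u') = mz K J u * mz K J u' := by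
  unfold mz
  rw [AddMonoidAlgebra.single_mul_single, one_mul]

theorem mz_zero : mz K J 0 = 1 := rfl

/-- The monomial of the polynomial ring. -/
noncomputable def mp (K : Type) [NormedField K] (J : Finset A) (u : J → ℕ) : MvPolynomial J K :=
  ∏ j : J, MvPolynomial.X j ^ u j

theorem mz_nsmul (u : J → ℤ) (n : ℕ) : mz K J (n • u) = mz K J u ^ n := by
  induction n with
  | zero => rw [zero_smul, pow_zero, mz_zero]
  | succ n ih => rw [add_smul, one_smul, mz_add, ih, pow_succ]

theorem mz_sum (s : Finset J) (f : J → J → ℤ) :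
    mz K J (∑ j ∈ s, f j) = ∏ j ∈ s, mz K J (f j) := by
  induction s using Finset.induction_on with
  | empty => rw [Finset.sum_empty, Finset.prod_empty, mz_zero]
  | insert i s hi ih => rw [Finset.sum_insert hi, Finset.prod_insert hi, mz_add, ih]

theorem phi_mp (u : J → ℕ) :
    MvPolynomial.aeval (fun j : J => (var j : Laur K J)) (mp K J u) =
      mz K J (fun j => (u j : ℤ)) := by
  unfold mp
  rw [map_prod]
  have h1 : ∀ j : J, MvPolynomial.aeval (fun j : J => (var j : Laur K J))
      (MvPolynomial.X j ^ u j : MvPolynomial J K) = mz K J (u j • (Pi.single j 1 : J → ℤ)) := by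
    intro j
    rw [map_pow, MvPolynomial.aeval_X, mz_nsmul]
    rfl
  simp only [h1]
  rw [← mz_sum]
  congr 1
  funext i
  rw [Finset.sum_apply, Finset.sum_eq_single i]
  · simp
  · intro j _ hj
    simp [Ne.symm hj]
  · intro h
    exact absurd (Finset.mem_univ i) h

/-- Every Laurent polynomial becomes a polynomial after multiplication by a monomial. -/
theorem exists_poly (G : Laur K J) : ∃ (u : J → ℕ) (Q : MvPolynomial J K),
    G * mz K J (fun j => (u j : ℤ)) = MvPolynomial.aeval (fun j : J => var j) Q := by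
  induction G using AddMonoidAlgebra.induction_linear with
  | zero => exact ⟨0, 0, by rw [zero_mul, map_zero]⟩
  | add f g hf hg =>
    obtain ⟨u, Q, h⟩ := hf
    obtain ⟨u', Q', h'⟩ := hg
    refine ⟨u + u', Q * mp K J u' + Q' * mp K J u, ?_⟩
    have h1 : (fun j => ((u + u') j : ℤ)) = (fun j => (u j : ℤ)) + fun j => (u' j : ℤ) := by
      funext j
      simp
    rw [map_add, map_mul, map_mul, phi_mp, phi_mp, ← h, ← h', h1, mz_add]
    ring
  | single a c =>
    refine ⟨fun j => (-a j).toNat, MvPolynomial.C c * mp K J (fun j => (a j).toNat), ?_⟩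
    rw [map_mul, phi_mp, MvPolynomial.aeval_C]
    have h1 : a + (fun j => ((-a j).toNat : ℤ)) = fun j => ((a j).toNat : ℤ) := by
      funext j
      show a j + ((-a j).toNat : ℤ) = ((a j).toNat : ℤ)
      omega
    have h2 : (AddMonoidAlgebra.single a c : Laur K J) = algebraMap K (Laur K J) c * mz K J a := by
      unfold mz
      rw [← Algebra.smul_def]
      simp
    rw [h2, mul_assoc, ← mz_add, h1]

theorem zero_mem (t J : Finset A) : IJ (K := K) t J 0 :=
  ⟨0, 0, by rw [zero_mul, map_zero], by rw [map_zero]; exact Ideal.zero_mem _⟩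

theorem add_mem {t J : Finset A} {F F' : Laur K J} (h : IJ t J F) (h' : IJ t J F') :
    IJ t J (F + F') := by
  obtain ⟨u, P, h1, h2⟩ := h
  obtain ⟨u', P', h1', h2'⟩ := h'
  refine ⟨u + u', P * mp K J u' + P' * mp K J u, ?_, ?_⟩
  · have e1 : (fun j => ((u + u') j : ℤ)) = (fun j => (u j : ℤ)) + fun j => (u' j : ℤ) := by
      funext j
      simp
    rw [map_add, map_mul, map_mul, phi_mp, phi_mp, ← h1, ← h1', e1]
    show (F + F') * mz K J _ = F * mz K J _ * mz K J _ + F' * mz K J _ * mz K J _
    rw [mz_add]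
    ring
  · rw [map_add, map_mul, map_mul]
    exact Ideal.add_mem _ (Ideal.mul_mem_right _ _ h2) (Ideal.mul_mem_right _ _ h2')

theorem mul_mem {t J : Finset A} (G : Laur K J) {F : Laur K J} (h : IJ t J F) :
    IJ t J (G * F) := by
  obtain ⟨u, P, h1, h2⟩ := h
  obtain ⟨u', Q, h3⟩ := exists_poly G
  refine ⟨u + u', Q * P, ?_, ?_⟩
  · have e1 : (fun j => ((u + u') j : ℤ)) = (fun j => (u j : ℤ)) + fun j => (u' j : ℤ) := by
      funext j
      simp
    rw [map_mul, ← h1, ← h3, e1]
    show (G * F) * mz K J _ = G * mz K J _ * (F * mz K J _)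
    rw [mz_add]
    ring
  · rw [map_mul]
    exact Ideal.mul_mem_left _ _ h2

end IDJ

theorem IDJ_thm : IDJ_Stmt := by
  intro K A _ _ _ _ t J
  exact ⟨{ carrier := {F | IJ t J F}
           zero_mem' := IDJ.zero_mem t J
           add_mem' := fun h h' => IDJ.add_mem h h'
           smul_mem' := fun G F h => IDJ.mul_mem G h }, fun F => Iff.rfl⟩

end Pool.Agent.TD.BG
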