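import Pool.Agent.TD.BG.Basic

/-!
# INT: the map of Berkovich spectra of an injective integral homomorphism
-/

open scoped ContDiff Topology NNReal

namespace Pool.Agent.TD.BG

namespace INT

/-! ### Elementary facts on points -/

section Basic

variable {K A : Type} [NormedField K] [CommRing A] [Algebra K A]

theorem v_zero (z : Ber K A) : z.v 0 = 0 := by
  have h := z.ext 0
  simpa using h

theorem v_neg (z : Ber K A) (a : A) : z.v (-a) = z.v a := by
  have h1 : z.v (-1 : A) = 1 := by
    have h := z.ext (-1)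
    simpa using h
  rw [← neg_one_mul, z.mul, h1, one_mul]

theorem v_pow (z : Ber K A) (a : A) (n : ℕ) : z.v (a ^ n) = z.v a ^ n := by
  induction n with
  | zero => simp [z.one]
  | succ n ih => rw [pow_succ, z.mul, ih, pow_succ]

theorem v_sum_le {ι : Type} (z : Ber K A) (s : Finset ι) (f : ι → A) {M : ℝ} (hM : 0 ≤ M)
    (h : ∀ i ∈ s, z.v (f i) ≤ M) : z.v (∑ i ∈ s, f i) ≤ M := by
  classical
  induction s using Finset.induction_on with
  | empty => simpa [v_zero z] using hM
  | insert i s hi ih =>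
    rw [Finset.sum_insert hi]
    refine (z.add _ _).trans (max_le (h i (Finset.mem_insert_self i s)) (ih fun j hj => ?_))
    exact h j (Finset.mem_insert_of_mem hj)

/-- The valuation of `A` given by a point. -/
noncomputable def val (y : Ber K A) : Valuation A ℝ≥0 where
  toFun a := ⟨y.v a, y.nonneg a⟩
  map_zero' := Subtype.ext (v_zero y)
  map_one' := Subtype.ext y.one
  map_mul' a b := Subtype.ext (y.mul a b)
  map_add_le_max' a b := by
    rw [← NNReal.coe_le_coe, NNReal.coe_max]
    exact y.add a b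

/-- A valuation of a field with values in `ℝ≥0` as an absolute value. -/
noncomputable def absOf {L : Type} [Field L] (v : Valuation L ℝ≥0) : AbsoluteValue L ℝ where
  toFun x := (v x : ℝ)
  map_mul' x y := by rw [map_mul, NNReal.coe_mul]
  nonneg' x := NNReal.coe_nonneg _
  eq_zero' x := by rw [NNReal.coe_eq_zero, Valuation.zero_iff]
  add_le' x y := by
    have h1 : (v (x + y) : ℝ) ≤ max (v x : ℝ) (v y : ℝ) := by
      have h := v.map_add x y
      rw [← NNReal.coe_le_coe, NNReal.coe_max] at h
      exact h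
    exact h1.trans (max_le_add_of_nonneg (NNReal.coe_nonneg _) (NNReal.coe_nonneg _))

theorem absOf_add {L : Type} [Field L] (v : Valuation L ℝ≥0) (x y : L) :
    absOf v (x + y) ≤ max (absOf v x) (absOf v y) := by
  have h := v.map_add x y
  rw [← NNReal.coe_le_coe, NNReal.coe_max] at h
  exact h

/-- The residue field of a point, as a normed field. -/
theorem exists_res (y : Ber K A) : ∃ (k : Type) (_ : NormedField k) (_ : IsUltrametricDist k)
    (ι : A →+* k), ∀ a, ‖ι a‖ = y.v a := by
  let p : Ideal A := (val y).supp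
  have hp : p.IsPrime := inferInstance
  let vR : Valuation (A ⧸ p) ℝ≥0 := (val y).onQuot le_rfl
  have hvR : ∀ a : A, (vR (Ideal.Quotient.mk p a) : ℝ) = y.v a := fun a => rfl
  have hsupp : vR.supp = ⊥ := (val y).supp_quot_supp
  have hS : nonZeroDivisors (A ⧸ p) ≤ vR.supp.primeCompl := by
    intro s hs
    rw [Ideal.mem_primeCompl_iff, hsupp, Ideal.mem_bot]
    exact nonZeroDivisors.ne_zero hs
  let L : Type := FractionRing (A ⧸ p)
  let vL : Valuation L ℝ≥0 := vR.extendToLocalization hS L
  have hvL : ∀ x : A ⧸ p, vL (algebraMap (A ⧸ p) L x) = vR x := fun x =>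
    vR.extendToLocalization_apply_map_apply hS L x
  let w : AbsoluteValue L ℝ := absOf vL
  let ι : A →+* WithAbs w := (WithAbs.equiv w).symm.toRingHom.comp
    ((algebraMap (A ⧸ p) L).comp (Ideal.Quotient.mk p))
  refine ⟨WithAbs w, inferInstance, ?_, ι, ?_⟩
  · apply IsUltrametricDist.isUltrametricDist_of_forall_norm_add_le_max_norm
    intro x y
    exact absOf_add vL x.ofAbs y.ofAbs
  · intro a
    have hι : ι a = WithAbs.toAbs w (algebraMap (A ⧸ p) L (Ideal.Quotient.mk p a)) := rfl
    rw [hι, WithAbs.norm_toAbs_eq]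
    show ((vL (algebraMap (A ⧸ p) L (Ideal.Quotient.mk p a)) : ℝ≥0) : ℝ) = y.v a
    rw [hvL]
    exact hvR a

end Basic

/-- Homomorphisms to algebraically closed fields extend along injective integral
homomorphisms. -/
theorem exists_ext {A B Ω : Type} [CommRing A] [CommRing B] [Field Ω] [IsAlgClosed Ω]
    (f : A →+* B) (hf : Function.Injective f) (hi : f.IsIntegral) (j : A →+* Ω) :
    ∃ τ : B →+* Ω, ∀ a, τ (f a) = j a := by
  obtain ⟨q, hqp, hq⟩ : ∃ q : Ideal B, q.IsPrime ∧ q.comap f = RingHom.ker j := by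
    let : Algebra A B := f.toAlgebra
    have : Algebra.IsIntegral A B := ⟨hi⟩
    have : (RingHom.ker j).IsPrime := RingHom.ker_isPrime j
    obtain ⟨q, -, hq1, hq2⟩ := Ideal.exists_ideal_over_prime_of_isIntegral (S := B)
      (RingHom.ker j) (⊥ : Ideal B) (by
        intro a ha
        have h1 : f a = 0 := ha
        have h2 : a = 0 := hf (by rw [h1, map_zero])
        rw [h2]
        exact Ideal.zero_mem _)
    exact ⟨q, hq1, hq2⟩
  have hpp : (q.comap f).IsPrime := Ideal.comap_isPrime f q
  let g : A ⧸ q.comap f →+* B ⧸ q := Ideal.quotientMap q f le_rfl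
  have hg : Function.Injective g := Ideal.quotientMap_injective
  have hgi : g.IsIntegral := hi.quotient
  let h : A ⧸ q.comap f →+* Ω := Ideal.Quotient.lift _ j (fun a ha => by
    rw [hq] at ha
    exact ha)
  have hh : ∀ a, h (Ideal.Quotient.mk _ a) = j a := fun a => rfl
  have hhi : Function.Injective h := by
    rw [injective_iff_map_eq_zero]
    intro x hx
    obtain ⟨a, rfl⟩ := Ideal.Quotient.mk_surjective x
    rw [hh] at hx
    rw [Ideal.Quotient.eq_zero_iff_mem, hq]
    exact hx
  let a1 : Algebra (A ⧸ q.comap f) (B ⧸ q) := g.toAlgebra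
  let a2 : Algebra (A ⧸ q.comap f) Ω := h.toAlgebra
  have : Algebra.IsIntegral (A ⧸ q.comap f) (B ⧸ q) := ⟨hgi⟩
  have : FaithfulSMul (A ⧸ q.comap f) (B ⧸ q) :=
    (faithfulSMul_iff_algebraMap_injective _ _).2 hg
  have : FaithfulSMul (A ⧸ q.comap f) Ω := (faithfulSMul_iff_algebraMap_injective _ _).2 hhi
  let τ : B ⧸ q →ₐ[A ⧸ q.comap f] Ω := IsAlgClosed.lift
  refine ⟨τ.toRingHom.comp (Ideal.Quotient.mk q), fun a => ?_⟩
  have h1 : τ (algebraMap (A ⧸ q.comap f) (B ⧸ q) (Ideal.Quotient.mk _ a))
      = algebraMap (A ⧸ q.comap f) Ω (Ideal.Quotient.mk _ a) := τ.commutes _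
  exact h1

/-- Norms of fields extend to algebraic closures. -/
theorem exists_norm (h1 : M3_Stmt) (k : Type) [NormedField k] [IsUltrametricDist k] :
    ∃ v : AlgebraicClosure k → ℝ, (∀ a, 0 ≤ v a) ∧ v 1 = 1 ∧ (∀ a b, v (a * b) = v a * v b) ∧
      (∀ a b, v (a + b) ≤ max (v a) (v b)) ∧ ∀ c : k, v (algebraMap k _ c) = ‖c‖ := by
  obtain ⟨v, v0, v1, vm, va, vN⟩ := h1 (AlgebraicClosure k) (spectralNorm k (AlgebraicClosure k))
    spectralNorm_nonneg spectralNorm_zero spectralNorm_one
    (fun a => spectralNorm_neg (Algebra.IsAlgebraic.isAlgebraic a))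
    (fun a b => isNonarchimedean_spectralNorm a b)
    (fun a b => spectralNorm_mul (Algebra.IsAlgebraic.isAlgebraic a)
      (Algebra.IsAlgebraic.isAlgebraic b))
  refine ⟨v, v0, v1, vm, va, fun c => ?_⟩
  have hle : ∀ c : k, v (algebraMap k _ c) ≤ ‖c‖ := by
    intro c
    have h := vN (algebraMap k _ c)
    rwa [spectralNorm_extends] at h
  apply le_antisymm (hle c)
  by_cases hc : c = 0
  · rw [hc, norm_zero]
    exact v0 _
  · have h2 : v (algebraMap k _ c) * v (algebraMap k _ c⁻¹) = 1 := by
      rw [← vm, ← map_mul, mul_inv_cancel₀ hc, map_one, v1]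
    have h3 := hle c⁻¹
    rw [norm_inv] at h3
    have h4 : 0 < ‖c‖ := norm_pos_iff.2 hc
    have h5 : 1 ≤ v (algebraMap k _ c) * ‖c‖⁻¹ := by
      rw [← h2]
      exact mul_le_mul_of_nonneg_left h3 (v0 _)
    rw [← div_eq_mul_inv, le_div_iff₀ h4, one_mul] at h5
    exact h5

section Main

variable {K A B : Type} [NormedField K] [CommRing A] [CommRing B] [Algebra K A] [Algebra K B]

theorem surj (h1 : M3_Stmt) (f : A →ₐ[K] B) (hf : Function.Injective f)
    (hi : f.toRingHom.IsIntegral) : Function.Surjective (comap f : Ber K B → Ber K A) := by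
  intro z
  obtain ⟨k, _, _, ι, hι⟩ := exists_res z
  obtain ⟨v, v0, v1, vm, va, vc⟩ := exists_norm h1 k
  obtain ⟨τ, hτ⟩ := exists_ext f.toRingHom hf hi ((algebraMap k (AlgebraicClosure k)).comp ι)
  have hfa : ∀ a, v (τ (f a)) = z.v a := by
    intro a
    have h2 : τ (f a) = algebraMap k (AlgebraicClosure k) (ι a) := hτ a
    rw [h2, vc, hι]
  refine ⟨
    { v := fun b => v (τ b)
      nonneg := fun b => v0 _
      one := by rw [map_one, v1]
      mul := fun a b => by rw [map_mul, vm]
      add := fun a b => by rw [map_add]; exact va _ _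
      ext := fun c => by
        rw [← f.commutes c, hfa, z.ext] }, ?_⟩
  have hext : ∀ {x y : Ber K A}, (∀ a, x.v a = y.v a) → x = y := by
    intro x y h
    cases x; cases y
    simp only [Ber.mk.injEq]
    exact funext h
  exact hext hfa

/-- The bound of an integral element. -/
theorem bound (f : A →ₐ[K] B) (hi : f.toRingHom.IsIntegral) (b : B) :
    ∃ P : Polynomial A, ∀ (x : Ber K B) (C : ℝ), 1 ≤ C →
      (∀ i < P.natDegree, x.v (f (P.coeff i)) ≤ C) → x.v b ≤ C := by
  obtain ⟨P, hP, hPb⟩ := hi b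
  refine ⟨P, fun x C hC hx => ?_⟩
  by_contra hlt
  push Not at hlt
  have hC0 : 0 < C := lt_of_lt_of_le one_pos hC
  have hb0 : 0 < x.v b := hC0.trans hlt
  rw [Polynomial.eval₂_eq_sum_range, Finset.sum_range_succ, hP.coeff_natDegree] at hPb
  have h1 : b ^ P.natDegree = -∑ i ∈ Finset.range P.natDegree, f (P.coeff i) * b ^ i := by
    have h2 : (∑ i ∈ Finset.range P.natDegree, f (P.coeff i) * b ^ i) + b ^ P.natDegree = 0 := by
      have h3 : f.toRingHom 1 = 1 := map_one _
      rw [h3, one_mul] at hPb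
      exact hPb
    exact eq_neg_of_add_eq_zero_right h2
  rcases Nat.eq_zero_or_pos P.natDegree with h0 | h0
  · rw [h0] at h1
    simp only [pow_zero, Finset.range_zero, Finset.sum_empty, neg_zero] at h1
    have h2 := x.one
    rw [h1, v_zero x] at h2
    exact zero_ne_one h2
  · have h2 : x.v (b ^ P.natDegree) ≤ C * x.v b ^ (P.natDegree - 1) := by
      rw [h1, v_neg]
      refine v_sum_le x _ _ (by positivity) fun i hi => ?_
      have hi' := Finset.mem_range.1 hi
      rw [x.mul, v_pow]
      have h3 : x.v b ^ i ≤ x.v b ^ (P.natDegree - 1) :=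
        pow_le_pow_right₀ (hC.trans hlt.le) (by omega)
      exact mul_le_mul (hx i hi') h3 (by positivity) hC0.le
    rw [v_pow] at h2
    have h4 : x.v b ^ P.natDegree = x.v b * x.v b ^ (P.natDegree - 1) := by
      rw [← pow_succ']
      congr 1
      omega
    rw [h4] at h2
    have h5 : 0 < x.v b ^ (P.natDegree - 1) := by positivity
    exact absurd (le_of_mul_le_mul_right h2 h5) (not_le.2 hlt)

theorem cont (h2 : TOP_Stmt) (f : A →ₐ[K] B) : Continuous (comap f : Ber K B → Ber K A) := by
  obtain ⟨-, -, -, h3⟩ := h2 K A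
  obtain ⟨-, h4, -, -⟩ := h2 K B
  exact h3 _ _ fun a => h4 (f a)

theorem proper (h2 : TOP_Stmt) (f : A →ₐ[K] B) (hi : f.toRingHom.IsIntegral) :
    IsProperMap (comap f : Ber K B → Ber K A) := by
  rw [isProperMap_iff_ultrafilter]
  refine ⟨cont h2 f, fun U y hU => ?_⟩
  obtain ⟨-, hcA, -, -⟩ := h2 K A
  -- the limits of the values on `A`
  have hA : ∀ a : A, Filter.Tendsto (fun x : Ber K B => x.v (f a)) U (𝓝 (y.v a)) := fun a =>
    ((hcA a).tendsto y).comp hU
  -- all values are eventually bounded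
  have hB : ∀ b : B, ∃ l : ℝ, Filter.Tendsto (fun x : Ber K B => x.v b) U (𝓝 l) := by
    intro b
    obtain ⟨P, hP⟩ := bound f hi b
    obtain ⟨C, hC1, hC⟩ : ∃ C : ℝ, 1 ≤ C ∧ ∀ i ∈ Finset.range P.natDegree,
        y.v (P.coeff i) < C := by
      refine ⟨1 + ∑ i ∈ Finset.range P.natDegree, y.v (P.coeff i), ?_, fun i hi => ?_⟩
      · have : 0 ≤ ∑ i ∈ Finset.range P.natDegree, y.v (P.coeff i) :=
          Finset.sum_nonneg fun i _ => y.nonneg _
        linarith
      · have := Finset.single_le_sum (f := fun i => y.v (P.coeff i)) (fun i _ => y.nonneg _) hi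
        linarith
    have h3 : ∀ᶠ x in (U : Filter (Ber K B)), ∀ i ∈ Finset.range P.natDegree,
        x.v (f (P.coeff i)) ≤ C := by
      rw [Filter.eventually_all_finset]
      intro i hi
      exact ((hA (P.coeff i)).eventually (gt_mem_nhds (hC i hi))).mono fun x hx => hx.le
    have h4 : ∀ᶠ x in (U : Filter (Ber K B)), x.v b ∈ Set.Icc (0 : ℝ) C :=
      h3.mono fun x hx => ⟨x.nonneg b, hP x C hC1 fun i hi => hx i (Finset.mem_range.2 hi)⟩
    have h5 : Set.Icc (0 : ℝ) C ∈ (U.map (fun x : Ber K B => x.v b) : Filter ℝ) := h4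
    obtain ⟨l, -, hl⟩ := (isCompact_Icc : IsCompact (Set.Icc (0 : ℝ) C)).ultrafilter_le_nhds
      (U.map (fun x : Ber K B => x.v b)) (Filter.le_principal_iff.2 h5)
    exact ⟨l, hl⟩
  choose l hl using hB
  have hconst : ∀ (b : B) (c : ℝ), (∀ x : Ber K B, x.v b = c) → l b = c := by
    intro b c h
    have h3 : Filter.Tendsto (fun x : Ber K B => x.v b) U (𝓝 c) := by
      have e : (fun x : Ber K B => x.v b) = fun _ => c := funext h
      rw [e]
      exact tendsto_const_nhds
    exact tendsto_nhds_unique (hl b) h3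
  let w : Ber K B :=
    { v := l
      nonneg := fun b => ge_of_tendsto' (hl b) fun x => x.nonneg b
      one := hconst 1 1 fun x => x.one
      mul := fun a b => by
        have h3 := (hl a).mul (hl b)
        have e : (fun x : Ber K B => x.v a * x.v b) = fun x => x.v (a * b) :=
          funext fun x => (x.mul a b).symm
        rw [e] at h3
        exact tendsto_nhds_unique (hl (a * b)) h3
      add := fun a b => le_of_tendsto_of_tendsto' (hl (a + b)) ((hl a).max (hl b))
        fun x => x.add a b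
      ext := fun c => hconst _ _ fun x => x.ext c }
  refine ⟨w, ?_, ?_⟩
  · have hext : ∀ {x y : Ber K A}, (∀ a, x.v a = y.v a) → x = y := by
      intro x y h
      cases x; cases y
      simp only [Ber.mk.injEq]
      exact funext h
    exact hext fun a => tendsto_nhds_unique (hl (f a)) (hA a)
  · rw [nhds_induced]
    rw [← Filter.tendsto_iff_comap]
    rw [tendsto_pi_nhds]
    exact hl

end Main

end INT

theorem INT_thm (h1 : M3_Stmt) (h2 : TOP_Stmt) : INT_Stmt := by
  intro K A B _ _ _ _ _ _ f hf hi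
  have hp := INT.proper h2 f hi
  exact ⟨hp.continuous, INT.surj h1 f hf hi, hp.isClosedMap, fun Z hZ => hp.isCompact_preimage hZ⟩

end Pool.Agent.TD.BG
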