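import Pool.Agent.TD.BG.Basic

/-!
# M3: non-emptiness of the spectrum (Berkovich, Theorem 1.2.1)
-/

open scoped ContDiff Topology NNReal

namespace Pool.Agent.TD.BG.M3

variable {R : Type} [CommRing R]

/-- Power multiplicative ultrametric seminorms bounded by `N`. -/
structure Pm (N f : R → ℝ) : Prop where
  nonneg : ∀ a, 0 ≤ f a
  zero : f 0 = 0
  one : f 1 = 1
  neg : ∀ a, f (-a) = f a
  add : ∀ a b, f (a + b) ≤ max (f a) (f b)
  mul : ∀ a b, f (a * b) ≤ f a * f b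
  pow : ∀ a (n : ℕ), 1 ≤ n → f (a ^ n) = f a ^ n
  le : ∀ a, f a ≤ N a

/-- The associated ring seminorm. -/
def mk (f : R → ℝ) (nonneg : ∀ a, 0 ≤ f a) (zero : f 0 = 0) (neg : ∀ a, f (-a) = f a)
    (add : ∀ a b, f (a + b) ≤ max (f a) (f b)) (mul : ∀ a b, f (a * b) ≤ f a * f b) :
    RingSeminorm R where
  toFun := f
  map_zero' := zero
  add_le' a b := (add a b).trans (max_le (le_add_of_nonneg_right (nonneg b))
    (le_add_of_nonneg_left (nonneg a)))
  neg' := neg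
  mul_le' := mul

/-- The infimum of a chain. -/
theorem chain_inf {N : R → ℝ} (c : Set {f : R → ℝ // Pm N f})
    (hc : IsChain (fun f g : {f : R → ℝ // Pm N f} => ∀ a, g.1 a ≤ f.1 a) c)
    (hne : c.Nonempty) : ∃ ub : {f : R → ℝ // Pm N f}, ∀ f ∈ c, ∀ a, ub.1 a ≤ f.1 a := by
  have : Nonempty c := hne.to_subtype
  have hbd : ∀ a, BddBelow (Set.range fun f : c => f.1.1 a) := by
    intro a
    refine ⟨0, ?_⟩
    rintro _ ⟨f, rfl⟩
    exact f.1.2.nonneg a
  have hinf : ∀ (f : c) a, (⨅ f : c, f.1.1 a) ≤ f.1.1 a := fun f a => ciInf_le (hbd a) f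
  have hmin : ∀ f g : c, ∃ h : c, (∀ a, h.1.1 a ≤ f.1.1 a) ∧ ∀ a, h.1.1 a ≤ g.1.1 a := by
    intro f g
    by_cases hfg : f.1 = g.1
    · exact ⟨f, fun a => le_rfl, fun a => by rw [hfg]⟩
    · rcases hc f.2 g.2 hfg with h | h
      · exact ⟨g, h, fun a => le_rfl⟩
      · exact ⟨f, fun a => le_rfl, h⟩
  have hnn : ∀ a, 0 ≤ ⨅ f : c, f.1.1 a := fun a => le_ciInf fun f => f.1.2.nonneg a
  have hmul : ∀ a b, (⨅ f : c, f.1.1 (a * b)) ≤ (⨅ f : c, f.1.1 a) * ⨅ f : c, f.1.1 b := by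
    intro a b
    have h1 : ∀ f g : c, (⨅ f : c, f.1.1 (a * b)) ≤ f.1.1 a * g.1.1 b := by
      intro f g
      obtain ⟨h, hf, hg⟩ := hmin f g
      exact ((hinf h _).trans (h.1.2.mul a b)).trans
        (mul_le_mul (hf a) (hg b) (h.1.2.nonneg b) (f.1.2.nonneg a))
    rw [Real.iInf_mul_of_nonneg (hnn b)]
    refine le_ciInf fun f => ?_
    rw [Real.mul_iInf_of_nonneg (f.1.2.nonneg a)]
    exact le_ciInf fun g => h1 f g
  refine ⟨⟨fun a => ⨅ f : c, f.1.1 a, ?_⟩, fun f hf a => hinf ⟨f, hf⟩ a⟩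
  refine ⟨hnn, ?_, ?_, ?_, ?_, hmul, ?_, ?_⟩
  · have h : ∀ f : c, f.1.1 0 = 0 := fun f => f.1.2.zero
    simp only [h, ciInf_const]
  · have h : ∀ f : c, f.1.1 1 = 1 := fun f => f.1.2.one
    simp only [h, ciInf_const]
  · intro a
    have h : ∀ f : c, f.1.1 (-a) = f.1.1 a := fun f => f.1.2.neg a
    simp only [h]
  · intro a b
    by_contra hcon
    push Not at hcon
    obtain ⟨h1, h2⟩ := max_lt_iff.1 hcon
    obtain ⟨f, hf⟩ := exists_lt_of_ciInf_lt h1
    obtain ⟨g, hg⟩ := exists_lt_of_ciInf_lt h2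
    obtain ⟨h, hhf, hhg⟩ := hmin f g
    have h3 := (hinf h (a + b)).trans (h.1.2.add a b)
    exact absurd h3 (not_le.2 (max_lt ((hhf a).trans_lt hf) ((hhg b).trans_lt hg)))
  · intro a n hn
    apply le_antisymm
    · have key : ∀ m : ℕ, (⨅ f : c, f.1.1 (a ^ (m + 1))) ≤ (⨅ f : c, f.1.1 a) ^ (m + 1) := by
        intro m
        induction m with
        | zero => simp
        | succ m ih =>
          rw [pow_succ a (m + 1), pow_succ _ (m + 1)]
          exact (hmul _ _).trans (mul_le_mul_of_nonneg_right ih (hnn a))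
      obtain ⟨m, rfl⟩ : ∃ m, n = m + 1 := ⟨n - 1, by omega⟩
      exact key m
    · refine le_ciInf fun f => ?_
      rw [f.1.2.pow a n hn]
      exact pow_le_pow_left₀ (hnn a) (hinf f a) n
  · intro a
    obtain ⟨f, hf⟩ := hne
    exact (hinf ⟨f, hf⟩ a).trans (f.2.le a)

/-- The smoothing. -/
theorem exists_pm {N : R → ℝ} (h0 : ∀ a, 0 ≤ N a) (hz : N 0 = 0) (h1 : N 1 = 1)
    (hneg : ∀ a, N (-a) = N a) (hadd : ∀ a b, N (a + b) ≤ max (N a) (N b))
    (hmul : ∀ a b, N (a * b) ≤ N a * N b) : ∃ f, Pm N f := by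
  set μ : RingSeminorm R := mk N h0 hz hneg hadd hmul with hμ
  have hμN : ∀ a, μ a = N a := fun a => rfl
  have hμ1 : μ 1 ≤ 1 := by rw [hμN, h1]
  have hna : IsNonarchimedean μ := fun a b => by
    rw [hμN, hμN, hμN]; exact hadd a b
  let σ := smoothingSeminorm μ hμ1 hna
  have hσ : ∀ a, σ a = smoothingFun μ a := fun a => rfl
  refine ⟨fun a => σ a, fun a => apply_nonneg σ a, map_zero σ, ?_, fun a => map_neg_eq_map σ a,
    ?_, fun a b => map_mul_le_mul σ a b, ?_, ?_⟩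
  · show σ 1 = 1
    rw [hσ]
    have h2 : smoothingFun μ 1 = μ 1 := by
      apply smoothingFun_of_powMul μ hμ1
      intro n hn
      rw [one_pow, hμN, h1, one_pow]
    rw [h2, hμN, h1]
  · intro a b
    exact isNonarchimedean_smoothingFun μ hμ1 hna a b
  · intro a n hn
    exact isPowMul_smoothingFun μ hμ1 a hn
  · intro a
    exact smoothingFun_le_self μ a

theorem minimal_mul {N f : R → ℝ} (hf : Pm N f)
    (hmin : ∀ g, Pm N g → (∀ a, g a ≤ f a) → ∀ a, f a ≤ g a) (c x : R) :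
    f (c * x) = f c * f x := by
  by_cases hc0 : f c = 0
  · apply le_antisymm (hf.mul c x)
    rw [hc0, zero_mul]
    exact hf.nonneg _
  set μ : RingSeminorm R := mk f hf.nonneg hf.zero hf.neg hf.add hf.mul with hμ
  have hμf : ∀ a, μ a = f a := fun a => rfl
  have hμ1 : μ 1 ≤ 1 := by rw [hμf, hf.one]
  have hc : μ c ≠ 0 := by rw [hμf]; exact hc0
  have hpm : IsPowMul μ := fun a n hn => hf.pow a n hn
  have hna : IsNonarchimedean μ := fun a b => by
    rw [hμf, hμf, hμf]; exact hf.add a b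
  let g := seminormFromConst hμ1 hc hpm
  have hg : ∀ a, g a = seminormFromConst' c μ a := fun a => rfl
  have hgf : ∀ a, g a ≤ f a := fun a => seminormFromConst_le_seminorm hμ1 hc hpm a
  have hgP : Pm N (fun a => g a) := by
    refine ⟨fun a => apply_nonneg g a, map_zero g, ?_, fun a => map_neg_eq_map g a,
      ?_, fun a b => map_mul_le_mul g a b, ?_, ?_⟩
    · exact seminormFromConst_one hμ1 hc hpm
    · intro a b
      exact seminormFromConst_isNonarchimedean hμ1 hc hpm hna a b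
    · intro a n hn
      exact seminormFromConst_isPowMul hμ1 hc hpm a hn
    · intro a
      exact (hgf a).trans (hf.le a)
  have heq : ∀ a, g a = f a := fun a => le_antisymm (hgf a) (hmin _ hgP hgf a)
  rw [← heq (c * x), ← heq c, ← heq x]
  exact seminormFromConst_const_mul hμ1 hc hpm x

end Pool.Agent.TD.BG.M3

namespace Pool.Agent.TD.BG

theorem M3_thm : M3_Stmt := by
  intro R _ N h0 hz h1 hneg hadd hmul
  obtain ⟨f0, hf0⟩ := M3.exists_pm h0 hz h1 hneg hadd hmul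
  have : Nonempty {f : R → ℝ // M3.Pm N f} := ⟨⟨f0, hf0⟩⟩
  obtain ⟨m, hm⟩ := exists_maximal_of_nonempty_chains_bounded
    (r := fun f g : {f : R → ℝ // M3.Pm N f} => ∀ a, g.1 a ≤ f.1 a)
    (fun c hc hne => M3.chain_inf c hc hne) (fun h1 h2 a => (h2 a).trans (h1 a))
  refine ⟨m.1, m.2.nonneg, m.2.one, fun a b => ?_, m.2.add, m.2.le⟩
  exact M3.minimal_mul m.2 (fun g hg hgm a => hm ⟨g, hg⟩ hgm a) a b

end Pool.Agent.TD.BG
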