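import Pool.Agent.TD.BG.Basic

/-!
# NHD: compact boxes form a basis of neighbourhoods
-/

open scoped ContDiff Topology NNReal

namespace Pool.Agent.TD.BG

namespace NHD

/-- A neighbourhood contains a basic neighbourhood. -/
theorem basic {K A : Type} [NormedField K] [CommRing A] [Algebra K A] (z : Ber K A)
    (V : Set (Ber K A)) (hV : V ∈ 𝓝 z) :
    ∃ (s : Finset A) (r : ℝ), 0 < r ∧ ∀ z' : Ber K A, (∀ a ∈ s, |z'.v a - z.v a| < r) → z' ∈ V := by
  rw [nhds_induced, Filter.mem_comap] at hV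
  obtain ⟨U, hU, hUV⟩ := hV
  rw [nhds_pi, Filter.mem_pi'] at hU
  obtain ⟨I, t, ht, hI⟩ := hU
  have h1 : ∀ a : A, ∃ r : ℝ, 0 < r ∧ Metric.ball (z.v a) r ⊆ t a :=
    fun a => Metric.mem_nhds_iff.1 (ht a)
  choose r hr hrt using h1
  have h2 : ∃ R : ℝ, 0 < R ∧ ∀ a ∈ I, R ≤ r a := by
    rcases I.eq_empty_or_nonempty with h | h
    · exact ⟨1, one_pos, by simp [h]⟩
    · obtain ⟨b, hb, hb'⟩ := Finset.exists_min_image I r h
      exact ⟨r b, hr b, hb'⟩
  obtain ⟨R, hR, hR'⟩ := h2
  refine ⟨I, R, hR, fun z' hz' => hUV (hI ?_)⟩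
  intro a ha
  refine hrt a ?_
  rw [Metric.mem_ball, Real.dist_eq]
  exact (hz' a ha).trans_le (hR' a ha)

/-- the condition of the box in exponential form -/
theorem log_iff {x y e : ℝ} (hx : 0 ≤ x) (hy : 0 < y) :
    (x ≠ 0 ∧ |Real.log x - Real.log y| ≤ e) ↔ y * Real.exp (-e) ≤ x ∧ x ≤ y * Real.exp e := by
  constructor
  · rintro ⟨h1, h2⟩
    have hx' : 0 < x := lt_of_le_of_ne hx (Ne.symm h1)
    rw [abs_le] at h2
    constructor
    · rw [← Real.log_le_log_iff (by positivity) hx', Real.log_mul hy.ne' (Real.exp_ne_zero _),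
        Real.log_exp]
      linarith
    · rw [← Real.log_le_log_iff hx' (by positivity), Real.log_mul hy.ne' (Real.exp_ne_zero _),
        Real.log_exp]
      linarith
  · rintro ⟨h1, h2⟩
    have hx' : 0 < x := lt_of_lt_of_le (by positivity) h1
    refine ⟨hx'.ne', ?_⟩
    rw [← Real.log_le_log_iff (by positivity) hx', Real.log_mul hy.ne' (Real.exp_ne_zero _),
      Real.log_exp] at h1
    rw [← Real.log_le_log_iff hx' (by positivity), Real.log_mul hy.ne' (Real.exp_ne_zero _),
      Real.log_exp] at h2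
    rw [abs_le]
    constructor <;> linarith

/-- closeness in the box -/
theorem close {x y e E : ℝ} (hx : 0 ≤ x) (hy : 0 < y) (he : 0 ≤ e) (heE : e ≤ E)
    (h : x ≠ 0 ∧ |Real.log x - Real.log y| ≤ e) : |x - y| ≤ y * (Real.exp E - 1) := by
  obtain ⟨h1, h2⟩ := (log_iff hx hy).1 h
  have h3 : Real.exp e ≤ Real.exp E := Real.exp_le_exp.2 heE
  have h4 : 2 ≤ Real.exp e + Real.exp (-e) := by
    have := Real.add_one_le_exp e
    have := Real.add_one_le_exp (-e)
    linarith
  rw [abs_le]
  constructor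
  · nlinarith
  · nlinarith

/-- the box as an intersection of closed conditions -/
theorem box_eq {K A : Type} [NormedField K] [CommRing A] [Algebra K A] (z : Ber K A)
    (t : Finset A) (ε δ : ℝ) :
    box z t ε δ = ⋂ a ∈ t, {z' : Ber K A | (z.v a ≠ 0 → z.v a * Real.exp (-ε) ≤ z'.v a ∧
      z'.v a ≤ z.v a * Real.exp ε) ∧ (z.v a = 0 → z'.v a ≤ δ)} := by
  ext z'
  simp only [box, Set.mem_setOf_eq, Set.mem_iInter]
  refine forall₂_congr fun a _ => and_congr ?_ Iff.rfl
  refine imp_congr_right fun h => ?_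
  exact log_iff (z'.nonneg a) (lt_of_le_of_ne (z.nonneg a) (Ne.symm h))

end NHD

theorem NHD_thm (h1 : TOP_Stmt) (h2 : BND_Stmt) : NHD_Stmt := by
  intro K A _ _ _ _ _ _ z u V hV
  obtain ⟨-, hcont, hcomp, -⟩ := h1 K A
  obtain ⟨s, r, hr, hs⟩ := NHD.basic z V hV
  obtain ⟨g, hg⟩ := (Algebra.FiniteType.out : (⊤ : Subalgebra K A).FG)
  set t : Finset A := u ∪ (s ∪ g) with ht
  have hst : s ⊆ t := Finset.subset_union_left.trans Finset.subset_union_right
  have hgt : g ⊆ t := Finset.subset_union_right.trans Finset.subset_union_right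
  have hadj : Algebra.adjoin K (t : Set A) = ⊤ := by
    rw [eq_top_iff, ← hg]
    exact Algebra.adjoin_mono (by exact_mod_cast hgt)
  set C : ℝ := ∑ a ∈ s, z.v a + 1 with hC
  have hsum : 0 ≤ ∑ a ∈ s, z.v a := Finset.sum_nonneg fun a _ => z.nonneg a
  have hC0 : 0 < C := by linarith
  set η : ℝ := min (r / 2) (Real.log (1 + r / (2 * C))) with hη
  have hq : 0 < r / (2 * C) := by positivity
  have hη0 : 0 < η := lt_min (by linarith) (Real.log_pos (by linarith))
  refine ⟨t, Finset.subset_union_left, hadj, η, hη0, ?_⟩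
  intro ε δ hε hεη hδ hδη
  have hexp : Real.exp η ≤ 1 + r / (2 * C) := by
    have h := Real.exp_le_exp.2 (min_le_right (r / 2) (Real.log (1 + r / (2 * C))))
    rwa [Real.exp_log (by linarith)] at h
  refine ⟨?_, ?_, ?_⟩
  · intro z' hz'
    refine hs z' fun a ha => ?_
    obtain ⟨k1, k2⟩ := hz' a (hst ha)
    by_cases h0 : z.v a = 0
    · have h3 := k2 h0
      rw [h0, sub_zero, abs_of_nonneg (z'.nonneg a)]
      have := min_le_left (r / 2) (Real.log (1 + r / (2 * C)))
      linarith
    · have hpos : 0 < z.v a := lt_of_le_of_ne (z.nonneg a) (Ne.symm h0)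
      have h3 := NHD.close (z'.nonneg a) hpos hε.le hεη (k1 h0)
      have h4 : z.v a ≤ C := by
        have := Finset.single_le_sum (f := fun a => z.v a) (fun b _ => z.nonneg b) ha
        linarith
      have h5 : z.v a * (Real.exp η - 1) ≤ C * (r / (2 * C)) := by
        refine mul_le_mul h4 (by linarith) ?_ hC0.le
        have := Real.add_one_le_exp η
        linarith
      have h6 : C * (r / (2 * C)) = r / 2 := by
        field_simp
      linarith
  · have hev : ∀ᶠ z' in 𝓝 z, ∀ a ∈ t, (z.v a ≠ 0 → z'.v a ≠ 0 ∧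
        |Real.log (z'.v a) - Real.log (z.v a)| ≤ ε) ∧ (z.v a = 0 → z'.v a ≤ δ) := by
      rw [Filter.eventually_all_finset]
      intro a _
      have hc : Filter.Tendsto (fun z' : Ber K A => z'.v a) (𝓝 z) (𝓝 (z.v a)) :=
        (hcont a).continuousAt
      by_cases h0 : z.v a = 0
      · rw [h0] at hc
        have := hc.eventually (gt_mem_nhds hδ)
        filter_upwards [this] with z' hz'
        exact ⟨fun h => absurd h0 h, fun _ => hz'.le⟩
      · have e1 := hc.eventually (isOpen_ne.mem_nhds h0)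
        have hl : Filter.Tendsto (fun z' : Ber K A => Real.log (z'.v a)) (𝓝 z)
            (𝓝 (Real.log (z.v a))) := hc.log h0
        have e2 := hl.eventually (Metric.closedBall_mem_nhds _ hε)
        filter_upwards [e1, e2] with z' h3 h4
        refine ⟨fun _ => ⟨h3, ?_⟩, fun h => absurd h h0⟩
        rw [← Real.dist_eq]
        exact h4
    exact hev
  · refine hcomp _ ?_ ?_
    · rw [NHD.box_eq]
      refine isClosed_biInter fun a _ => ?_
      by_cases h0 : z.v a = 0
      · have : {z' : Ber K A | (z.v a ≠ 0 → z.v a * Real.exp (-ε) ≤ z'.v a ∧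
            z'.v a ≤ z.v a * Real.exp ε) ∧ (z.v a = 0 → z'.v a ≤ δ)} = {z' | z'.v a ≤ δ} := by
          ext z'
          simp [h0]
        rw [this]
        exact isClosed_le (hcont a) continuous_const
      · have : {z' : Ber K A | (z.v a ≠ 0 → z.v a * Real.exp (-ε) ≤ z'.v a ∧
            z'.v a ≤ z.v a * Real.exp ε) ∧ (z.v a = 0 → z'.v a ≤ δ)} =
            {z' | z.v a * Real.exp (-ε) ≤ z'.v a} ∩ {z' | z'.v a ≤ z.v a * Real.exp ε} := by
          ext z'
          simp [h0]
        rw [this]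
        exact (isClosed_le continuous_const (hcont a)).inter
          (isClosed_le (hcont a) continuous_const)
    · refine h2 K A (t : Set A) hadj _ ?_
      intro a ha
      refine ⟨max (z.v a * Real.exp ε) δ, fun z' hz' => ?_⟩
      rw [NHD.box_eq] at hz'
      simp only [Set.mem_iInter, Set.mem_setOf_eq] at hz'
      have h3 := hz' a (by exact_mod_cast ha)
      by_cases h0 : z.v a = 0
      · exact (h3.2 h0).trans (le_max_right _ _)
      · exact (h3.1 h0).2.trans (le_max_left _ _)

end Pool.Agent.TD.BG
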