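import Pool.Agent.TD.BG.Basic

/-!
# Orthogonality of elements with different leading monomials
-/

open scoped ContDiff Topology NNReal

namespace Pool.Agent.TD.BG

namespace ORT

theorem sum_lt {K ι : Type} [NormedField K] [IsUltrametricDist K] (w N : ℝ≥0) (hN : 0 < N)
    (s : Finset ι) (x : ι → K) (h : ∀ i ∈ s, ‖x i‖₊ * w < N) : ‖∑ i ∈ s, x i‖₊ * w < N := by
  classical
  induction s using Finset.induction_on with
  | empty => simpa using hN
  | insert i s hi ih =>
    rw [Finset.sum_insert hi]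
    have h1 : ‖x i + ∑ j ∈ s, x j‖₊ ≤ max ‖x i‖₊ ‖∑ j ∈ s, x j‖₊ :=
      IsUltrametricDist.nnnorm_add_le_max _ _
    calc ‖x i + ∑ j ∈ s, x j‖₊ * w ≤ max ‖x i‖₊ ‖∑ j ∈ s, x j‖₊ * w := mul_le_mul_left h1 _
      _ = max (‖x i‖₊ * w) (‖∑ j ∈ s, x j‖₊ * w) := max_mul _ _ _
      _ < N := max_lt (h i (Finset.mem_insert_self i s))
          (ih fun j hj => h j (Finset.mem_insert_of_mem hj))

end ORT

open ORT in
theorem ORT_thm : ORT_Stmt := by
  intro K E _ _ wt hwt r _ ι _ G u hu hG c
  classical
  apply le_antisymm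
  · refine (nrm_sum_le _ _).trans (le_of_eq ?_)
    refine Finset.sup_congr rfl fun j _ => ?_
    rw [nrm_smul]
  · set N : ℝ≥0 := Finset.univ.sup fun j => ‖c j‖₊ * nrm wt (G j) with hNdef
    by_cases hN0 : N = 0
    · rw [hN0]; exact bot_le
    have hN : 0 < N := pos_iff_ne_zero.2 hN0
    have hne : (Finset.univ : Finset ι).Nonempty := by
      by_contra hemp
      rw [Finset.not_nonempty_iff_eq_empty] at hemp
      apply hN0
      rw [hNdef, hemp, Finset.sup_empty]; rfl
    have hle : ∀ j, ‖c j‖₊ * nrm wt (G j) ≤ N := fun j =>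
      Finset.le_sup (f := fun j => ‖c j‖₊ * nrm wt (G j)) (Finset.mem_univ j)
    obtain ⟨j0, -, hj0⟩ := Finset.exists_mem_eq_sup Finset.univ hne
      fun j => ‖c j‖₊ * nrm wt (G j)
    let T : Finset ι := Finset.univ.filter fun j => ‖c j‖₊ * nrm wt (G j) = N
    have hT0 : j0 ∈ T := by
      simp only [T, Finset.mem_filter, Finset.mem_univ, true_and]
      exact hj0.symm
    obtain ⟨j, hj, hmax⟩ : ∃ j ∈ T, ∀ i ∈ T, ¬ r (u j) (u i) := by
      let S : Finset E := T.image u
      have hwf : (S : Set E).WellFoundedOn (Function.swap r) :=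
        Set.Finite.wellFoundedOn (r := Function.swap r) (S.finite_toSet)
      have hS0 : u j0 ∈ S := Finset.mem_image_of_mem u hT0
      obtain ⟨v, hv⟩ := WellFounded.has_min hwf Set.univ ⟨⟨u j0, hS0⟩, trivial⟩
      obtain ⟨j, hj, hjv⟩ := Finset.mem_image.1 (v.2 : v.1 ∈ S)
      refine ⟨j, hj, fun i hi hr => ?_⟩
      have h3 := hv.2 ⟨u i, Finset.mem_image_of_mem u hi⟩ trivial
      apply h3
      show r v.1 (u i)
      rw [← hjv]; exact hr
    have hjN : ‖c j‖₊ * nrm wt (G j) = N := by
      simpa only [T, Finset.mem_filter, Finset.mem_univ, true_and] using hj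
    have hterm : ∀ i ∈ Finset.univ.erase j, ‖c i * G i (u j)‖₊ * wt (u j) < N := by
      intro i hi
      have hij : i ≠ j := Finset.ne_of_mem_erase hi
      rw [nnnorm_mul, mul_assoc]
      by_cases hiT : ‖c i‖₊ * nrm wt (G i) = N
      · have hiT' : i ∈ T := by
          simp only [T, Finset.mem_filter, Finset.mem_univ, true_and]; exact hiT
        have hne' : u j ≠ u i := fun h => hij (hu h).symm
        have hr : r (u i) (u j) := by
          rcases trichotomous_of r (u i) (u j) with h | h | h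
          · exact h
          · exact absurd h.symm hne'
          · exact absurd h (hmax i hiT')
        have h1 := ((hG i).2 (u j) hne').2 hr
        rw [← (hG i).nrm_eq] at h1
        have hc : 0 < ‖c i‖₊ := by
          rw [pos_iff_ne_zero]
          intro h0
          rw [h0, zero_mul] at hiT
          exact hN0 hiT.symm
        rw [← hiT]
        exact mul_lt_mul_of_pos_left h1 hc
      · calc ‖c i‖₊ * (‖G i (u j)‖₊ * wt (u j)) ≤ ‖c i‖₊ * nrm wt (G i) :=
              mul_le_mul_right (le_nrm (G i) (u j)) _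
          _ < N := lt_of_le_of_ne (hle i) hiT
    have hrest := sum_lt (wt (u j)) N hN (Finset.univ.erase j) (fun i => c i * G i (u j)) hterm
    have hmain : ‖c j * G j (u j)‖₊ * wt (u j) = N := by
      rw [nnnorm_mul, mul_assoc, ← (hG j).nrm_eq, hjN]
    have hval : (∑ i, c i • G i) (u j) = c j * G j (u j) +
        ∑ i ∈ Finset.univ.erase j, c i * G i (u j) := by
      rw [Finsupp.finsetSum_apply, ← Finset.add_sum_erase _ _ (Finset.mem_univ j)]
      simp only [Finsupp.smul_apply, smul_eq_mul]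
    refine le_trans ?_ (le_nrm (∑ i, c i • G i) (u j))
    by_contra hcon
    push Not at hcon
    have h1 : ‖c j * G j (u j)‖₊ ≤ max ‖(∑ i, c i • G i) (u j)‖₊
        ‖∑ i ∈ Finset.univ.erase j, c i * G i (u j)‖₊ := by
      have e : c j * G j (u j) = (∑ i, c i • G i) (u j) +
          -(∑ i ∈ Finset.univ.erase j, c i * G i (u j)) := by
        rw [hval]; ring
      rw [e, ← nnnorm_neg (∑ i ∈ Finset.univ.erase j, c i * G i (u j))]
      exact IsUltrametricDist.nnnorm_add_le_max _ _
    have h2 : N ≤ max (‖(∑ i, c i • G i) (u j)‖₊ * wt (u j))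
        (‖∑ i ∈ Finset.univ.erase j, c i * G i (u j)‖₊ * wt (u j)) := by
      rw [← max_mul, ← hmain]; exact mul_le_mul_left h1 _
    exact absurd h2 (not_le.2 (max_lt hcon hrest))

end Pool.Agent.TD.BG
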