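import Pool.Agent.TD.BG.Defs
import Pool.Agent.TD.A2

/-!
# Blocks BG and M: statements of the modules (proofs: PAPER.md, sections 2 and 3)
-/

open scoped ContDiff Topology NNReal

namespace Pool.Agent.TD.BG

/-! ### Initial forms (section 3, B2) -/

/-- MAC: there are only finitely many upper sets with a given counting function. -/
def MAC_Stmt : Prop := ∀ (n : ℕ) (H : ℕ → ℕ),
  {E : Set (Fin n → ℕ) | (∀ u ∈ E, ∀ a, u + a ∈ E) ∧
    ∀ d, Set.ncard {u | u ∈ E ∧ deg u = d} = H d}.Finite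

/-- ORT: orthogonality of elements with different leading monomials. -/
def ORT_Stmt : Prop := ∀ (K E : Type) [NormedField K] [IsUltrametricDist K] (wt : E → ℝ≥0),
  (∀ u, 0 < wt u) → ∀ (r : E → E → Prop) [IsStrictTotalOrder E r] (ι : Type) [Fintype ι]
  (G : ι → E →₀ K) (u : ι → E), Function.Injective u → (∀ j, IsLM wt r (G j) (u j)) →
  ∀ c : ι → K, nrm wt (∑ j, c j • G j) = Finset.univ.sup fun j => ‖c j‖₊ * nrm wt (G j)

/-- CNT: the number of leading monomials of a graded subspace does not depend on the order. -/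
def CNT_Stmt : Prop := ∀ (K E : Type) [NormedField K] [IsUltrametricDist K] (wt : E → ℝ≥0),
  (∀ u, 0 < wt u) → ∀ (M : Finset E) (W : Set (E →₀ K)), GSub wt (M : Set E) W →
  ∀ (r r' : E → E → Prop) [IsStrictTotalOrder E r] [IsStrictTotalOrder E r'],
    Set.ncard {u | ∃ F ∈ W, IsLM wt r F u} = Set.ncard {u | ∃ F ∈ W, IsLM wt r' F u}

/-- DIM: for the initial forms of a subspace this number is the dimension. -/
def DIM_Stmt : Prop := ∀ (K E : Type) [NormedField K] [IsUltrametricDist K] (wt : E → ℝ≥0),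
  (∀ u, 0 < wt u) → ∀ (M : Finset E) (V : Submodule K (E →₀ K)),
  (∀ F ∈ V, ∀ u, F u ≠ 0 → u ∈ M) → ∀ (r : E → E → Prop) [IsStrictTotalOrder E r],
    Set.ncard {u | ∃ F : E →₀ K, F ≠ 0 ∧ (∃ G ∈ V, nrm wt (F - G) < nrm wt F) ∧ IsLM wt r F u} =
      Module.finrank K V

/-- STP: one step of the argument: passing to `{F : x_i^k F ∈ W}`. -/
def STP_Stmt : Prop := ∀ (K : Type) [NormedField K] [IsUltrametricDist K] (n : ℕ)
  (Λ : Type) (w : Λ → Fin n → ℝ) (W : Λ → ℕ → Set ((Fin n → ℕ) →₀ K)),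
  (∀ l, GSys (w l) (W l)) → ∀ i0 : Fin n,
  (Set.range fun l => fun d => Set.ncard (LMs (w l) (W l) i0 d)).Finite → ∀ i : Fin n,
  ∃ k : ℕ, (∀ l d F, Hom d F → sh (xp i (k + 1)) F ∈ W l (d + (k + 1)) →
      sh (xp i k) F ∈ W l (d + k)) ∧
    (∀ l, GSys (w l) fun d => {F | Hom d F ∧ sh (xp i k) F ∈ W l (d + k)}) ∧
    (Set.range fun l => fun d =>
      Set.ncard (LMs (w l) (fun d => {F | Hom d F ∧ sh (xp i k) F ∈ W l (d + k)}) i0 d)).Finite

/-- UNI: uniform exponent. -/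
def UNI_Stmt : Prop := ∀ (K : Type) [NormedField K] [IsUltrametricDist K] (n : ℕ)
  (J : Submodule K ((Fin n → ℕ) →₀ K)), (∀ F ∈ J, ∀ a, sh a F ∈ J) →
  ∃ k : ℕ, ∀ (w : Fin n → ℝ) (d : ℕ) (G : (Fin n → ℕ) →₀ K) (a : Fin n → ℕ), G ∈ J → Hom d G →
    Single (wtN w) G a →
    ∃ G' ∈ J, Hom (n * k) G' ∧ Single (wtN w) G' (fun _ => k)

/-- CIR: finitely many circuits suffice. -/
def CIR_Stmt : Prop := ∀ (K E : Type) [NormedField K] [IsUltrametricDist K]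
  (M : Finset E) (V : Submodule K (E →₀ K)), (∀ F ∈ V, ∀ u, F u ≠ 0 → u ∈ M) →
  ∃ C : Finset (E →₀ K), (∀ F ∈ C, F ∈ V) ∧ ∀ (wt : E → ℝ≥0), (∀ u, 0 < wt u) →
    ∀ u, (∃ F ∈ V, Single wt F u) → ∃ F ∈ C, Single wt F u

/-- FTB: finite tropical bases of ideals of Laurent polynomials. -/
def FTB_Stmt : Prop := ∀ (K ι : Type) [NormedField K] [IsUltrametricDist K] [Fintype ι]
  (I : Ideal (Laur K ι)), ∃ C : Finset (Laur K ι), (∀ F ∈ C, F ∈ I) ∧
    ∀ w : ι → ℝ, w ∉ Trop I → ∃ F ∈ C, ∃ u, Single (wtZ w) (co F) u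

/-- TPL: tropicalizations are finite unions of polyhedra. -/
def TPL_Stmt : Prop := ∀ (K ι : Type) [NormedField K] [IsUltrametricDist K] [Fintype ι]
  (I : Ideal (Laur K ι)), IsPolyU (Trop I)

/-! ### Polyhedra -/

/-- FM1: elimination of one variable. -/
def FM1_Stmt : Prop := ∀ (n : ℕ) (S : Set (Fin (n + 1) → ℝ)), IsPolyh S →
  IsPolyh ((fun x : Fin (n + 1) → ℝ => fun i : Fin n => x i.succ) '' S)

/-- FM: linear images of polyhedra are polyhedra. -/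
def FM_Stmt : Prop := ∀ (ι κ : Type) [Fintype ι] [Fintype κ] (L : (ι → ℝ) →ₗ[ℝ] (κ → ℝ))
  (S : Set (ι → ℝ)), IsPolyh S → IsPolyh (L '' S)

/-- PLB: intersections, closedness, convexity. -/
def PLB_Stmt : Prop := ∀ (ι : Type) [Fintype ι],
  (∀ S S' : Set (ι → ℝ), IsPolyh S → IsPolyh S' → IsPolyh (S ∩ S')) ∧
  (∀ S : Set (ι → ℝ), IsPolyh S → Convex ℝ S ∧ IsClosed S) ∧
  (∀ S S' : Set (ι → ℝ), IsPolyU S → IsPolyU S' → IsPolyU (S ∩ S') ∧ IsPolyU (S ∪ S')) ∧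
  (∀ (l : ι → ℝ) (c : ℝ), IsPolyh {x : ι → ℝ | ∑ i, l i * x i ≤ c}) ∧
  (∀ (l : ι → ℝ) (c : ℝ), IsPolyh {x : ι → ℝ | c ≤ ∑ i, l i * x i}) ∧
  (∀ (l : ι → ℝ) (c : ℝ), IsPolyh {x : ι → ℝ | ∑ i, l i * x i = c}) ∧
  IsPolyh (Set.univ : Set (ι → ℝ)) ∧ IsPolyU (∅ : Set (ι → ℝ))

/-- ADH: a polyhedron which comes arbitrarily close to `(w, -∞)` is star-shaped about `w` after
projection. `p` marks the coordinates with a finite limit. -/
def ADH_Stmt : Prop := ∀ (ι : Type) [Fintype ι] (p : ι → Prop) (S : Set (ι → ℝ)), IsPolyh S →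
  ∀ w : ι → ℝ, (∀ η : ℝ, 0 < η → ∃ x ∈ S, (∀ i, p i → |x i - w i| ≤ η) ∧
    ∀ i, ¬ p i → x i ≤ -(1 / η)) →
  ∀ (ε c : ℝ), 0 ≤ ε → ∀ x ∈ S, (∀ i, p i → |x i - w i| ≤ ε) → (∀ i, ¬ p i → x i ≤ c) →
  ∀ r : ℝ, 0 ≤ r → r ≤ 1 → ∃ x' ∈ S, (∀ i, p i → x' i = w i + r * (x i - w i)) ∧
    ∀ i, ¬ p i → x' i ≤ c

/-! ### Points of spectra -/

/-- M3: non-emptiness of the spectrum. -/
def M3_Stmt : Prop := ∀ (R : Type) [CommRing R] (N : R → ℝ), (∀ a, 0 ≤ N a) → N 0 = 0 → N 1 = 1 →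
  (∀ a, N (-a) = N a) → (∀ a b, N (a + b) ≤ max (N a) (N b)) → (∀ a b, N (a * b) ≤ N a * N b) →
  ∃ v : R → ℝ, (∀ a, 0 ≤ v a) ∧ v 1 = 1 ∧ (∀ a b, v (a * b) = v a * v b) ∧
    (∀ a b, v (a + b) ≤ max (v a) (v b)) ∧ ∀ a, v a ≤ N a

/-- B1: points of the tropicalization come from multiplicative seminorms. -/
def B1_Stmt : Prop := ∀ (K ι : Type) [NormedField K] [IsUltrametricDist K] [Fintype ι]
  [DecidableEq ι] (I : Ideal (Laur K ι)) (w : ι → ℝ), w ∈ Trop I →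
  ∃ z : Ber K (Laur K ι), (∀ i, z.v (var i) = Real.exp (w i)) ∧ ∀ F ∈ I, z.v F = 0

/-- IDJ: `IJ t J` is an ideal. -/
def IDJ_Stmt : Prop := ∀ (K A : Type) [NormedField K] [CommRing A] [Algebra K A] [DecidableEq A]
  (t J : Finset A), ∃ I : Ideal (Laur K J), ∀ F, F ∈ I ↔ IJ t J F

/-- STR: the tropicalization of a stratum. -/
def STR_Stmt : Prop := ∀ (K A : Type) [NormedField K] [IsUltrametricDist K] [CommRing A]
  [Algebra K A] [DecidableEq A] (t J : Finset A), J ⊆ t → Algebra.adjoin K (t : Set A) = ⊤ →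
  ∀ I : Ideal (Laur K J), (∀ F, F ∈ I ↔ IJ t J F) →
  (berLS K A).trop J '' (stra t J) = Trop I

/-! ### Topology (section 2) -/

/-- TOP: elementary topology of `M(A)`. -/
def TOP_Stmt : Prop := ∀ (K A : Type) [NormedField K] [CommRing A] [Algebra K A],
  T2Space (Ber K A) ∧ (∀ a : A, Continuous fun z : Ber K A => z.v a) ∧
  (∀ Z : Set (Ber K A), IsClosed Z → (∀ a : A, ∃ C : ℝ, ∀ z ∈ Z, z.v a ≤ C) → IsCompact Z) ∧
  ∀ (Y : Type) [TopologicalSpace Y] (f : Y → Ber K A), (∀ a, Continuous fun y => (f y).v a) →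
    Continuous f

/-- BND: over a set on which generators are bounded everything is bounded. -/
def BND_Stmt : Prop := ∀ (K A : Type) [NormedField K] [IsUltrametricDist K] [CommRing A]
  [Algebra K A] (t : Set A), Algebra.adjoin K t = ⊤ → ∀ Z : Set (Ber K A),
  (∀ a ∈ t, ∃ C : ℝ, ∀ z ∈ Z, z.v a ≤ C) → ∀ a : A, ∃ C : ℝ, ∀ z ∈ Z, z.v a ≤ C

/-- EXH: `M(A)` is locally compact and exhausted by compact sets. -/
def EXH_Stmt : Prop := ∀ (K A : Type) [NormedField K] [IsUltrametricDist K] [CommRing A]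
  [Algebra K A] [Algebra.FiniteType K A],
  LocallyCompactSpace (Ber K A) ∧ ∃ B : ℕ → Set (Ber K A), (∀ n, IsCompact (B n)) ∧
    (∀ n, B n ⊆ interior (B (n + 1))) ∧ ⋃ n, B n = Set.univ

/-- NHD: compact boxes form a basis of neighbourhoods. -/
def NHD_Stmt : Prop := ∀ (K A : Type) [NormedField K] [IsUltrametricDist K] [CommRing A]
  [Algebra K A] [DecidableEq A] [Algebra.FiniteType K A] (z : Ber K A) (u : Finset A)
  (V : Set (Ber K A)), V ∈ 𝓝 z → ∃ t : Finset A, u ⊆ t ∧ Algebra.adjoin K (t : Set A) = ⊤ ∧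
    ∃ η : ℝ, 0 < η ∧ ∀ ε δ : ℝ, 0 < ε → ε ≤ η → 0 < δ → δ ≤ η →
      box z t ε δ ⊆ V ∧ box z t ε δ ∈ 𝓝 z ∧ IsCompact (box z t ε δ)

/-- INT: integral extensions. -/
def INT_Stmt : Prop := ∀ (K A B : Type) [NormedField K] [IsUltrametricDist K] [CommRing A]
  [CommRing B] [Algebra K A] [Algebra K B] (f : A →ₐ[K] B), Function.Injective f →
  f.toRingHom.IsIntegral →
  Continuous (comap f) ∧ Function.Surjective (comap f) ∧ IsClosedMap (comap f) ∧
    ∀ Z : Set (Ber K A), IsCompact Z → IsCompact (comap f ⁻¹' Z)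

/-- CUT: cut-off functions. -/
def CUT_Stmt : Prop := ∀ (K A : Type) [NormedField K] [IsUltrametricDist K] [CommRing A]
  [Algebra K A] [Algebra.FiniteType K A], (berLS K A).CutOff

/-- SSP: the local structure. -/
def SSP_Stmt : Prop := ∀ (K A : Type) [NormedField K] [IsUltrametricDist K] [CommRing A]
  [Algebra K A] [Algebra.FiniteType K A] (z : Ber K A) (u : Finset A), (∀ a ∈ u, z.v a ≠ 0) →
  ∀ V ∈ 𝓝 z, ∃ V' ∈ 𝓝 z, V' ⊆ V ∧ IsCompact V' ∧ (∀ a ∈ u, ∀ z' ∈ V', z'.v a ≠ 0) ∧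
    IsPolyU ((berLS K A).trop u '' V') ∧
    StarConvex ℝ ((berLS K A).trop u z) ((berLS K A).trop u '' V')

/-- STA: the properties used by the other blocks. -/
def STA_Stmt : Prop := ∀ (K A : Type) [NormedField K] [IsUltrametricDist K] [CommRing A]
  [Algebra K A] [Algebra.FiniteType K A] (z : Ber K A),
  (berLS K A).StarAt z ∧ (berLS K A).FinConv z

end Pool.Agent.TD.BG
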