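import Pool.Agent.TD.BG.Basic
import Pool.Agent.TD.BG.Stmts

/-!
# PLB: elementary properties of polyhedra
-/

namespace Pool.Agent.TD.BG

namespace PLB

variable {ι : Type} [Fintype ι]

/-- finitely many inequalities indexed by any finite type -/
lemma of_fintype {κ : Type} [Fintype κ] (l : κ → ι → ℝ) (c : κ → ℝ) :
    IsPolyh {x : ι → ℝ | ∀ j, ∑ i, l j i * x i ≤ c j} := by
  refine ⟨Fintype.card κ, fun j => l ((Fintype.equivFin κ).symm j),
    fun j => c ((Fintype.equivFin κ).symm j), ?_⟩
  ext x
  simp only [Set.mem_ofPred_eq]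
  constructor
  · intro h j
    exact h _
  · intro h j
    have := h (Fintype.equivFin κ j)
    simpa using this

lemma inter {S S' : Set (ι → ℝ)} (h : IsPolyh S) (h' : IsPolyh S') : IsPolyh (S ∩ S') := by
  obtain ⟨n, l, c, rfl⟩ := h
  obtain ⟨m, l', c', rfl⟩ := h'
  have e := of_fintype (Sum.elim l l') (Sum.elim c c')
  convert e using 1
  ext x
  simp [Sum.forall]

lemma half (l : ι → ℝ) (c : ℝ) : IsPolyh {x : ι → ℝ | ∑ i, l i * x i ≤ c} := by
  have e := of_fintype (fun _ : Unit => l) (fun _ => c)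
  convert e using 1
  ext x
  simp

lemma half' (l : ι → ℝ) (c : ℝ) : IsPolyh {x : ι → ℝ | c ≤ ∑ i, l i * x i} := by
  have e := half (fun i => - l i) (-c)
  convert e using 1
  ext x
  simp [Finset.sum_neg_distrib]

lemma hyper (l : ι → ℝ) (c : ℝ) : IsPolyh {x : ι → ℝ | ∑ i, l i * x i = c} := by
  have e := inter (half l c) (half' l c)
  convert e using 1
  ext x
  simp only [Set.mem_ofPred_eq, Set.mem_inter_iff]
  exact le_antisymm_iff

lemma convex_closed {S : Set (ι → ℝ)} (h : IsPolyh S) : Convex ℝ S ∧ IsClosed S := by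
  obtain ⟨n, l, c, rfl⟩ := h
  constructor
  · intro x hx y hy a b ha hb hab j
    have e : ∑ i, l j i * (a • x + b • y) i = a * ∑ i, l j i * x i + b * ∑ i, l j i * y i := by
      rw [Finset.mul_sum, Finset.mul_sum, ← Finset.sum_add_distrib]
      refine Finset.sum_congr rfl fun i _ => ?_
      simp only [Pi.add_apply, Pi.smul_apply, smul_eq_mul]
      ring
    rw [e]
    have h1 := mul_le_mul_of_nonneg_left (hx j) ha
    have h2 := mul_le_mul_of_nonneg_left (hy j) hb
    have h3 : a * c j + b * c j = c j := by rw [← add_mul, hab, one_mul]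
    linarith
  · have e : {x : ι → ℝ | ∀ j, ∑ i, l j i * x i ≤ c j}
        = ⋂ j, {x : ι → ℝ | ∑ i, l j i * x i ≤ c j} := by
      ext x
      simp
    rw [e]
    refine isClosed_iInter fun j => isClosed_le ?_ continuous_const
    fun_prop

/-- finitely many polyhedra indexed by any finite type -/
lemma union_fintype {κ : Type} [Fintype κ] (σ : κ → Set (ι → ℝ)) (h : ∀ j, IsPolyh (σ j)) :
    IsPolyU (⋃ j, σ j) := by
  refine ⟨Fintype.card κ, fun j => σ ((Fintype.equivFin κ).symm j), fun _ => h _, ?_⟩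
  exact ((Fintype.equivFin κ).symm.surjective.iUnion_comp σ).symm

end PLB

open PLB in
/-- PLB -/
theorem PLB_thm : PLB_Stmt := by
  intro ι _
  refine ⟨fun S S' h h' => inter h h', fun S h => convex_closed h, ?_, half, half', hyper, ?_, ?_⟩
  · intro S S' h h'
    obtain ⟨n, σ, hσ, rfl⟩ := h
    obtain ⟨m, σ', hσ', rfl⟩ := h'
    constructor
    · have e := union_fintype (fun p : Fin n × Fin m => σ p.1 ∩ σ' p.2)
        (fun p => inter (hσ p.1) (hσ' p.2))
      convert e using 1
      ext x
      simp only [Set.mem_inter_iff, Set.mem_iUnion, Prod.exists]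
      constructor
      · rintro ⟨⟨i, hi⟩, j, hj⟩
        exact ⟨i, j, hi, hj⟩
      · rintro ⟨i, j, hi, hj⟩
        exact ⟨⟨i, hi⟩, j, hj⟩
    · have e := union_fintype (Sum.elim σ σ') (by rintro (i | i); exacts [hσ i, hσ' i])
      convert e using 1
      ext x
      simp
  · have e := of_fintype (fun j : Empty => (j.elim : ι → ℝ)) (fun j => j.elim)
    convert e using 1
    ext x
    simp
  · exact ⟨0, fun j => j.elim0, fun j => j.elim0, by ext x; simp⟩

end Pool.Agent.TD.BG
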