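import Pool.Agent.TD.BG.Basic

/-!
# Block BG: the local structure (module TD_BG_SSP)
-/

open scoped ContDiff Topology NNReal

namespace Pool.Agent.TD.BG

namespace SSP

/-! ### Polyhedra -/

theorem polyU_iUnion {ι κ : Type} [Fintype ι] [Finite κ] {S : κ → Set (ι → ℝ)}
    (h : ∀ k, IsPolyh (S k)) : IsPolyU (⋃ k, S k) := by
  obtain ⟨n, ⟨e⟩⟩ := Finite.exists_equiv_fin κ
  refine ⟨n, fun i => S (e.symm i), fun i => h _, ?_⟩
  ext x
  simp only [Set.mem_iUnion]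
  constructor
  · rintro ⟨k, hk⟩
    exact ⟨e k, by rwa [e.symm_apply_apply]⟩
  · rintro ⟨i, hi⟩
    exact ⟨_, hi⟩

theorem polyh_biInter (h6 : PLB_Stmt) {ι κ : Type} [Fintype ι] (s : Finset κ)
    (S : κ → Set (ι → ℝ)) (h : ∀ k, IsPolyh (S k)) : IsPolyh {x | ∀ k ∈ s, x ∈ S k} := by
  classical
  obtain ⟨a1, -, -, -, -, -, a7, -⟩ := h6 ι
  induction s using Finset.induction_on with
  | empty =>
    have e : {x : ι → ℝ | ∀ k ∈ (∅ : Finset κ), x ∈ S k} = Set.univ := by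
      ext x
      simp
    rw [e]
    exact a7
  | insert k s hk ih =>
    have e : {x : ι → ℝ | ∀ k' ∈ insert k s, x ∈ S k'} = S k ∩ {x | ∀ k ∈ s, x ∈ S k} := by
      ext x
      simp
    rw [e]
    exact a1 _ _ (h k) ih

/-- The box in the coordinates `J`: `|x_a - w_a| ≤ ε` for the coordinates with `p`, `x_a ≤ c` for
the other ones. -/
def Bx {A : Type} (p : A → Prop) (J : Finset A) (w : A → ℝ) (ε c : ℝ) : Set (J → ℝ) :=
  {x | ∀ a : J, (p a → |x a - w a| ≤ ε) ∧ (¬ p a → x a ≤ c)}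

theorem polyh_bx (h6 : PLB_Stmt) {A : Type} (p : A → Prop) (J : Finset A) (w : A → ℝ)
    (ε c : ℝ) : IsPolyh (Bx p J w ε c) := by
  classical
  obtain ⟨a1, -, -, a4, a5, -, a7, -⟩ := h6 J
  have hsum : ∀ (a : J) (x : J → ℝ), ∑ i, (Pi.single a 1 : J → ℝ) i * x i = x a := by
    intro a x
    rw [Finset.sum_eq_single a]
    · simp
    · intro b _ hb
      simp [Pi.single_apply, hb]
    · intro h
      exact absurd (Finset.mem_univ a) h
  have hle : ∀ (a : J) (r : ℝ), IsPolyh {x : J → ℝ | x a ≤ r} := by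
    intro a r
    have := a4 (Pi.single a 1) r
    simpa only [hsum] using this
  have hge : ∀ (a : J) (r : ℝ), IsPolyh {x : J → ℝ | r ≤ x a} := by
    intro a r
    have := a5 (Pi.single a 1) r
    simpa only [hsum] using this
  have key : ∀ a : J, IsPolyh {x : J → ℝ | (p a → |x a - w a| ≤ ε) ∧ (¬ p a → x a ≤ c)} := by
    intro a
    by_cases hp : p a
    · have e : {x : J → ℝ | (p a → |x a - w a| ≤ ε) ∧ (¬ p a → x a ≤ c)} =
          {x : J → ℝ | x a ≤ w a + ε} ∩ {x : J → ℝ | w a - ε ≤ x a} := by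
        ext x
        simp only [Set.mem_setOf_eq, Set.mem_inter_iff, hp, not_true_eq_false, false_imp_iff,
          and_true, true_imp_iff, abs_le]
        constructor
        · rintro ⟨h1, h2⟩
          exact ⟨by linarith, by linarith⟩
        · rintro ⟨h1, h2⟩
          exact ⟨by linarith, by linarith⟩
      rw [e]
      exact a1 _ _ (hle a _) (hge a _)
    · have e : {x : J → ℝ | (p a → |x a - w a| ≤ ε) ∧ (¬ p a → x a ≤ c)} =
          {x : J → ℝ | x a ≤ c} := by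
        ext x
        simp [hp]
      rw [e]
      exact hle a _
  have e : Bx p J w ε c = {x | ∀ a ∈ (Finset.univ : Finset J),
      x ∈ {x : J → ℝ | (p a → |x a - w a| ≤ ε) ∧ (¬ p a → x a ≤ c)}} := by
    ext x
    simp [Bx]
  rw [e]
  exact polyh_biInter h6 _ _ key

/-! ### Strata -/

variable {K A : Type} [NormedField K] [CommRing A] [Algebra K A]

/-- The image of a box in a stratum. -/
theorem box_stra (z : Ber K A) (t J : Finset A) (hJt : J ⊆ t) (hJ : ∀ a ∈ t, z.v a ≠ 0 → a ∈ J)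
    {ε δ : ℝ} (hδ : 0 < δ) {z' : Ber K A} (hz' : z' ∈ stra t J) :
    z' ∈ box z t ε δ ↔
      (berLS K A).trop J z' ∈ Bx (fun a => z.v a ≠ 0) J (fun a => Real.log (z.v a)) ε
        (Real.log δ) := by
  constructor
  · intro h a
    have ha : (a : A) ∈ t := hJt a.2
    have hne : z'.v a ≠ 0 := (hz' a ha).2 a.2
    have hpos : 0 < z'.v a := lt_of_le_of_ne (z'.nonneg _) hne.symm
    refine ⟨fun hp => ((h a ha).1 hp).2, fun hp => ?_⟩
    exact Real.log_le_log hpos ((h a ha).2 (not_not.1 hp))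
  · intro h a ha
    refine ⟨fun hp => ?_, fun hp => ?_⟩
    · have haJ := hJ a ha hp
      exact ⟨(hz' a ha).2 haJ, (h ⟨a, haJ⟩).1 hp⟩
    · by_cases haJ : a ∈ J
      · have hne : z'.v a ≠ 0 := (hz' a ha).2 haJ
        have hpos : 0 < z'.v a := lt_of_le_of_ne (z'.nonneg _) hne.symm
        have h1 := (h ⟨a, haJ⟩).2 (not_not.2 hp)
        exact (Real.log_le_log_iff hpos hδ).1 h1
      · have h0 : z'.v a = 0 := by
          by_contra hne
          exact haJ ((hz' a ha).1 hne)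
        rw [h0]
        exact hδ.le

end SSP

open SSP in
/-- TD_BG_SSP. -/
theorem SSP_thm (h1 : NHD_Stmt) (h2 : STR_Stmt) (h3 : IDJ_Stmt) (h4 : TPL_Stmt) (h5 : FM_Stmt)
    (h6 : PLB_Stmt) (h7 : ADH_Stmt) : SSP_Stmt := by
  classical
  intro K A _ _ _ _ _ z u hu V hV
  obtain ⟨t, hut, hgen, η, hη, hbox⟩ := h1 K A z u V hV
  -- the strata
  let κ : Type := {J : Finset A // J ⊆ t ∧ ∀ a ∈ t, z.v a ≠ 0 → a ∈ J}
  have hκ : Finite κ := by
    have hf : Finite {J : Finset A // J ∈ t.powerset} := inferInstance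
    exact Finite.of_injective (β := {J : Finset A // J ∈ t.powerset})
      (fun J => ⟨J.1, Finset.mem_powerset.2 J.2.1⟩)
      (fun J J' h => Subtype.ext (congrArg (fun x => x.1) h))
  have hpoly : ∀ J : κ, ∃ (n : ℕ) (σ : Fin n → Set (J.1 → ℝ)), (∀ i, IsPolyh (σ i)) ∧
      (berLS K A).trop J.1 '' (stra t J.1) = ⋃ i, σ i := by
    intro J
    obtain ⟨I, hI⟩ := h3 K A t J.1
    obtain ⟨n, σ, hσ, hσ'⟩ := h4 K J.1 I
    exact ⟨n, σ, hσ, (h2 K A t J.1 J.2.1 hgen I hI).trans hσ'⟩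
  choose n σ hσ hσ' using hpoly
  -- the radii
  have hrad : ∀ k : (Σ J : κ, Fin (n J)), ∃ e : ℝ, 0 < e ∧
      ((∀ η : ℝ, 0 < η → ∃ x ∈ σ k.1 k.2, (∀ a : k.1.1, z.v a ≠ 0 →
        |x a - Real.log (z.v a)| ≤ η) ∧ ∀ a : k.1.1, ¬ (z.v a ≠ 0) → x a ≤ -(1 / η)) ∨
      ¬ ∃ x ∈ σ k.1 k.2, (∀ a : k.1.1, z.v a ≠ 0 → |x a - Real.log (z.v a)| ≤ e) ∧
        ∀ a : k.1.1, ¬ (z.v a ≠ 0) → x a ≤ -(1 / e)) := by
    intro k
    by_cases h : ∀ η : ℝ, 0 < η → ∃ x ∈ σ k.1 k.2, (∀ a : k.1.1, z.v a ≠ 0 →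
        |x a - Real.log (z.v a)| ≤ η) ∧ ∀ a : k.1.1, ¬ (z.v a ≠ 0) → x a ≤ -(1 / η)
    · exact ⟨1, one_pos, Or.inl h⟩
    · rw [not_forall] at h
      obtain ⟨e, he⟩ := h
      rw [Classical.not_imp] at he
      exact ⟨e, he.1, Or.inr he.2⟩
  choose e he he' using hrad
  have hεex : ∃ ε : ℝ, 0 < ε ∧ ε ≤ η ∧ ∀ k, ε ≤ e k := by
    have h1 : ∀ᶠ ε : ℝ in 𝓝[>] 0, ∀ k, ε ≤ e k := by
      rw [Filter.eventually_all]
      intro k
      filter_upwards [Ioc_mem_nhdsGT (he k)] with ε hε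
      exact hε.2
    have h2 : ∀ᶠ ε : ℝ in 𝓝[>] 0, 0 < ε ∧ ε ≤ η := by
      filter_upwards [Ioc_mem_nhdsGT hη] with ε hε
      exact hε
    obtain ⟨ε, hε1, hε2⟩ := (h1.and h2).exists
    exact ⟨ε, hε2.1, hε2.2, hε1⟩
  obtain ⟨ε, hε, hεη, hεe⟩ := hεex
  let δ : ℝ := min η (Real.exp (-(1 / ε)))
  have hδ : 0 < δ := lt_min hη (Real.exp_pos _)
  have hδη : δ ≤ η := min_le_left _ _
  have hδl : Real.log δ ≤ -(1 / ε) := by
    have := Real.log_le_log hδ (min_le_right η (Real.exp (-(1 / ε))))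
    rwa [Real.log_exp] at this
  obtain ⟨b1, b2, b3⟩ := hbox ε δ hε hεη hδ hδη
  have huJ : ∀ J : κ, u ⊆ J.1 := fun J a ha => J.2.2 a (hut ha) (hu a ha)
  -- the image of the box
  have himg : (berLS K A).trop u '' (box z t ε δ) = ⋃ k : (Σ J : κ, Fin (n J)),
      (rst (huJ k.1)).toLinearMap '' (σ k.1 k.2 ∩ Bx (fun a => z.v a ≠ 0) k.1.1
        (fun a => Real.log (z.v a)) ε (Real.log δ)) := by
    ext y
    simp only [Set.mem_iUnion]
    constructor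
    · rintro ⟨z', hz', rfl⟩
      let J0 : Finset A := t.filter fun a => z'.v a ≠ 0
      have hJ0 : J0 ⊆ t ∧ ∀ a ∈ t, z.v a ≠ 0 → a ∈ J0 :=
        ⟨Finset.filter_subset _ _, fun a ha hp => Finset.mem_filter.2 ⟨ha, ((hz' a ha).1 hp).1⟩⟩
      let J : κ := ⟨J0, hJ0⟩
      have hst : z' ∈ stra t J.1 := by
        intro a ha
        show z'.v a ≠ 0 ↔ a ∈ J0
        rw [Finset.mem_filter]
        exact ⟨fun h => ⟨ha, h⟩, fun h => h.2⟩
      have hmem : (berLS K A).trop J.1 z' ∈ ⋃ i, σ J i := by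
        rw [← hσ' J]
        exact ⟨z', hst, rfl⟩
      obtain ⟨i, hi⟩ := Set.mem_iUnion.1 hmem
      refine ⟨⟨J, i⟩, (berLS K A).trop J.1 z', ⟨hi, ?_⟩, rfl⟩
      exact (box_stra z t J.1 J.2.1 J.2.2 hδ hst).1 hz'
    · rintro ⟨⟨J, i⟩, x, ⟨hx, hxB⟩, rfl⟩
      have hmem : x ∈ (berLS K A).trop J.1 '' (stra t J.1) := by
        rw [hσ' J]
        exact Set.mem_iUnion.2 ⟨i, hx⟩
      obtain ⟨z', hst, rfl⟩ := hmem
      exact ⟨z', (box_stra z t J.1 J.2.1 J.2.2 hδ hst).2 hxB, rfl⟩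
  refine ⟨box z t ε δ, b2, b1, b3, fun a ha z' hz' => ((hz' a (hut ha)).1 (hu a ha)).1, ?_, ?_⟩
  · rw [himg]
    refine polyU_iUnion fun k => ?_
    exact h5 _ _ _ _ ((h6 k.1.1).1 _ _ (hσ k.1 k.2) (polyh_bx h6 _ _ _ _ _))
  · rw [himg]
    intro y hy a b ha hb hab
    obtain ⟨k, x, ⟨hx, hxB⟩, rfl⟩ := Set.mem_iUnion.1 hy
    have hadh : ∀ η : ℝ, 0 < η → ∃ x ∈ σ k.1 k.2, (∀ a : k.1.1, z.v a ≠ 0 →
        |x a - Real.log (z.v a)| ≤ η) ∧ ∀ a : k.1.1, ¬ (z.v a ≠ 0) → x a ≤ -(1 / η) := by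
      rcases he' k with h | h
      · exact h
      · exfalso
        apply h
        refine ⟨x, hx, fun a hp => ((hxB a).1 hp).trans (hεe k), fun a hp => ?_⟩
        refine ((hxB a).2 hp).trans (hδl.trans ?_)
        exact neg_le_neg (one_div_le_one_div_of_le hε (hεe k))
    obtain ⟨x', hx', hx1, hx2⟩ := h7 k.1.1 (fun a => z.v a ≠ 0) (σ k.1 k.2) (hσ k.1 k.2)
      (fun a => Real.log (z.v a)) hadh ε (Real.log δ) hε.le x hx (fun a => (hxB a).1)
      (fun a => (hxB a).2) b hb (by linarith)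
    refine Set.mem_iUnion.2 ⟨k, x', ⟨hx', fun c => ⟨fun hp => ?_, hx2 c⟩⟩, ?_⟩
    · rw [hx1 c hp, add_sub_cancel_left, abs_mul, abs_of_nonneg hb]
      calc b * |x c - Real.log (z.v c)| ≤ 1 * |x c - Real.log (z.v c)| :=
            mul_le_mul_of_nonneg_right (by linarith) (abs_nonneg _)
        _ ≤ ε := by rw [one_mul]; exact (hxB c).1 hp
    · ext c
      have hc : z.v c ≠ 0 := hu c c.2
      show x' ⟨c, huJ k.1 c.2⟩ = a * Real.log (z.v c) + b * x ⟨c, huJ k.1 c.2⟩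
      rw [hx1 _ hc]
      have : a = 1 - b := by linarith
      rw [this]
      ring

end Pool.Agent.TD.BG
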