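import Pool.Agent.TD.BG.Basic

/-!
# Block BG (MP_90358a_ag): star-shaped neighbourhoods, the form used by the other blocks
(module TD_BG_STA)
-/

set_option autoImplicit false

open scoped Topology

namespace Pool.Agent.TD.BG

/-- STA from SSP: local star-shapedness and finite unions of convex sets. -/
theorem STA_thm (h1 : SSP_Stmt) (h2 : PLB_Stmt) : STA_Stmt := by
  intro K A _ _ _ _ _ z
  constructor
  · intro u hu V hV
    obtain ⟨V', hV', h3, -, h4, -, h5⟩ := h1 K A z u (fun a ha => hu a ha) V hV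
    exact ⟨V', hV', h3, fun a ha z' hz' => h4 a ha z' hz', h5⟩
  · intro u hu V hV
    obtain ⟨V', hV', h3, -, h4, ⟨n, σ, h6, h7⟩, -⟩ := h1 K A z u (fun a ha => hu a ha) V hV
    refine ⟨V', hV', h3, fun a ha z' hz' => h4 a ha z' hz', Set.range σ, Set.finite_range σ, ?_, ?_⟩
    · rintro _ ⟨i, rfl⟩
      exact ((h2 u).2.1 (σ i) (h6 i)).1
    · rw [h7, Set.sUnion_range]

end Pool.Agent.TD.BG
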