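import Pool.Agent.TD.BG.Basic

/-!
# STP: one step of the argument for finite tropical bases (PAPER.md, section 3, B2 (iv), (v))
-/

open scoped ContDiff Topology NNReal

namespace Pool.Agent.TD.BG.STP

/-! ### Dickson -/

/-- for an upper set of `ℕ^n` the exponent of `x_i` may be lowered above a certain bound -/
theorem upper_bound {n : ℕ} (i : Fin n) (E : Set (Fin n → ℕ)) (hE : ∀ u ∈ E, ∀ a, u + a ∈ E) :
    ∃ k : ℕ, ∀ k', k ≤ k' → ∀ u, u + xp i (k' + 1) ∈ E → u + xp i k' ∈ E := by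
  classical
  have hpwo : E.IsPWO := Set.isPWO_of_wellQuasiOrderedLE _
  have hfin : {m | Minimal (· ∈ E) m}.Finite := by
    apply WellQuasiOrderedLE.finite_of_isAntichain
    exact setOfPred_minimal_antichain _
  obtain ⟨k, hk⟩ := (hfin.image fun m => m i).bddAbove
  refine ⟨k, fun k' hk' u hu => ?_⟩
  obtain ⟨m, hm, hmin⟩ := hpwo.exists_le_minimal hu
  have hmk : m i ≤ k := hk ⟨m, hmin, rfl⟩
  have hle : m ≤ u + xp i k' := by
    intro j
    by_cases hj : j = i
    · subst hj
      simp only [Pi.add_apply, xp, Pi.single_eq_same]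
      omega
    · have := hm j
      simpa only [Pi.add_apply, xp, Pi.single_eq_of_ne hj] using this
  have := hE m hmin.prop (u + xp i k' - m)
  rwa [add_tsub_cancel_of_le hle] at this

theorem xp_add {n : ℕ} (i : Fin n) (a b : ℕ) : xp i (a + b) = xp i a + xp i b := by
  unfold xp
  exact Pi.single_add (f := fun _ => ℕ) i a b

section sys

variable {K : Type} [NormedField K] [IsUltrametricDist K] {n : ℕ} {w : Fin n → ℝ}
  {W : ℕ → Set ((Fin n → ℕ) →₀ K)}

/-- the set of all leading monomials -/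
def Eset (w : Fin n → ℝ) (W : ℕ → Set ((Fin n → ℕ) →₀ K)) (i : Fin n) : Set (Fin n → ℕ) :=
  {u | u ∈ LMs w W i (deg u)}

omit [IsUltrametricDist K] in
theorem lms_deg (hW : GSys w W) {i : Fin n} {d : ℕ} {u : Fin n → ℕ} (hu : u ∈ LMs w W i d) :
    deg u = d := by
  obtain ⟨F, hF, hLM⟩ := hu
  exact (hW.gsub d).mon F hF u hLM.1

omit [IsUltrametricDist K] in
theorem lms_eq (hW : GSys w W) (i : Fin n) (d : ℕ) :
    {u | u ∈ Eset w W i ∧ deg u = d} = LMs w W i d := by
  ext u
  constructor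
  · rintro ⟨h1, h2⟩
    rw [← h2]
    exact h1
  · intro h
    have h2 := lms_deg hW h
    refine ⟨?_, h2⟩
    show u ∈ LMs w W i (deg u)
    rw [h2]
    exact h

omit [IsUltrametricDist K] in
theorem eset_upper (hW : GSys w W) (i : Fin n) : ∀ u ∈ Eset w W i, ∀ a, u + a ∈ Eset w W i := by
  rintro u ⟨F, hF, hLM⟩ a
  refine ⟨sh a F, ?_, isLM_sh.2 hLM⟩
  rw [deg_add]
  exact hW.shift _ F hF a

/-- division by a power of `x_i` -/
theorem lemA (hW : GSys w W) {i : Fin n} {d j : ℕ} {u : Fin n → ℕ}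
    (h : u + xp i j ∈ LMs w W i (d + j)) :
    ∃ F, Hom d F ∧ sh (xp i j) F ∈ W (d + j) ∧ IsLM (wtN w) (ord i) F u := by
  obtain ⟨G, hG, hLM⟩ := h
  have hinj : Function.Injective fun v : Fin n → ℕ => v + xp i j := add_left_injective _
  let F : (Fin n → ℕ) →₀ K := Finsupp.comapDomain (fun v => v + xp i j) G hinj.injOn
  have hFa : ∀ v, F v = G (v + xp i j) := fun v => Finsupp.comapDomain_apply _ _ _ _
  have hdiff : ∀ v, (G - sh (xp i j) F) v ≠ 0 → (G - sh (xp i j) F) v = G v ∧ v i < j := by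
    intro v hv
    by_cases hle : xp i j ≤ v
    · exfalso
      apply hv
      obtain ⟨v', rfl⟩ : ∃ v', v = v' + xp i j := ⟨v - xp i j, (tsub_add_cancel_of_le hle).symm⟩
      rw [Finsupp.sub_apply, sh_apply_add, hFa, sub_self]
    · constructor
      · rw [Finsupp.sub_apply, sh_apply_of_not_le F hle, sub_zero]
      · by_contra hcon
        push Not at hcon
        apply hle
        intro l
        by_cases hl : l = i
        · subst hl
          simpa [xp] using hcon
        · simp [xp, hl]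
  have hpos : 0 < nrm (wtN w) G := nrm_pos (wtN_pos w) ((hW.gsub _).ne G hG)
  have hlt : nrm (wtN w) (G - sh (xp i j) F) < nrm (wtN w) G := by
    rw [nrm_lt_iff hpos]
    intro v
    by_cases hv : (G - sh (xp i j) F) v = 0
    · rw [hv, nnnorm_zero, zero_mul]
      exact hpos
    · obtain ⟨h1, h2⟩ := hdiff v hv
      rw [h1, hLM.nrm_eq]
      have h3 : v i < (u + xp i j) i := by
        simp only [Pi.add_apply, xp, Pi.single_eq_same]
        omega
      have hne : v ≠ u + xp i j := by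
        rintro rfl
        exact lt_irrefl _ h3
      exact (hLM.2 v hne).2 (Or.inl h3)
  have hFh : Hom d F := by
    intro v hv
    rw [hFa] at hv
    have := (hW.gsub _).mon G hG _ hv
    have h2 : deg (v + xp i j) = d + j := this
    rw [deg_add, deg_xp] at h2
    omega
  refine ⟨F, hFh, (hW.gsub _).approx G hG _ ?_ hlt, ?_⟩
  · intro v hv
    have := hom_sh (a := xp i j) hFh v hv
    rw [deg_xp] at this
    exact this
  · exact isLM_sh.1 (hLM.of_approx hlt)

/-- the set of leading monomials after division -/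
theorem lms_div (hW : GSys w W) (i : Fin n) (d k : ℕ) :
    LMs w (fun d => {F | Hom d F ∧ sh (xp i k) F ∈ W (d + k)}) i d =
      {u | deg u = d ∧ u + xp i k ∈ Eset w W i} := by
  ext u
  constructor
  · rintro ⟨F, ⟨hF1, hF2⟩, hLM⟩
    have h1 : deg u = d := hF1 u hLM.1
    refine ⟨h1, ?_⟩
    show u + xp i k ∈ LMs w W i (deg (u + xp i k))
    rw [deg_add, deg_xp, h1]
    exact ⟨_, hF2, isLM_sh.2 hLM⟩
  · rintro ⟨h1, h2⟩
    have h3 : u + xp i k ∈ LMs w W i (d + k) := by
      have h4 : u + xp i k ∈ LMs w W i (deg (u + xp i k)) := h2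
      rwa [deg_add, deg_xp, h1] at h4
    obtain ⟨F, hF1, hF2, hF3⟩ := lemA hW h3
    exact ⟨F, ⟨hF1, hF2⟩, hF3⟩

omit [IsUltrametricDist K] in
theorem isLM_smul {r : (Fin n → ℕ) → (Fin n → ℕ) → Prop} {F : (Fin n → ℕ) →₀ K}
    {u : Fin n → ℕ} (c : K) (hc : c ≠ 0) (h : IsLM (wtN w) r F u) : IsLM (wtN w) r (c • F) u := by
  have hc' : 0 < ‖c‖₊ := by simpa using hc
  refine ⟨by simpa [hc] using h.1, fun u' hne => ?_⟩
  rw [Finsupp.smul_apply, Finsupp.smul_apply, smul_eq_mul, smul_eq_mul, nnnorm_mul, nnnorm_mul,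
    mul_assoc, mul_assoc]
  exact ⟨(mul_le_mul_iff_right₀ hc').2 (h.2 u' hne).1,
    fun hr => (mul_lt_mul_iff_right₀ hc').2 ((h.2 u' hne).2 hr)⟩

theorem stab (hW : GSys w W) (i : Fin n) (k : ℕ)
    (hk : ∀ u, u + xp i (k + 1) ∈ Eset w W i → u + xp i k ∈ Eset w W i) (d : ℕ)
    (F : (Fin n → ℕ) →₀ K) (hF : Hom d F) (hF1 : sh (xp i (k + 1)) F ∈ W (d + (k + 1))) :
    sh (xp i k) F ∈ W (d + k) := by
  classical
  have hwf : ({u | deg u = d} : Set (Fin n → ℕ)).WellFoundedOn (ord i) :=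
    Set.Finite.wellFoundedOn (finite_deg n d)
  have main : ∀ u ∈ {u : Fin n → ℕ | deg u = d}, ∀ F : (Fin n → ℕ) →₀ K, Hom d F →
      sh (xp i (k + 1)) F ∈ W (d + (k + 1)) → IsLM (wtN w) (ord i) F u →
      sh (xp i k) F ∈ W (d + k) := by
    intro u hu
    refine hwf.induction (P := fun u => ∀ F : (Fin n → ℕ) →₀ K, Hom d F →
      sh (xp i (k + 1)) F ∈ W (d + (k + 1)) → IsLM (wtN w) (ord i) F u →
      sh (xp i k) F ∈ W (d + k)) hu ?_
    clear hu u
    intro u hu ih F hF hF1 hLM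
    have h1 : u + xp i (k + 1) ∈ Eset w W i := by
      show u + xp i (k + 1) ∈ LMs w W i (deg (u + xp i (k + 1)))
      have hu' : deg u = d := hu
      rw [deg_add, deg_xp, hu']
      exact ⟨_, hF1, isLM_sh.2 hLM⟩
    have h2 : u + xp i k ∈ LMs w W i (d + k) := by
      have h4 : u + xp i k ∈ LMs w W i (deg (u + xp i k)) := hk u h1
      have hu' : deg u = d := hu
      rwa [deg_add, deg_xp, hu'] at h4
    obtain ⟨F', hF'h, hF'1, hF'LM⟩ := lemA hW h2
    set c : K := F u / F' u with hc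
    have hc0 : c ≠ 0 := div_ne_zero hLM.1 hF'LM.1
    have hcF' : (c • F') u = F u := by
      rw [Finsupp.smul_apply, smul_eq_mul, hc, div_mul_cancel₀ _ hF'LM.1]
    have hLM2 : IsLM (wtN w) (ord i) (c • F') u := isLM_smul c hc0 hF'LM
    have hn2 : nrm (wtN w) (c • F') = nrm (wtN w) F := by
      rw [hLM2.nrm_eq, hLM.nrm_eq, hcF']
    have hle : nrm (wtN w) (F - c • F') ≤ nrm (wtN w) F := by
      refine (nrm_sub_le _ _).trans ?_
      rw [hn2, max_self]
    have hcW : sh (xp i k) (c • F') ∈ W (d + k) := by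
      rw [sh_smul]
      exact (hW.gsub _).smul c hc0 _ hF'1
    have hFk : ∀ v, sh (xp i k) F v ≠ 0 → v ∈ {u | deg u = d + k} := by
      intro v hv
      have := hom_sh (a := xp i k) hF v hv
      rw [deg_xp] at this
      exact this
    rcases lt_or_eq_of_le hle with hlt | heq
    · refine (hW.gsub _).approx _ hcW _ hFk ?_
      rw [nrm_sub_comm]
      have h3 : nrm (wtN w) (sh (xp i k) (c • F')) = nrm (wtN w) (sh (xp i k) F) := by
        rw [nrm_sh, nrm_sh, hn2]
      rw [h3]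
      exact nrm_sh_lt.2 hlt
    · have hpos : 0 < nrm (wtN w) F := by
        rw [hLM.nrm_eq]
        exact mul_pos (by simpa using hLM.1) (wtN_pos w u)
      have hne0 : F - c • F' ≠ 0 := by
        intro h0
        rw [h0, nrm_zero] at heq
        exact hpos.ne heq
      obtain ⟨u'', hu''⟩ := exists_isLM (wtN_pos w) (ord i) hne0
      have hF''h : Hom d (F - c • F') := by
        intro v hv
        by_contra hcon
        have a1 : F v = 0 := by by_contra h; exact hcon (hF v h)
        have a2 : F' v = 0 := by by_contra h; exact hcon (hF'h v h)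
        exact hv (by simp [a1, a2])
      have hr : ord i u'' u := by
        have hne : u'' ≠ u := by
          rintro rfl
          apply hu''.1
          rw [Finsupp.sub_apply, hcF', sub_self]
        rcases trichotomous_of (ord i) u'' u with h3 | h3 | h3
        · exact h3
        · exact absurd h3 hne
        · exfalso
          have h4 := (hLM.2 u'' hne).2 h3
          have h5 := (hLM2.2 u'' hne).2 h3
          rw [hcF'] at h5
          have h6 : ‖(F - c • F') u''‖₊ ≤ max ‖F u''‖₊ ‖(c • F') u''‖₊ := by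
            rw [Finsupp.sub_apply, sub_eq_add_neg, ← nnnorm_neg ((c • F') u'')]
            exact IsUltrametricDist.nnnorm_add_le_max _ _
          have h7 : ‖(F - c • F') u''‖₊ * wtN w u'' < ‖F u‖₊ * wtN w u := by
            calc ‖(F - c • F') u''‖₊ * wtN w u''
                ≤ max (‖F u''‖₊ * wtN w u'') (‖(c • F') u''‖₊ * wtN w u'') := by
                  rw [← max_mul]; exact mul_le_mul_left h6 _
              _ < _ := max_lt h4 h5
          rw [← hu''.nrm_eq, heq, hLM.nrm_eq] at h7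
          exact lt_irrefl _ h7
      have hcW1 : sh (xp i (k + 1)) (-(c • F')) ∈ W (d + (k + 1)) := by
        have h3 : sh (xp i (k + 1)) (-(c • F')) = sh (xp i 1) (sh (xp i k) ((-c) • F')) := by
          rw [sh_sh, ← xp_add, neg_smul]
        rw [h3, sh_smul]
        have h4 := hW.shift (d + k) ((-c) • sh (xp i k) F')
          ((hW.gsub _).smul (-c) (neg_ne_zero.2 hc0) _ hF'1) (xp i 1)
        rwa [deg_xp, add_assoc] at h4
      have hW1 : sh (xp i (k + 1)) (F - c • F') ∈ W (d + (k + 1)) := by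
        rw [sub_eq_add_neg, sh_add]
        refine (hW.gsub _).add _ hF1 _ hcW1 ?_ ?_
        · rw [nrm_sh, nrm_sh, nrm_neg, hn2]
        · rw [← sh_add, ← sub_eq_add_neg, nrm_sh, nrm_sh, heq]
      have hW2 := ih u'' (hF''h u'' hu''.1) hr _ hF''h hW1 hu''
      have h8 : sh (xp i k) F = sh (xp i k) (F - c • F') + sh (xp i k) (c • F') := by
        rw [← sh_add, sub_add_cancel]
      rw [h8]
      refine (hW.gsub _).add _ hW2 _ hcW ?_ ?_
      · rw [nrm_sh, nrm_sh, hn2, heq]
      · rw [← h8, nrm_sh, nrm_sh, heq]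
  have hF0 : F ≠ 0 := by
    intro h
    have := (hW.gsub _).ne _ hF1
    exact this (sh_eq_zero.2 h)
  obtain ⟨u, hu⟩ := exists_isLM (wtN_pos w) (ord i) hF0
  exact main u (hF u hu.1) F hF hF1 hu

omit [IsUltrametricDist K] in
theorem gsys_div (hW : GSys w W) (i : Fin n) (k : ℕ) :
    GSys w fun d => {F | Hom d F ∧ sh (xp i k) F ∈ W (d + k)} where
  gsub d := {
    ne := by
      rintro F ⟨hF1, hF2⟩ h0
      exact (hW.gsub _).ne _ hF2 (sh_eq_zero.2 h0)
    mon := fun F hF => hF.1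
    approx := by
      rintro F ⟨hF1, hF2⟩ G hG hlt
      refine ⟨hG, (hW.gsub _).approx _ hF2 _ ?_ (nrm_sh_lt.2 hlt)⟩
      intro v hv
      have := hom_sh (a := xp i k) (d := d) (F := G) hG v hv
      rw [deg_xp] at this
      exact this
    add := by
      rintro F ⟨hF1, hF2⟩ G ⟨hG1, hG2⟩ h1 h2
      refine ⟨?_, ?_⟩
      · intro v hv
        by_contra hcon
        have a1 : F v = 0 := by by_contra h; exact hcon (hF1 v h)
        have a2 : G v = 0 := by by_contra h; exact hcon (hG1 v h)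
        exact hv (by simp [a1, a2])
      · rw [sh_add]
        refine (hW.gsub _).add _ hF2 _ hG2 ?_ ?_
        · rw [nrm_sh, nrm_sh, h1]
        · rw [← sh_add, nrm_sh, nrm_sh, h2]
    smul := by
      rintro c hc F ⟨hF1, hF2⟩
      refine ⟨?_, ?_⟩
      · intro v hv
        exact hF1 v fun h => hv (by simp [h])
      · rw [sh_smul]
        exact (hW.gsub _).smul c hc _ hF2 }
  shift := by
    rintro d F ⟨hF1, hF2⟩ a
    refine ⟨hom_sh hF1, ?_⟩
    have h1 := hW.shift _ _ hF2 a
    rw [sh_sh] at h1 ⊢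
    rw [add_comm (xp i k) a, add_right_comm] at h1
    exact h1

theorem cnt_eq (h2 : CNT_Stmt) (hW : GSys w W) (i i0 : Fin n) (d : ℕ) :
    Set.ncard (LMs w W i0 d) = Set.ncard (LMs w W i d) := by
  have h := h2 K (Fin n → ℕ) (wtN w) (wtN_pos w) (finite_deg n d).toFinset (W d)
    (by rw [Set.Finite.coe_toFinset]; exact hW.gsub d) (ord i0) (ord i)
  exact h

end sys

end Pool.Agent.TD.BG.STP

namespace Pool.Agent.TD.BG

open STP in
/-- STP: one step of the argument. -/
theorem STP_thm (h1 : MAC_Stmt) (h2 : CNT_Stmt) : STP_Stmt := by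
  classical
  intro K _ _ n Λ w W hW i0 hfin i
  -- finitely many sets of leading monomials
  have hE : (Set.range fun l => Eset (w l) (W l) i).Finite := by
    refine (hfin.biUnion fun H _ => h1 n H).subset ?_
    rintro _ ⟨l, rfl⟩
    refine Set.mem_biUnion ⟨l, rfl⟩ ⟨eset_upper (hW l) i, fun d => ?_⟩
    rw [lms_eq (hW l) i d]
    exact (cnt_eq h2 (hW l) i i0 d).symm
  -- a common bound
  have hb : ∀ E : Set (Fin n → ℕ), ∃ k : ℕ, (∀ u ∈ E, ∀ a, u + a ∈ E) → ∀ k', k ≤ k' →
      ∀ u, u + xp i (k' + 1) ∈ E → u + xp i k' ∈ E := by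
    intro E
    by_cases hE : ∀ u ∈ E, ∀ a, u + a ∈ E
    · obtain ⟨k, hk⟩ := upper_bound i E hE
      exact ⟨k, fun _ => hk⟩
    · exact ⟨0, fun h => absurd h hE⟩
  choose kE hkE using hb
  obtain ⟨k, hk⟩ := (hE.image kE).bddAbove
  have hk' : ∀ l u, u + xp i (k + 1) ∈ Eset (w l) (W l) i → u + xp i k ∈ Eset (w l) (W l) i :=
    fun l => hkE _ (eset_upper (hW l) i) k (hk ⟨_, ⟨l, rfl⟩, rfl⟩)
  refine ⟨k, fun l d F hF hF1 => stab (hW l) i k (hk' l) d F hF hF1,
    fun l => gsys_div (hW l) i k, ?_⟩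
  refine (hE.image fun E => fun d => Set.ncard {u : Fin n → ℕ | deg u = d ∧ u + xp i k ∈ E}).subset
    ?_
  rintro _ ⟨l, rfl⟩
  refine ⟨_, ⟨l, rfl⟩, ?_⟩
  funext d
  have h3 := cnt_eq h2 (gsys_div (hW l) i k) i i0 d
  rw [lms_div (hW l) i d k] at h3
  exact h3.symm

end Pool.Agent.TD.BG
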