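import Pool.Agent.TD.BG.Basic

/-!
# Module TOP: the topology of `M(A)`
-/

open scoped ContDiff Topology NNReal

namespace Pool.Agent.TD.BG

namespace TOP

variable {K A : Type} [NormedField K] [CommRing A] [Algebra K A]

theorem v_injective : Function.Injective (Ber.v : Ber K A → A → ℝ) := by
  rintro ⟨v, _, _, _, _, _⟩ ⟨v', _, _, _, _, _⟩ h
  have h' : v = v' := h
  subst h'
  rfl

theorem isEmbedding_v : Topology.IsEmbedding (Ber.v : Ber K A → A → ℝ) :=
  ⟨⟨rfl⟩, v_injective⟩

theorem continuous_v : Continuous (Ber.v : Ber K A → A → ℝ) := isEmbedding_v.continuous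

theorem continuous_v_apply (a : A) : Continuous fun z : Ber K A => z.v a :=
  (continuous_apply a).comp continuous_v

theorem isClosed_range_v : IsClosed (Set.range (Ber.v : Ber K A → A → ℝ)) := by
  have h : Set.range (Ber.v : Ber K A → A → ℝ) =
      {f | ∀ a, 0 ≤ f a} ∩ {f | f 1 = 1} ∩ {f | ∀ a b, f (a * b) = f a * f b} ∩
        {f | ∀ a b, f (a + b) ≤ max (f a) (f b)} ∩
          {f | ∀ c : K, f (algebraMap K A c) = ‖c‖} := by
    ext f
    constructor
    · rintro ⟨z, rfl⟩
      exact ⟨⟨⟨⟨z.nonneg, z.one⟩, z.mul⟩, z.add⟩, z.ext⟩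
    · rintro ⟨⟨⟨⟨h1, h2⟩, h3⟩, h4⟩, h5⟩
      exact ⟨⟨f, h1, h2, h3, h4, h5⟩, rfl⟩
  rw [h]
  refine IsClosed.inter (IsClosed.inter (IsClosed.inter (IsClosed.inter ?_ ?_) ?_) ?_) ?_
  · rw [Set.ofPred_forall]
    exact isClosed_iInter fun a => isClosed_le continuous_const (continuous_apply a)
  · exact isClosed_eq (continuous_apply _) continuous_const
  · rw [Set.ofPred_forall]
    refine isClosed_iInter fun a => ?_
    rw [Set.ofPred_forall]
    exact isClosed_iInter fun b => isClosed_eq (continuous_apply _)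
      ((continuous_apply a).mul (continuous_apply b))
  · rw [Set.ofPred_forall]
    refine isClosed_iInter fun a => ?_
    rw [Set.ofPred_forall]
    exact isClosed_iInter fun b => isClosed_le (continuous_apply _)
      ((continuous_apply a).max (continuous_apply b))
  · rw [Set.ofPred_forall]
    exact isClosed_iInter fun c => isClosed_eq (continuous_apply _) continuous_const

theorem isClosedEmbedding_v : Topology.IsClosedEmbedding (Ber.v : Ber K A → A → ℝ) :=
  ⟨isEmbedding_v, isClosed_range_v⟩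

theorem isCompact_of_bounded (Z : Set (Ber K A)) (hZ : IsClosed Z)
    (hb : ∀ a : A, ∃ C : ℝ, ∀ z ∈ Z, z.v a ≤ C) : IsCompact Z := by
  choose C hC using hb
  have hK : IsCompact (Set.univ.pi fun a : A => Set.Icc (0 : ℝ) (C a)) :=
    isCompact_univ_pi fun a => isCompact_Icc
  have hpre : IsCompact ((Ber.v : Ber K A → A → ℝ) ⁻¹'
      (Set.univ.pi fun a : A => Set.Icc (0 : ℝ) (C a))) :=
    isClosedEmbedding_v.isCompact_preimage hK
  refine hpre.of_isClosed_subset hZ ?_
  intro z hz a _
  exact ⟨z.nonneg a, hC a z hz⟩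

end TOP

theorem TOP_thm : TOP_Stmt := by
  intro K A _ _ _
  refine ⟨TOP.isEmbedding_v.t2Space, TOP.continuous_v_apply, TOP.isCompact_of_bounded, ?_⟩
  intro Y _ f hf
  exact TOP.isEmbedding_v.continuous_iff.2 (continuous_pi hf)

end Pool.Agent.TD.BG
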