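import Pool.Agent.TD.BG.Basic

/-!
# TPL: tropicalizations are finite unions of polyhedra
-/

open scoped ContDiff Topology NNReal

namespace Pool.Agent.TD.BG

namespace TPL

theorem polyU_of_polyh {ι : Type} [Fintype ι] {S : Set (ι → ℝ)} (h : IsPolyh S) : IsPolyU S :=
  ⟨1, fun _ => S, fun _ => h, (Set.iUnion_const S).symm⟩

theorem polyh_inter (h2 : PLB_Stmt) {ι α : Type} [Fintype ι] (s : Finset α)
    (f : α → Set (ι → ℝ)) (hf : ∀ a ∈ s, IsPolyh (f a)) : IsPolyh {w | ∀ a ∈ s, w ∈ f a} := by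
  classical
  induction s using Finset.induction_on with
  | empty =>
    have h : {w : ι → ℝ | ∀ a ∈ (∅ : Finset α), w ∈ f a} = Set.univ := by
      ext w
      simp
    rw [h]
    exact (h2 ι).2.2.2.2.2.2.1
  | insert a s ha ih =>
    have h : {w : ι → ℝ | ∀ b ∈ insert a s, w ∈ f b} = f a ∩ {w | ∀ b ∈ s, w ∈ f b} := by
      ext w
      simp
    rw [h]
    exact (h2 ι).1 _ _ (hf a (Finset.mem_insert_self a s))
      (ih fun b hb => hf b (Finset.mem_insert_of_mem hb))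

theorem polyU_inter (h2 : PLB_Stmt) {ι α : Type} [Fintype ι] (s : Finset α)
    (f : α → Set (ι → ℝ)) (hf : ∀ a ∈ s, IsPolyU (f a)) : IsPolyU {w | ∀ a ∈ s, w ∈ f a} := by
  classical
  induction s using Finset.induction_on with
  | empty =>
    have h : {w : ι → ℝ | ∀ a ∈ (∅ : Finset α), w ∈ f a} = Set.univ := by
      ext w
      simp
    rw [h]
    exact polyU_of_polyh (h2 ι).2.2.2.2.2.2.1
  | insert a s ha ih =>
    have h : {w : ι → ℝ | ∀ b ∈ insert a s, w ∈ f b} = f a ∩ {w | ∀ b ∈ s, w ∈ f b} := by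
      ext w
      simp
    rw [h]
    exact ((h2 ι).2.2.1 _ _ (hf a (Finset.mem_insert_self a s))
      (ih fun b hb => hf b (Finset.mem_insert_of_mem hb))).1

theorem polyU_union (h2 : PLB_Stmt) {ι α : Type} [Fintype ι] (s : Finset α)
    (f : α → Set (ι → ℝ)) (hf : ∀ a ∈ s, IsPolyU (f a)) : IsPolyU {w | ∃ a ∈ s, w ∈ f a} := by
  classical
  induction s using Finset.induction_on with
  | empty =>
    have h : {w : ι → ℝ | ∃ a ∈ (∅ : Finset α), w ∈ f a} = ∅ := by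
      ext w
      simp
    rw [h]
    exact (h2 ι).2.2.2.2.2.2.2
  | insert a s ha ih =>
    have h : {w : ι → ℝ | ∃ b ∈ insert a s, w ∈ f b} = f a ∪ {w | ∃ b ∈ s, w ∈ f b} := by
      ext w
      simp
    rw [h]
    exact ((h2 ι).2.2.1 _ _ (hf a (Finset.mem_insert_self a s))
      (ih fun b hb => hf b (Finset.mem_insert_of_mem hb))).2

section val

variable {K ι : Type} [NormedField K] [Fintype ι]

theorem val_eq (F : (ι → ℤ) →₀ K) (w : ι → ℝ) {u : ι → ℤ} (h : F u ≠ 0) :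
    ((‖F u‖₊ * wtZ w u : ℝ≥0) : ℝ) = Real.exp (Real.log ‖F u‖ + ∑ i, (u i : ℝ) * w i) := by
  rw [Real.exp_add, Real.exp_log (norm_pos_iff.2 h)]
  rfl

theorem val_le_iff (F : (ι → ℤ) →₀ K) (w : ι → ℝ) {u v : ι → ℤ} (hu : F u ≠ 0) (hv : F v ≠ 0) :
    ‖F v‖₊ * wtZ w v ≤ ‖F u‖₊ * wtZ w u ↔
      ∑ i, ((v i : ℝ) - u i) * w i ≤ Real.log ‖F u‖ - Real.log ‖F v‖ := by
  rw [← NNReal.coe_le_coe, val_eq F w hu, val_eq F w hv, Real.exp_le_exp]
  have h : ∑ i, ((v i : ℝ) - u i) * w i = ∑ i, (v i : ℝ) * w i - ∑ i, (u i : ℝ) * w i := by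
    rw [← Finset.sum_sub_distrib]
    exact Finset.sum_congr rfl fun i _ => by ring
  rw [h]
  constructor <;> intro h1 <;> linarith

theorem wtZ_pos (w : ι → ℝ) (u : ι → ℤ) : 0 < wtZ w u := Real.exp_pos _

/-- The tropical hypersurface of one Laurent polynomial. -/
theorem hyper (h2 : PLB_Stmt) (F : (ι → ℤ) →₀ K) :
    IsPolyU {w : ι → ℝ | ∀ u, ¬ Single (wtZ w) F u} := by
  classical
  by_cases hF : F = 0
  · have h : {w : ι → ℝ | ∀ u, ¬ Single (wtZ w) F u} = Set.univ := by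
      ext w
      simp [Single, hF]
    rw [h]
    exact polyU_of_polyh (h2 ι).2.2.2.2.2.2.1
  let s : Finset ((ι → ℤ) × (ι → ℤ)) := (F.support ×ˢ F.support).filter fun p => p.1 ≠ p.2
  let f : (ι → ℤ) × (ι → ℤ) → Set (ι → ℝ) := fun p =>
    {w | ‖F p.1‖₊ * wtZ w p.1 ≤ ‖F p.2‖₊ * wtZ w p.2} ∩
      {w | ∀ v ∈ F.support, w ∈ {w : ι → ℝ | ‖F v‖₊ * wtZ w v ≤ ‖F p.1‖₊ * wtZ w p.1}}
  have heq : {w : ι → ℝ | ∀ u, ¬ Single (wtZ w) F u} = {w | ∃ p ∈ s, w ∈ f p} := by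
    ext w
    constructor
    · intro h
      obtain ⟨u, hu, hmax⟩ := exists_nrm_eq (wt := wtZ w) hF
      have h3 := h u
      have h4 : ∃ u', u' ≠ u ∧ ‖F u‖₊ * wtZ w u ≤ ‖F u'‖₊ * wtZ w u' := by
        by_contra hcon
        push Not at hcon
        exact h3 ⟨hu, hcon⟩
      obtain ⟨u', hne, hle⟩ := h4
      have hu' : F u' ≠ 0 := by
        intro h0
        rw [h0, nnnorm_zero, zero_mul] at hle
        have hpos : 0 < ‖F u‖₊ * wtZ w u := mul_pos (by simpa using hu) (wtZ_pos w u)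
        exact absurd hle (not_le.2 hpos)
      refine ⟨(u, u'), ?_, hle, fun v _ => ?_⟩
      · simp only [s, Finset.mem_filter, Finset.mem_product, Finsupp.mem_support_iff]
        exact ⟨⟨hu, hu'⟩, Ne.symm hne⟩
      · show ‖F v‖₊ * wtZ w v ≤ ‖F u‖₊ * wtZ w u
        rw [hmax]
        exact le_nrm F v
    · rintro ⟨⟨u, u'⟩, hp, hle, hall⟩ u0 hS
      simp only [s, Finset.mem_filter, Finset.mem_product, Finsupp.mem_support_iff] at hp
      obtain ⟨⟨hu, hu'⟩, hne⟩ := hp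
      have hle' : ‖F u‖₊ * wtZ w u ≤ ‖F u'‖₊ * wtZ w u' := hle
      have h0 : ‖F u0‖₊ * wtZ w u0 ≤ ‖F u‖₊ * wtZ w u :=
        hall u0 (Finsupp.mem_support_iff.2 hS.1)
      by_cases h5 : u = u0
      · have h6 : u' ≠ u0 := fun h => hne (h5.trans h.symm)
        exact absurd (hS.2 u' h6) (not_lt.2 (h0.trans hle'))
      · exact absurd (hS.2 u h5) (not_lt.2 h0)
  rw [heq]
  apply polyU_union h2
  rintro ⟨u, u'⟩ hp
  simp only [s, Finset.mem_filter, Finset.mem_product, Finsupp.mem_support_iff] at hp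
  obtain ⟨⟨hu, hu'⟩, hne⟩ := hp
  apply polyU_of_polyh
  refine (h2 ι).1 _ _ ?_ (polyh_inter h2 _ _ ?_)
  · have h : {w : ι → ℝ | ‖F u‖₊ * wtZ w u ≤ ‖F u'‖₊ * wtZ w u'} =
        {w : ι → ℝ | ∑ i, ((u i : ℝ) - u' i) * w i ≤ Real.log ‖F u'‖ - Real.log ‖F u‖} := by
      ext w
      exact val_le_iff F w hu' hu
    show IsPolyh {w : ι → ℝ | ‖F u‖₊ * wtZ w u ≤ ‖F u'‖₊ * wtZ w u'}
    rw [h]
    exact (h2 ι).2.2.2.1 (fun i => (u i : ℝ) - u' i) _
  · intro v hv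
    rw [Finsupp.mem_support_iff] at hv
    have h : {w : ι → ℝ | ‖F v‖₊ * wtZ w v ≤ ‖F u‖₊ * wtZ w u} =
        {w : ι → ℝ | ∑ i, ((v i : ℝ) - u i) * w i ≤ Real.log ‖F u‖ - Real.log ‖F v‖} := by
      ext w
      exact val_le_iff F w hu hv
    show IsPolyh {w : ι → ℝ | ‖F v‖₊ * wtZ w v ≤ ‖F u‖₊ * wtZ w u}
    rw [h]
    exact (h2 ι).2.2.2.1 (fun i => (v i : ℝ) - u i) _

end val

end TPL

open TPL in
/-- TPL: tropicalizations are finite unions of polyhedra. -/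
theorem TPL_thm (h1 : FTB_Stmt) (h2 : PLB_Stmt) : TPL_Stmt := by
  intro K ι _ _ _ I
  obtain ⟨C, hC, hT⟩ := h1 K ι I
  have heq : Trop I = {w : ι → ℝ | ∀ F ∈ C, w ∈ {w : ι → ℝ | ∀ u, ¬ Single (wtZ w) (co F) u}} := by
    ext w
    constructor
    · intro h F hF
      exact h F (hC F hF)
    · intro h
      by_contra hcon
      obtain ⟨F, hF, u, hu⟩ := hT w hcon
      exact h F hF u hu
  rw [heq]
  exact polyU_inter h2 C _ fun F _ => hyper h2 (co F)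

end Pool.Agent.TD.BG
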