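import Pool.Agent.TD.BG.Basic

/-!
# UNI: a uniform exponent for the initial forms
-/

open scoped ContDiff Topology NNReal

namespace Pool.Agent.TD.BG

namespace UNI

variable {K : Type} [NormedField K] {n : ℕ}

theorem sh_single (a b : Fin n → ℕ) :
    sh a (Finsupp.single b (1 : K)) = Finsupp.single (b + a) 1 := Finsupp.mapDomain_single

theorem nrm_single (w : Fin n → ℝ) (b : Fin n → ℕ) :
    nrm (wtN w) (Finsupp.single b (1 : K)) = wtN w b := by
  unfold nrm
  rw [Finsupp.support_single_ne_zero b one_ne_zero, Finset.sup_singleton, Finsupp.single_eq_same,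
    nnnorm_one, one_mul]

theorem hom_single (b : Fin n → ℕ) : Hom (deg b) (Finsupp.single b (1 : K)) := by
  intro u hu
  by_contra hne
  have h1 : u ≠ b := fun h => hne (by rw [h])
  exact hu (Finsupp.single_eq_of_ne h1)

theorem single_ne (b : Fin n → ℕ) : (Finsupp.single b (1 : K) : (Fin n → ℕ) →₀ K) ≠ 0 := by
  intro h
  have h1 := Finsupp.ext_iff.1 h b
  rw [Finsupp.single_eq_same] at h1
  exact one_ne_zero h1

/-- the subspace of the elements of `J` which are homogeneous of degree `d` -/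
def homJ (J : Submodule K ((Fin n → ℕ) →₀ K)) (d : ℕ) : Submodule K ((Fin n → ℕ) →₀ K) where
  carrier := {G | G ∈ J ∧ Hom d G}
  zero_mem' := ⟨J.zero_mem, fun u hu => absurd rfl hu⟩
  add_mem' := by
    rintro G G' ⟨hG, hGh⟩ ⟨hG', hGh'⟩
    refine ⟨J.add_mem hG hG', fun u hu => ?_⟩
    by_contra hne
    have a1 : G u = 0 := by by_contra h; exact hne (hGh u h)
    have a2 : G' u = 0 := by by_contra h; exact hne (hGh' u h)
    exact hu (by simp [a1, a2])
  smul_mem' := by
    rintro c G ⟨hG, hGh⟩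
    exact ⟨J.smul_mem c hG, fun u hu => hGh u fun h => hu (by simp [h])⟩

theorem count_eq [IsUltrametricDist K] (h2 : DIM_Stmt) (J : Submodule K ((Fin n → ℕ) →₀ K))
    (w : Fin n → ℝ) (i : Fin n) (d : ℕ) :
    Set.ncard (LMs w (InJ w J) i d) = Module.finrank K (homJ J d) := by
  have h := h2 K (Fin n → ℕ) (wtN w) (wtN_pos w) (finite_deg n d).toFinset (homJ J d)
    (fun F hF u hu => by
      rw [Set.Finite.mem_toFinset]
      exact hF.2 u hu) (ord i)
  rw [← h]
  congr 1
  ext u
  constructor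
  · rintro ⟨F, ⟨hF0, -, G, hG, hGh, hFG⟩, hLM⟩
    exact ⟨F, hF0, ⟨G, ⟨hG, hGh⟩, hFG⟩, hLM⟩
  · rintro ⟨F, hF0, ⟨G, ⟨hG, hGh⟩, hFG⟩, hLM⟩
    have h3 := hLM.of_approx hFG
    have h4 : nrm (wtN w) G = nrm (wtN w) F := nrm_eq_of_approx hFG
    have h5 : 0 < nrm (wtN w) F := nrm_pos (wtN_pos w) hF0
    refine ⟨G, ⟨fun h6 => ?_, hGh, G, hG, hGh, ?_⟩, h3⟩
    · rw [h6, nrm_zero] at h4
      exact h5.ne h4
    · rw [sub_self, nrm_zero, h4]
      exact h5

/-- the statement which is proved by induction over the set of variables -/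
theorem main [IsUltrametricDist K] (h1 : STP_Stmt) (h2 : DIM_Stmt)
    (J : Submodule K ((Fin n → ℕ) →₀ K)) (hJ : ∀ F ∈ J, ∀ a, sh a F ∈ J) (i0 : Fin n)
    (s : Finset (Fin n)) :
    ∃ (a : Fin n → ℕ) (W : (Fin n → ℝ) → ℕ → Set ((Fin n → ℕ) →₀ K)),
      (∀ w d F, F ∈ W w d ↔ Hom d F ∧ sh a F ∈ InJ w J (d + deg a)) ∧
      (∀ w, GSys w (W w)) ∧
      (Set.range fun w => fun d => Set.ncard (LMs w (W w) i0 d)).Finite ∧
      ∀ j ∈ s, ∀ w d F, Hom d F → sh (xp j 1) F ∈ W w (d + 1) → F ∈ W w d := by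
  classical
  induction s using Finset.induction_on with
  | empty =>
    refine ⟨0, fun w => InJ w J, fun w d F => ?_, fun w => gsys_InJ w J hJ, ?_, by simp⟩
    · rw [sh_zero]
      have e : deg (0 : Fin n → ℕ) = 0 := by simp [deg]
      rw [e, add_zero]
      exact ⟨fun h => ⟨h.2.1, h⟩, fun h => h.2⟩
    · refine (Set.finite_singleton fun d => Module.finrank K (homJ J d)).subset ?_
      rintro _ ⟨w, rfl⟩
      rw [Set.mem_singleton_iff]
      funext d
      exact count_eq h2 J w i0 d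
  | insert i s hi ih =>
    obtain ⟨a, W, hW, hG, hfin, hsat⟩ := ih
    obtain ⟨k, hk, hG', hfin'⟩ := h1 K n (Fin n → ℝ) (fun w => w) W hG i0 hfin i
    refine ⟨xp i k + a, fun w d => {F | Hom d F ∧ sh (xp i k) F ∈ W w (d + k)}, ?_, hG', hfin', ?_⟩
    · intro w d F
      show (Hom d F ∧ sh (xp i k) F ∈ W w (d + k)) ↔ _
      refine and_congr_right fun hF => ?_
      rw [hW, sh_sh, deg_add, deg_xp, add_assoc]
      have h3 : Hom (d + k) (sh (xp i k) F) := by
        have := hom_sh (a := xp i k) hF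
        rwa [deg_xp] at this
      exact ⟨fun h => h.2, fun h => ⟨h3, h⟩⟩
    · intro j hj w d F hF hm
      obtain ⟨-, hm⟩ := hm
      refine ⟨hF, ?_⟩
      rw [sh_sh] at hm
      rcases Finset.mem_insert.1 hj with rfl | hj
      · refine hk w d F hF ?_
        have e : xp j 1 + xp j k = xp j (k + 1) := by
          unfold xp
          rw [← Pi.single_add, add_comm]
        rw [e] at hm
        have e2 : d + (k + 1) = d + 1 + k := by ring
        rw [e2]
        exact hm
      · refine hsat j hj w (d + k) _ ?_ ?_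
        · have := hom_sh (a := xp i k) hF
          rwa [deg_xp] at this
        · rw [sh_sh, add_comm (xp i k)]
          have e2 : d + k + 1 = d + 1 + k := by ring
          rw [e2]
          exact hm

/-- a monomial close to an element of `J` gives a single element -/
theorem single_of_InJ [IsUltrametricDist K] (w : Fin n → ℝ)
    (J : Submodule K ((Fin n → ℕ) →₀ K)) {b : Fin n → ℕ} {d : ℕ}
    (h : Finsupp.single b (1 : K) ∈ InJ w J d) :
    ∃ G' ∈ J, Hom d G' ∧ Single (wtN w) G' b := by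
  obtain ⟨h0, -, G, hG, hGh, hlt⟩ := h
  refine ⟨G, hG, hGh, ?_⟩
  have h4 : nrm (wtN w) G = nrm (wtN w) (Finsupp.single b (1 : K)) := nrm_eq_of_approx hlt
  have h5 : ∀ u, u ≠ b → ‖G u‖₊ * wtN w u < nrm (wtN w) G := by
    intro u hu
    have h6 := le_nrm (wt := wtN w) (Finsupp.single b (1 : K) - G) u
    have h7 : (Finsupp.single b (1 : K) - G) u = - G u := by
      rw [Finsupp.sub_apply, Finsupp.single_eq_of_ne hu, zero_sub]
    rw [h7, nnnorm_neg] at h6
    rw [h4]
    exact h6.trans_lt hlt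
  have hG0 : G ≠ 0 := by
    rintro rfl
    rw [nrm_zero] at h4
    exact (nrm_pos (wtN_pos w) h0).ne h4
  obtain ⟨u, hu, hu'⟩ := exists_nrm_eq (wt := wtN w) hG0
  have hub : u = b := by
    by_contra hne
    exact (h5 u hne).ne hu'
  subst hub
  exact ⟨hu, fun u' hne => by rw [hu']; exact h5 u' hne⟩

/-- the leading monomial of a single element is close to an element of `J` -/
theorem InJ_of_single (w : Fin n → ℝ)
    (J : Submodule K ((Fin n → ℕ) →₀ K)) {G : (Fin n → ℕ) →₀ K} {b : Fin n → ℕ} {d : ℕ}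
    (hG : G ∈ J) (hGh : Hom d G) (hs : Single (wtN w) G b) :
    Finsupp.single b (1 : K) ∈ InJ w J d := by
  have hd : deg b = d := hGh b hs.1
  subst hd
  refine ⟨single_ne b, hom_single b, (G b)⁻¹ • G, J.smul_mem _ hG, (homJ J _).smul_mem _
    ⟨hG, hGh⟩ |>.2, ?_⟩
  rw [nrm_single, nrm_lt_iff (wtN_pos w b)]
  intro u
  by_cases hu : u = b
  · subst hu
    rw [Finsupp.sub_apply, Finsupp.single_eq_same, Finsupp.smul_apply, smul_eq_mul,
      inv_mul_cancel₀ hs.1, sub_self, nnnorm_zero, zero_mul]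
    exact wtN_pos w u
  · rw [Finsupp.sub_apply, Finsupp.single_eq_of_ne hu, zero_sub, nnnorm_neg, Finsupp.smul_apply,
      smul_eq_mul, nnnorm_mul, nnnorm_inv, mul_assoc]
    have h1 := hs.2 u hu
    have h2 : 0 < ‖G b‖₊ := by simpa using hs.1
    calc ‖G b‖₊⁻¹ * (‖G u‖₊ * wtN w u) < ‖G b‖₊⁻¹ * (‖G b‖₊ * wtN w b) :=
          (mul_lt_mul_iff_right₀ (by positivity)).2 h1
      _ = wtN w b := by rw [← mul_assoc, inv_mul_cancel₀ h2.ne', one_mul]

/-- saturation: all monomials of `W` can be reduced to `1` -/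
theorem reduce {W : ℕ → Set ((Fin n → ℕ) →₀ K)}
    (hsat : ∀ j d F, Hom d F → sh (xp j 1) F ∈ W (d + 1) → F ∈ W d) :
    ∀ (m : ℕ) (b : Fin n → ℕ), deg b = m → Finsupp.single b (1 : K) ∈ W m →
      Finsupp.single 0 (1 : K) ∈ W 0 := by
  intro m
  induction m with
  | zero =>
    intro b hb h
    have e : b = 0 := by
      funext i
      have h1 : b i ≤ deg b := Finset.single_le_sum (f := b) (fun _ _ => Nat.zero_le _)
        (Finset.mem_univ i)
      have h2 : b i ≤ 0 := by rw [← hb]; exact h1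
      exact Nat.le_zero.1 h2
    rw [← e]; exact h
  | succ m ih =>
    intro b hb h
    obtain ⟨j, hj⟩ : ∃ j, b j ≠ 0 := by
      by_contra hc
      push Not at hc
      have : deg b = 0 := by simp [deg, hc]
      omega
    have e : (b - xp j 1) + xp j 1 = b := by
      funext i
      by_cases hi : i = j
      · subst hi
        simp [xp]
        omega
      · simp [xp, hi]
    have hdeg : deg (b - xp j 1) = m := by
      have h3 : deg ((b - xp j 1) + xp j 1) = deg b := by rw [e]
      rw [deg_add, deg_xp] at h3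
      omega
    refine ih (b - xp j 1) hdeg (hsat j m _ ?_ ?_)
    · rw [← hdeg]; exact hom_single _
    · rw [sh_single, e]; exact h

end UNI

open UNI

theorem UNI_thm (h1 : STP_Stmt) (h2 : DIM_Stmt) : UNI_Stmt := by
  intro K _ _ n J hJ
  rcases Nat.eq_zero_or_pos n with hn | hn
  · subst hn
    refine ⟨0, fun w d G a hG hGh hs => ⟨G, hG, fun u _ => ?_, ?_⟩⟩
    · simp [deg]
    · have e : (fun _ => 0 : Fin 0 → ℕ) = a := Subsingleton.elim _ _
      rw [e]; exact hs
  · obtain ⟨a, W, hW, hG, -, hsat⟩ := main h1 h2 J hJ ⟨0, hn⟩ Finset.univ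
    refine ⟨Finset.univ.sup a, fun w d G b hGJ hGh hs => ?_⟩
    have hd : deg b = d := hGh b hs.1
    have s1 : Finsupp.single b (1 : K) ∈ InJ w J d := InJ_of_single w J hGJ hGh hs
    have s2 : Finsupp.single b (1 : K) ∈ W w d := by
      rw [hW]
      refine ⟨by rw [← hd]; exact hom_single b, ?_⟩
      exact (gsys_InJ w J hJ).shift d _ s1 a
    have s3 : Finsupp.single 0 (1 : K) ∈ W w 0 :=
      reduce (fun j d F hF h => hsat j (Finset.mem_univ j) w d F hF h) d b hd s2
    rw [hW] at s3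
    have s4 := s3.2
    rw [sh_single, zero_add, zero_add] at s4
    have s5 := (gsys_InJ w J hJ).shift _ _ s4 ((fun _ => Finset.univ.sup a) - a)
    have e1 : a + ((fun _ => Finset.univ.sup a) - a) = fun _ => Finset.univ.sup a := by
      funext i
      have : a i ≤ Finset.univ.sup a := Finset.le_sup (Finset.mem_univ i)
      show a i + (Finset.univ.sup a - a i) = Finset.univ.sup a
      omega
    have e2 : deg a + deg ((fun _ => Finset.univ.sup a) - a) = n * Finset.univ.sup a := by
      rw [← deg_add, e1]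
      simp [deg]
    rw [sh_single, e1, e2] at s5
    exact single_of_InJ w J s5

end Pool.Agent.TD.BG
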