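import Pool.Agent.TD.BG.MAC
import Pool.Agent.TD.BG.ORT
import Pool.Agent.TD.BG.CNT
import Pool.Agent.TD.BG.DIM
import Pool.Agent.TD.BG.STP
import Pool.Agent.TD.BG.UNI
import Pool.Agent.TD.BG.CIR
import Pool.Agent.TD.BG.FTB
import Pool.Agent.TD.BG.TPL
import Pool.Agent.TD.BG.FM1
import Pool.Agent.TD.BG.FM
import Pool.Agent.TD.BG.PLB
import Pool.Agent.TD.BG.ADH
import Pool.Agent.TD.BG.M3
import Pool.Agent.TD.BG.B1
import Pool.Agent.TD.BG.IDJ
import Pool.Agent.TD.BG.STR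
import Pool.Agent.TD.BG.TOP
import Pool.Agent.TD.BG.BND
import Pool.Agent.TD.BG.EXH
import Pool.Agent.TD.BG.NHD
import Pool.Agent.TD.BG.INT
import Pool.Agent.TD.BG.CUT
import Pool.Agent.TD.BG.SSP
import Pool.Agent.TD.BG.STA

/-!
# Blocks BG and M: the theorems without hypotheses
-/

namespace Pool.Agent.TD.BG

theorem cnt : CNT_Stmt := CNT_thm ORT_thm
theorem dim : DIM_Stmt := DIM_thm ORT_thm
theorem stp : STP_Stmt := STP_thm MAC_thm cnt
theorem uni : UNI_Stmt := UNI_thm stp dim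
theorem ftb : FTB_Stmt := FTB_thm uni CIR_thm
theorem tpl : TPL_Stmt := TPL_thm ftb PLB_thm
theorem fm : FM_Stmt := FM_thm FM1_thm PLB_thm
theorem adh : ADH_Stmt := ADH_thm fm PLB_thm
theorem b1 : B1_Stmt := B1_thm M3_thm
theorem str : STR_Stmt := STR_thm b1
theorem top : TOP_Stmt := TOP_thm
theorem exh : EXH_Stmt := EXH_thm TOP_thm BND_thm
theorem nhd : NHD_Stmt := NHD_thm TOP_thm BND_thm
theorem int : INT_Stmt := INT_thm M3_thm TOP_thm
theorem cut : CUT_Stmt := CUT_thm TOP_thm nhd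
theorem ssp : SSP_Stmt := SSP_thm nhd str IDJ_thm tpl fm PLB_thm adh
theorem sta : STA_Stmt := STA_thm ssp PLB_thm

end Pool.Agent.TD.BG
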