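import Pool.Agent.TD.BG.Stmts

/-!
# Basic lemmas on weighted norms, leading monomials and shifts
-/

open scoped ContDiff Topology NNReal

namespace Pool.Agent.TD.BG

section nrm

variable {K E : Type} [NormedField K] {wt : E → ℝ≥0}

theorem le_nrm (F : E →₀ K) (u : E) : ‖F u‖₊ * wt u ≤ nrm wt F := by
  by_cases h : F u = 0
  · simp [h]
  · exact Finset.le_sup (f := fun u => ‖F u‖₊ * wt u) (Finsupp.mem_support_iff.2 h)

theorem nrm_le_iff {F : E →₀ K} {c : ℝ≥0} : nrm wt F ≤ c ↔ ∀ u, ‖F u‖₊ * wt u ≤ c :=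
  ⟨fun h u => (le_nrm F u).trans h, fun h => Finset.sup_le fun u _ => h u⟩

theorem nrm_lt_iff {F : E →₀ K} {c : ℝ≥0} (hc : 0 < c) :
    nrm wt F < c ↔ ∀ u, ‖F u‖₊ * wt u < c :=
  ⟨fun h u => (le_nrm F u).trans_lt h, fun h => (Finset.sup_lt_iff hc).2 fun u _ => h u⟩

@[simp] theorem nrm_zero : nrm wt (0 : E →₀ K) = 0 := by simp [nrm]

theorem nrm_eq_zero (hwt : ∀ u, 0 < wt u) {F : E →₀ K} : nrm wt F = 0 ↔ F = 0 := by
  constructor
  · intro h
    ext u
    have h1 := le_nrm (wt := wt) F u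
    rw [h, nonpos_iff_eq_zero, mul_eq_zero] at h1
    rcases h1 with h1 | h1
    · simpa using h1
    · exact absurd h1 (hwt u).ne'
  · rintro rfl; simp

theorem nrm_pos (hwt : ∀ u, 0 < wt u) {F : E →₀ K} (hF : F ≠ 0) : 0 < nrm wt F :=
  pos_iff_ne_zero.2 fun h => hF ((nrm_eq_zero hwt).1 h)

theorem nrm_neg (F : E →₀ K) : nrm wt (-F) = nrm wt F := by
  apply le_antisymm <;> rw [nrm_le_iff] <;> intro u
  · have := le_nrm (wt := wt) F u
    simpa using this
  · have := le_nrm (wt := wt) (-F) u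
    simpa using this

theorem nrm_sub_comm (F G : E →₀ K) : nrm wt (F - G) = nrm wt (G - F) := by
  rw [← nrm_neg, neg_sub]

theorem nrm_smul (c : K) (F : E →₀ K) : nrm wt (c • F) = ‖c‖₊ * nrm wt F := by
  by_cases hc : c = 0
  · subst hc; simp
  have key : ∀ (c : K) (F : E →₀ K), nrm wt (c • F) ≤ ‖c‖₊ * nrm wt F := by
    intro c F
    rw [nrm_le_iff]
    intro u
    rw [Finsupp.smul_apply, smul_eq_mul, nnnorm_mul, mul_assoc]
    exact mul_le_mul_right (le_nrm F u) _
  apply le_antisymm (key c F)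
  have h1 := key c⁻¹ (c • F)
  rw [smul_smul, inv_mul_cancel₀ hc, one_smul, nnnorm_inv] at h1
  have hc' : ‖c‖₊ ≠ 0 := by simpa using hc
  calc ‖c‖₊ * nrm wt F ≤ ‖c‖₊ * (‖c‖₊⁻¹ * nrm wt (c • F)) := mul_le_mul_right h1 _
    _ = nrm wt (c • F) := by rw [← mul_assoc, mul_inv_cancel₀ hc', one_mul]

theorem nrm_add_le [IsUltrametricDist K] (F G : E →₀ K) :
    nrm wt (F + G) ≤ max (nrm wt F) (nrm wt G) := by
  rw [nrm_le_iff]
  intro u
  rw [Finsupp.add_apply]
  have h1 : ‖F u + G u‖₊ ≤ max ‖F u‖₊ ‖G u‖₊ := IsUltrametricDist.nnnorm_add_le_max _ _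
  calc ‖F u + G u‖₊ * wt u ≤ max ‖F u‖₊ ‖G u‖₊ * wt u := mul_le_mul_left h1 _
    _ = max (‖F u‖₊ * wt u) (‖G u‖₊ * wt u) := max_mul _ _ _
    _ ≤ _ := max_le_max (le_nrm F u) (le_nrm G u)

theorem nrm_sub_le [IsUltrametricDist K] (F G : E →₀ K) :
    nrm wt (F - G) ≤ max (nrm wt F) (nrm wt G) := by
  rw [sub_eq_add_neg, ← nrm_neg (wt := wt) G]
  exact nrm_add_le _ _

/-- elements which are close have the same norm -/
theorem nrm_eq_of_approx [IsUltrametricDist K] {F G : E →₀ K}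
    (h : nrm wt (F - G) < nrm wt F) : nrm wt G = nrm wt F := by
  apply le_antisymm
  · have h1 : G = F - (F - G) := by abel
    rw [h1]
    refine (nrm_sub_le _ _).trans (max_le le_rfl h.le)
  · by_contra hcon
    push Not at hcon
    have h1 : F = (F - G) + G := by abel
    have h2 : nrm wt F ≤ max (nrm wt (F - G)) (nrm wt G) := by
      conv_lhs => rw [h1]
      exact nrm_add_le _ _
    exact absurd h2 (not_le.2 (max_lt h hcon))

theorem exists_nrm_eq {F : E →₀ K} (hF : F ≠ 0) :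
    ∃ u, F u ≠ 0 ∧ ‖F u‖₊ * wt u = nrm wt F := by
  have hne : F.support.Nonempty := Finsupp.support_nonempty_iff.2 hF
  obtain ⟨u, hu, h⟩ := Finset.exists_mem_eq_sup F.support hne fun u => ‖F u‖₊ * wt u
  exact ⟨u, Finsupp.mem_support_iff.1 hu, h.symm⟩

theorem nrm_sum_le [IsUltrametricDist K] {ι : Type} (s : Finset ι) (G : ι → E →₀ K) :
    nrm wt (∑ j ∈ s, G j) ≤ s.sup fun j => nrm wt (G j) := by
  classical
  induction s using Finset.induction_on with
  | empty => simp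
  | insert i s hi ih =>
    rw [Finset.sum_insert hi, Finset.sup_insert]
    exact (nrm_add_le _ _).trans (max_le_max le_rfl ih)

/-! ### Leading monomials -/

theorem IsLM.nrm_eq {r : E → E → Prop} {F : E →₀ K} {u : E} (h : IsLM wt r F u) :
    nrm wt F = ‖F u‖₊ * wt u := by
  apply le_antisymm _ (le_nrm F u)
  rw [nrm_le_iff]
  intro u'
  by_cases hu : u' = u
  · rw [hu]
  · exact (h.2 u' hu).1

theorem IsLM.unique {r : E → E → Prop} [IsStrictTotalOrder E r] {F : E →₀ K} {u u' : E}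
    (h : IsLM wt r F u) (h' : IsLM wt r F u') : u = u' := by
  by_contra hne
  rcases trichotomous_of r u u' with h1 | h1 | h1
  · have h2 := (h.2 u' (Ne.symm hne)).2 h1
    rw [← h.nrm_eq, ← h'.nrm_eq] at h2
    exact lt_irrefl _ h2
  · exact hne h1
  · have h2 := (h'.2 u hne).2 h1
    rw [← h.nrm_eq, ← h'.nrm_eq] at h2
    exact lt_irrefl _ h2

theorem exists_isLM (hwt : ∀ u, 0 < wt u) (r : E → E → Prop) [IsStrictTotalOrder E r]
    {F : E →₀ K} (hF : F ≠ 0) : ∃ u, IsLM wt r F u := by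
  classical
  obtain ⟨u0, hu0, hu0'⟩ := exists_nrm_eq (wt := wt) hF
  have hpos := nrm_pos hwt hF
  let S : Finset E := F.support.filter fun u => ‖F u‖₊ * wt u = nrm wt F
  have hS0 : u0 ∈ S := by simp [S, hu0, hu0']
  obtain ⟨u, hu, hmax⟩ : ∃ u ∈ S, ∀ u' ∈ S, ¬ r u u' := by
    have hwf : (S : Set E).WellFoundedOn (Function.swap r) :=
      Set.Finite.wellFoundedOn (r := Function.swap r) (S.finite_toSet)
    obtain ⟨u, hu⟩ := WellFounded.has_min hwf Set.univ ⟨⟨u0, hS0⟩, trivial⟩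
    exact ⟨u.1, u.2, fun u' hu' => hu.2 ⟨u', hu'⟩ trivial⟩
  have hu1 : F u ≠ 0 ∧ ‖F u‖₊ * wt u = nrm wt F := by simpa [S] using hu
  refine ⟨u, hu1.1, fun u' hne => ⟨?_, fun hr => ?_⟩⟩
  · rw [hu1.2]; exact le_nrm F u'
  · rw [hu1.2]
    refine lt_of_le_of_ne (le_nrm F u') fun heq => ?_
    by_cases h0 : F u' = 0
    · rw [h0, nnnorm_zero, zero_mul] at heq
      exact hpos.ne heq
    · exact hmax u' (by simp [S, h0, heq]) hr

/-- approximation does not change the leading monomial -/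
theorem IsLM.of_approx [IsUltrametricDist K] {r : E → E → Prop} {F G : E →₀ K} {u : E}
    (h : IsLM wt r F u) (hFG : nrm wt (F - G) < nrm wt F) : IsLM wt r G u := by
  have hGF : nrm wt G = nrm wt F := nrm_eq_of_approx hFG
  have hu : ‖G u‖₊ * wt u = ‖F u‖₊ * wt u := by
    apply le_antisymm
    · rw [← h.nrm_eq, ← hGF]; exact le_nrm G u
    · by_contra hcon
      push Not at hcon
      have h1 : ‖F u‖₊ ≤ max ‖(F - G) u‖₊ ‖G u‖₊ := by
        have : F u = (F - G) u + G u := by simp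
        rw [this]
        exact IsUltrametricDist.nnnorm_add_le_max _ _
      have h2 : ‖F u‖₊ * wt u ≤ max (‖(F - G) u‖₊ * wt u) (‖G u‖₊ * wt u) := by
        rw [← max_mul]; exact mul_le_mul_left h1 _
      have h3 : ‖(F - G) u‖₊ * wt u < ‖F u‖₊ * wt u := by
        rw [← h.nrm_eq]; exact (le_nrm _ u).trans_lt hFG
      exact absurd h2 (not_le.2 (max_lt h3 hcon))
  have hpos : 0 < ‖F u‖₊ * wt u := by
    rw [← h.nrm_eq]; exact pos_of_gt hFG
  refine ⟨fun h0 => ?_, fun u' hne => ?_⟩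
  · rw [h0, nnnorm_zero, zero_mul] at hu
    exact hpos.ne hu
  · rw [hu, ← h.nrm_eq]
    refine ⟨by rw [← hGF]; exact le_nrm G u', fun hr => ?_⟩
    have h1 := (h.2 u' hne).2 hr
    rw [← h.nrm_eq] at h1
    have h2 : ‖G u'‖₊ ≤ max ‖F u'‖₊ ‖(F - G) u'‖₊ := by
      have : G u' = F u' - (F - G) u' := by simp
      rw [this, sub_eq_add_neg, ← nnnorm_neg ((F - G) u')]
      exact IsUltrametricDist.nnnorm_add_le_max _ _
    calc ‖G u'‖₊ * wt u' ≤ max (‖F u'‖₊ * wt u') (‖(F - G) u'‖₊ * wt u') := by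
          rw [← max_mul]; exact mul_le_mul_left h2 _
      _ < nrm wt F := max_lt h1 ((le_nrm _ u').trans_lt hFG)

theorem Single.isLM {r : E → E → Prop} {F : E →₀ K} {u : E} (h : Single wt F u) :
    IsLM wt r F u := ⟨h.1, fun u' hne => ⟨(h.2 u' hne).le, fun _ => h.2 u' hne⟩⟩

end nrm

/-! ### Shifts -/

section sh

variable {K : Type} [NormedField K] {n : ℕ}

theorem sh_apply_add (a : Fin n → ℕ) (F : (Fin n → ℕ) →₀ K) (u : Fin n → ℕ) :
    sh a F (u + a) = F u := Finsupp.mapDomain_apply (add_left_injective a) F u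

theorem sh_apply_of_not_le {a : Fin n → ℕ} (F : (Fin n → ℕ) →₀ K) {u : Fin n → ℕ}
    (h : ¬ a ≤ u) : sh a F u = 0 := by
  apply Finsupp.mapDomain_of_notMem_range
  rintro ⟨v, rfl⟩
  exact h (by intro i; simp)

theorem sh_ne_zero {a : Fin n → ℕ} {F : (Fin n → ℕ) →₀ K} {u : Fin n → ℕ}
    (h : sh a F u ≠ 0) : ∃ v, u = v + a ∧ F v ≠ 0 := by
  have h1 : a ≤ u := by
    by_contra h2
    exact h (sh_apply_of_not_le F h2)
  refine ⟨u - a, (tsub_add_cancel_of_le h1).symm, ?_⟩
  rwa [← sh_apply_add a F (u - a), tsub_add_cancel_of_le h1]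

theorem sh_add (a : Fin n → ℕ) (F G : (Fin n → ℕ) →₀ K) : sh a (F + G) = sh a F + sh a G :=
  Finsupp.mapDomain_add

theorem sh_smul (a : Fin n → ℕ) (c : K) (F : (Fin n → ℕ) →₀ K) : sh a (c • F) = c • sh a F :=
  Finsupp.mapDomain_smul _ _

theorem sh_sub (a : Fin n → ℕ) (F G : (Fin n → ℕ) →₀ K) : sh a (F - G) = sh a F - sh a G := by
  have h1 : sh a (F - G) + sh a G = sh a F := by rw [← sh_add, sub_add_cancel]
  rw [← h1]; abel

theorem sh_sh (a b : Fin n → ℕ) (F : (Fin n → ℕ) →₀ K) : sh a (sh b F) = sh (b + a) F := by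
  unfold sh
  rw [← Finsupp.mapDomain_comp]
  congr 1
  funext u
  simp [add_assoc]

theorem sh_zero (F : (Fin n → ℕ) →₀ K) : sh 0 F = F := by
  unfold sh
  simp only [add_zero]
  exact Finsupp.mapDomain_id

theorem sh_eq_zero {a : Fin n → ℕ} {F : (Fin n → ℕ) →₀ K} : sh a F = 0 ↔ F = 0 := by
  constructor
  · intro h
    ext u
    rw [← sh_apply_add a F u, h]; rfl
  · rintro rfl
    exact Finsupp.mapDomain_zero

theorem wtN_pos (w : Fin n → ℝ) (u : Fin n → ℕ) : 0 < wtN w u := Real.exp_pos _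

theorem wtN_add (w : Fin n → ℝ) (u v : Fin n → ℕ) : wtN w (u + v) = wtN w u * wtN w v := by
  apply NNReal.eq
  show Real.exp _ = Real.exp _ * Real.exp _
  rw [← Real.exp_add, ← Finset.sum_add_distrib]
  congr 1
  exact Finset.sum_congr rfl fun i _ => by simp [add_mul]

theorem nrm_sh (w : Fin n → ℝ) (a : Fin n → ℕ) (F : (Fin n → ℕ) →₀ K) :
    nrm (wtN w) (sh a F) = wtN w a * nrm (wtN w) F := by
  apply le_antisymm
  · rw [nrm_le_iff]
    intro u
    by_cases h : sh a F u = 0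
    · simp [h]
    · obtain ⟨v, rfl, -⟩ := sh_ne_zero h
      rw [sh_apply_add, wtN_add, mul_comm (wtN w v), mul_left_comm]
      exact mul_le_mul_right (le_nrm F v) _
  · by_cases hF : F = 0
    · subst hF; simp
    obtain ⟨v, -, hv⟩ := exists_nrm_eq (wt := wtN w) hF
    rw [← hv, mul_left_comm, mul_comm (wtN w a), ← wtN_add, ← sh_apply_add a F v]
    exact le_nrm _ _

theorem nrm_sh_lt {w : Fin n → ℝ} {a : Fin n → ℕ} {F G : (Fin n → ℕ) →₀ K} :
    nrm (wtN w) (sh a F - sh a G) < nrm (wtN w) (sh a F) ↔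
      nrm (wtN w) (F - G) < nrm (wtN w) F := by
  rw [← sh_sub, nrm_sh, nrm_sh]
  exact mul_lt_mul_iff_right₀ (wtN_pos w a)

theorem deg_add (u v : Fin n → ℕ) : deg (u + v) = deg u + deg v := by
  simp [deg, Finset.sum_add_distrib]

theorem deg_xp (i : Fin n) (k : ℕ) : deg (xp i k) = k := by
  simp [deg, xp]

theorem hom_sh {a : Fin n → ℕ} {d : ℕ} {F : (Fin n → ℕ) →₀ K} (h : Hom d F) :
    Hom (d + deg a) (sh a F) := by
  intro u hu
  obtain ⟨v, rfl, hv⟩ := sh_ne_zero hu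
  rw [deg_add, h v hv]

theorem finite_deg (n d : ℕ) : {u : Fin n → ℕ | deg u = d}.Finite := by
  refine (Set.finite_Iic (fun _ : Fin n => d)).subset ?_
  intro u hu i
  have h1 : u i ≤ ∑ j, u j := Finset.single_le_sum (f := u) (fun _ _ => Nat.zero_le _)
    (Finset.mem_univ i)
  exact h1.trans (le_of_eq hu)

instance ord_sto (i : Fin n) : IsStrictTotalOrder (Fin n → ℕ) (ord i) where
  trichotomous u u' h1 h2 := by
    by_contra hne
    unfold ord at h1 h2
    push Not at h1 h2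
    have h3 : u i = u' i := le_antisymm h1.1 h2.1
    have h4 : ¬ toLex u < toLex u' := h1.2 h3
    have h5 : ¬ toLex u' < toLex u := h2.2 h3.symm
    exact hne (toLex.injective (le_antisymm (not_lt.1 h5) (not_lt.1 h4)))
  irrefl u h := by
    rcases h with h | h
    · exact lt_irrefl _ h
    · exact lt_irrefl _ h.2
  trans u v w h1 h2 := by
    rcases h1 with h1 | h1 <;> rcases h2 with h2 | h2
    · exact Or.inl (h2.trans h1)
    · exact Or.inl (by rw [← h2.1]; exact h1)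
    · exact Or.inl (by rw [h1.1]; exact h2)
    · exact Or.inr ⟨h1.1.trans h2.1, h1.2.trans h2.2⟩

theorem ord_add (i : Fin n) (u v a : Fin n → ℕ) : ord i (u + a) (v + a) ↔ ord i u v := by
  unfold ord
  have h1 : (toLex (u + a) < toLex (v + a)) ↔ toLex u < toLex v := by
    rw [toLex_add, toLex_add]
    exact add_lt_add_iff_right _
  rw [h1]
  simp

theorem isLM_sh {w : Fin n → ℝ} {i : Fin n} {a u : Fin n → ℕ} {F : (Fin n → ℕ) →₀ K} :
    IsLM (wtN w) (ord i) (sh a F) (u + a) ↔ IsLM (wtN w) (ord i) F u := by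
  unfold IsLM
  rw [sh_apply_add]
  refine and_congr_right fun hFu => ?_
  have hpos := wtN_pos w a
  constructor
  · intro h u' hne
    have h1 := h (u' + a) (fun h2 => hne (add_right_cancel h2))
    rw [sh_apply_add, ord_add, wtN_add, wtN_add, ← mul_assoc, ← mul_assoc] at h1
    exact ⟨(mul_le_mul_iff_left₀ hpos).1 h1.1, fun hr => (mul_lt_mul_iff_left₀ hpos).1 (h1.2 hr)⟩
  · intro h u' hne
    by_cases h0 : sh a F u' = 0
    · rw [h0, nnnorm_zero, zero_mul]
      refine ⟨bot_le, fun hr => ?_⟩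
      exact mul_pos (by simpa using hFu) (wtN_pos _ _)
    · obtain ⟨v, rfl, -⟩ := sh_ne_zero h0
      have hne' : v ≠ u := fun h2 => hne (by rw [h2])
      rw [sh_apply_add, ord_add, wtN_add, wtN_add, ← mul_assoc, ← mul_assoc]
      exact ⟨(mul_le_mul_iff_left₀ hpos).2 (h v hne').1,
        fun hr => (mul_lt_mul_iff_left₀ hpos).2 ((h v hne').2 hr)⟩

/-- initial forms of a shift invariant subspace form a graded system -/
theorem gsys_InJ [IsUltrametricDist K] (w : Fin n → ℝ) (J : Submodule K ((Fin n → ℕ) →₀ K))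
    (hJ : ∀ F ∈ J, ∀ a, sh a F ∈ J) : GSys w (InJ w J) where
  gsub d := {
    ne := fun F hF => hF.1
    mon := fun F hF => hF.2.1
    approx := by
      rintro F ⟨hF0, hFh, G, hG, hGh, hFG⟩ F' hF' hlt
      have h1 : nrm (wtN w) F' = nrm (wtN w) F := nrm_eq_of_approx hlt
      refine ⟨?_, hF', G, hG, hGh, ?_⟩
      · rintro rfl
        rw [nrm_zero] at h1
        exact hF0 ((nrm_eq_zero (wtN_pos w)).1 h1.symm)
      · have h2 : F' - G = (F - G) - (F - F') := by abel
        rw [h2, h1]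
        exact (nrm_sub_le _ _).trans_lt (max_lt hFG hlt)
    add := by
      rintro F ⟨hF0, hFh, G, hG, hGh, hFG⟩ F' ⟨hF0', hFh', G', hG', hGh', hFG'⟩ h1 h2
      refine ⟨?_, ?_, G + G', J.add_mem hG hG', ?_, ?_⟩
      · intro h3
        rw [h3, nrm_zero] at h2
        exact hF0 ((nrm_eq_zero (wtN_pos w)).1 h2.symm)
      · intro u hu
        by_contra hne
        have a1 : F u = 0 := by by_contra h; exact hne (hFh u h)
        have a2 : F' u = 0 := by by_contra h; exact hne (hFh' u h)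
        exact hu (by simp [a1, a2])
      · intro u hu
        by_contra hne
        have a1 : G u = 0 := by by_contra h; exact hne (hGh u h)
        have a2 : G' u = 0 := by by_contra h; exact hne (hGh' u h)
        exact hu (by simp [a1, a2])
      · have h3 : F + F' - (G + G') = (F - G) + (F' - G') := by abel
        rw [h3, h2]
        exact (nrm_add_le _ _).trans_lt (max_lt hFG (by rw [h1]; exact hFG'))
    smul := by
      rintro c hc F ⟨hF0, hFh, G, hG, hGh, hFG⟩
      refine ⟨smul_ne_zero hc hF0, ?_, c • G, J.smul_mem c hG, ?_, ?_⟩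
      · intro u hu
        exact hFh u fun h => hu (by simp [h])
      · intro u hu
        exact hGh u fun h => hu (by simp [h])
      · rw [← smul_sub, nrm_smul, nrm_smul]
        exact (mul_lt_mul_iff_right₀ (by simpa using hc)).2 hFG }
  shift := by
    rintro d F ⟨hF0, hFh, G, hG, hGh, hFG⟩ a
    exact ⟨fun h => hF0 (sh_eq_zero.1 h), hom_sh hFh, sh a G, hJ G hG a, hom_sh hGh,
      nrm_sh_lt.2 hFG⟩

end sh

end Pool.Agent.TD.BG
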