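import Pool.Agent.TD.Defs

/-!
# Blocks BG (local structure of tropicalizations) and M (Berkovich spectra): definitions
-/

open scoped ContDiff Topology NNReal

namespace Pool.Agent.TD.BG

/-! ### Weighted sup norms on finitely supported functions -/

/-- The weighted sup norm of a finitely supported function. -/
noncomputable def nrm {K E : Type} [NormedField K] (wt : E → ℝ≥0) (F : E →₀ K) : ℝ≥0 :=
  F.support.sup fun u => ‖F u‖₊ * wt u

/-- `F` is single at `wt`, with leading monomial `u`. -/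
def Single {K E : Type} [NormedField K] (wt : E → ℝ≥0) (F : E →₀ K) (u : E) : Prop :=
  F u ≠ 0 ∧ ∀ u', u' ≠ u → ‖F u'‖₊ * wt u' < ‖F u‖₊ * wt u

/-- `u` is the leading monomial of `F` for the strict total order `r`: among the monomials of
maximal weighted absolute value it is the largest one. -/
def IsLM {K E : Type} [NormedField K] (wt : E → ℝ≥0) (r : E → E → Prop) (F : E →₀ K) (u : E) :
    Prop :=
  F u ≠ 0 ∧ ∀ u', u' ≠ u → ‖F u'‖₊ * wt u' ≤ ‖F u‖₊ * wt u ∧
    (r u u' → ‖F u'‖₊ * wt u' < ‖F u‖₊ * wt u)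

/-- `W` is (the set of representatives of the non-zero homogeneous elements of) a graded subspace
of the graded reduction of the space of functions supported on `M`. -/
structure GSub {K E : Type} [NormedField K] (wt : E → ℝ≥0) (M : Set E) (W : Set (E →₀ K)) :
    Prop where
  ne : ∀ F ∈ W, F ≠ 0
  mon : ∀ F ∈ W, ∀ u, F u ≠ 0 → u ∈ M
  approx : ∀ F ∈ W, ∀ G : E →₀ K, (∀ u, G u ≠ 0 → u ∈ M) → nrm wt (F - G) < nrm wt F → G ∈ W
  add : ∀ F ∈ W, ∀ G ∈ W, nrm wt F = nrm wt G → nrm wt (F + G) = nrm wt F → F + G ∈ W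
  smul : ∀ c : K, c ≠ 0 → ∀ F ∈ W, c • F ∈ W

/-- Total degree of an exponent. -/
def deg {n : ℕ} (u : Fin n → ℕ) : ℕ := ∑ i, u i

/-- The weight `exp <u, w>` of the monomial `u`. -/
noncomputable def wtN {n : ℕ} (w : Fin n → ℝ) (u : Fin n → ℕ) : ℝ≥0 :=
  ⟨Real.exp (∑ i, (u i : ℝ) * w i), (Real.exp_pos _).le⟩

/-- Multiplication by the monomial `a`. -/
noncomputable def sh {K : Type} [NormedField K] {n : ℕ} (a : Fin n → ℕ)
    (F : (Fin n → ℕ) →₀ K) : (Fin n → ℕ) →₀ K :=
  F.mapDomain fun u => u + a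

/-- The monomial `x_i^k`. -/
def xp {n : ℕ} (i : Fin n) (k : ℕ) : Fin n → ℕ := Pi.single i k

/-- `F` is homogeneous of degree `d`. -/
def Hom {K : Type} [NormedField K] {n : ℕ} (d : ℕ) (F : (Fin n → ℕ) →₀ K) : Prop :=
  ∀ u, F u ≠ 0 → deg u = d

/-- A graded system: for every degree `d` a graded subspace `W d` of polynomials homogeneous of
degree `d`, stable under multiplication by monomials. -/
structure GSys {K : Type} [NormedField K] {n : ℕ} (w : Fin n → ℝ)
    (W : ℕ → Set ((Fin n → ℕ) →₀ K)) : Prop where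
  gsub : ∀ d, GSub (wtN w) {u | deg u = d} (W d)
  shift : ∀ d, ∀ F ∈ W d, ∀ a, sh a F ∈ W (d + deg a)

/-- The order on monomials used for the variable `x_i`: a smaller exponent of `x_i` is larger, ties
are decided lexicographically. -/
def ord {n : ℕ} (i : Fin n) (u u' : Fin n → ℕ) : Prop :=
  u' i < u i ∨ (u i = u' i ∧ toLex u < toLex u')

/-- The leading monomials of degree `d` of the system `W`, for the order `ord i`. -/
def LMs {K : Type} [NormedField K] {n : ℕ} (w : Fin n → ℝ) (W : ℕ → Set ((Fin n → ℕ) →₀ K))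
    (i : Fin n) (d : ℕ) : Set (Fin n → ℕ) :=
  {u | ∃ F ∈ W d, IsLM (wtN w) (ord i) F u}

/-- The system of initial forms of the elements of `J`. -/
def InJ {K : Type} [NormedField K] {n : ℕ} (w : Fin n → ℝ)
    (J : Submodule K ((Fin n → ℕ) →₀ K)) (d : ℕ) : Set ((Fin n → ℕ) →₀ K) :=
  {F | F ≠ 0 ∧ Hom d F ∧ ∃ G ∈ J, Hom d G ∧ nrm (wtN w) (F - G) < nrm (wtN w) F}

/-! ### Polyhedra -/

/-- A closed polyhedron in `ℝ^ι`. -/
def IsPolyh {ι : Type} [Fintype ι] (S : Set (ι → ℝ)) : Prop :=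
  ∃ (n : ℕ) (l : Fin n → ι → ℝ) (c : Fin n → ℝ), S = {x | ∀ j, ∑ i, l j i * x i ≤ c j}

/-- A finite union of closed polyhedra. -/
def IsPolyU {ι : Type} [Fintype ι] (S : Set (ι → ℝ)) : Prop :=
  ∃ (n : ℕ) (σ : Fin n → Set (ι → ℝ)), (∀ i, IsPolyh (σ i)) ∧ S = ⋃ i, σ i

/-! ### Laurent polynomials -/

/-- Laurent polynomials over `K` in the variables `ι`. -/
abbrev Laur (K ι : Type) [NormedField K] : Type := AddMonoidAlgebra K (ι → ℤ)

/-- The weight `exp <u, w>` of the Laurent monomial `u`. -/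
noncomputable def wtZ {ι : Type} [Fintype ι] (w : ι → ℝ) (u : ι → ℤ) : ℝ≥0 :=
  ⟨Real.exp (∑ i, (u i : ℝ) * w i), (Real.exp_pos _).le⟩

/-- A Laurent polynomial as a finitely supported function. -/
def co {K ι : Type} [NormedField K] (F : Laur K ι) : (ι → ℤ) →₀ K := F.coeff

/-- The tropicalization of an ideal: no element is single. -/
def Trop {K ι : Type} [NormedField K] [Fintype ι] (I : Ideal (Laur K ι)) : Set (ι → ℝ) :=
  {w | ∀ F ∈ I, ∀ u, ¬ Single (wtZ w) (co F) u}

/-- The variable `T_i`. -/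
noncomputable def var {K ι : Type} [NormedField K] [DecidableEq ι] (i : ι) : Laur K ι :=
  AddMonoidAlgebra.single (Pi.single i 1) 1

/-! ### Berkovich spectra -/

/-- Contravariant functoriality. -/
def comap {K A B : Type} [NormedField K] [CommRing A] [CommRing B] [Algebra K A] [Algebra K B]
    (f : A →ₐ[K] B) (z : Ber K B) : Ber K A where
  v a := z.v (f a)
  nonneg a := z.nonneg _
  one := by rw [map_one, z.one]
  mul a b := by rw [map_mul, z.mul]
  add a b := by rw [map_add]; exact z.add _ _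
  ext c := by rw [AlgHom.commutes, z.ext]

/-- The closed box with centre `z`: `| log|a| - log|a|_z | ≤ ε` for `a ∈ t` with `|a|_z ≠ 0`,
`|a| ≤ δ` for `a ∈ t` with `|a|_z = 0`. -/
def box {K A : Type} [NormedField K] [CommRing A] [Algebra K A] (z : Ber K A) (t : Finset A)
    (ε δ : ℝ) : Set (Ber K A) :=
  {z' | ∀ a ∈ t, (z.v a ≠ 0 → z'.v a ≠ 0 ∧ |Real.log (z'.v a) - Real.log (z.v a)| ≤ ε) ∧
    (z.v a = 0 → z'.v a ≤ δ)}

/-- The stratum of `M(A)` where exactly the functions `a ∈ J` among `a ∈ t` do not vanish. -/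
def stra {K A : Type} [NormedField K] [CommRing A] [Algebra K A] (t J : Finset A) :
    Set (Ber K A) :=
  {z | ∀ a ∈ t, z.v a ≠ 0 ↔ a ∈ J}

/-- The ideal `I_J` of the stratum: Laurent polynomials `F` in the variables `J` such that some
monomial multiple of `F` is a polynomial whose value in `A` is in the ideal generated by
`t - J`. -/
def IJ {K A : Type} [NormedField K] [CommRing A] [Algebra K A] [DecidableEq A]
    (t J : Finset A) (F : Laur K J) : Prop :=
  ∃ (u : J → ℕ) (P : MvPolynomial J K),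
    F * AddMonoidAlgebra.single (fun j => (u j : ℤ)) 1 =
      MvPolynomial.aeval (fun j : J => var j) P ∧
    MvPolynomial.aeval (fun j : J => (j : A)) P ∈ Ideal.span (↑(t \ J) : Set A)

end Pool.Agent.TD.BG
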