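import Pool.Agent.TD.BG.Basic
import Pool.Agent.MldAcc.Core

/-!
# Module MAC: finitely many upper sets with a given counting function
-/

open scoped ContDiff Topology NNReal

namespace Pool.Agent.TD.BG

namespace MAC

/-- An upper set contains everything above its elements. -/
theorem mem_iff {n : ℕ} {E : Set (Fin n → ℕ)} (hE : ∀ u ∈ E, ∀ a, u + a ∈ E) (a : Fin n → ℕ) :
    (∃ b ∈ E, b ≤ a) ↔ a ∈ E := by
  constructor
  · rintro ⟨b, hb, hba⟩
    have h := hE b hb (a - b)
    rwa [add_tsub_cancel_of_le hba] at h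
  · intro h
    exact ⟨a, h, le_rfl⟩

end MAC

theorem MAC_thm : MAC_Stmt := by
  intro n H
  by_contra hcon
  have hinf : {E : Set (Fin n → ℕ) | (∀ u ∈ E, ∀ a, u + a ∈ E) ∧
    ∀ d, Set.ncard {u | u ∈ E ∧ deg u = d} = H d}.Infinite := hcon
  set S := {E : Set (Fin n → ℕ) | (∀ u ∈ E, ∀ a, u + a ∈ E) ∧
    ∀ d, Set.ncard {u | u ∈ E ∧ deg u = d} = H d} with hS
  let f : ℕ ↪ S := hinf.natEmbedding
  let E : ℕ → Set (Fin n → ℕ) := fun k => (f k).1
  have hinj : Function.Injective E := fun k l h => f.injective (Subtype.ext h)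
  have hup : ∀ k, ∀ u ∈ E k, ∀ a, u + a ∈ E k := fun k => (f k).2.1
  have hcard : ∀ k d, Set.ncard {u | u ∈ E k ∧ deg u = d} = H d := fun k => (f k).2.2
  let U : Ultrafilter ℕ := Filter.hyperfilter ℕ
  let L : Set (Fin n → ℕ) := {a | ∀ᶠ i in (U : Filter ℕ), a ∈ E i}
  have hL : ∀ᶠ k in (U : Filter ℕ), L ⊆ E k := by
    filter_upwards [MldAcc.limit_ideal U E] with k hk a ha
    rw [← MAC.mem_iff (hup k) a]
    apply hk a
    have ha' : ∀ᶠ i in (U : Filter ℕ), a ∈ E i := ha
    filter_upwards [ha'] with i hi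
    exact ⟨a, hi, le_rfl⟩
  -- the counting function of the limit
  have hdeg : ∀ d, Set.ncard {u | u ∈ L ∧ deg u = d} = H d := by
    intro d
    have h1 : ∀ᶠ i in (U : Filter ℕ), ∀ u ∈ {u : Fin n → ℕ | deg u = d}, (u ∈ E i ↔ u ∈ L) := by
      rw [Filter.eventually_all_finite (finite_deg n d)]
      intro u _
      by_cases hu : u ∈ L
      · have hu' : ∀ᶠ i in (U : Filter ℕ), u ∈ E i := hu
        filter_upwards [hu'] with i hi
        exact ⟨fun _ => hu, fun _ => hi⟩
      · have hu' : ∀ᶠ i in (U : Filter ℕ), ¬ u ∈ E i := by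
          rw [Ultrafilter.eventually_not]
          exact hu
        filter_upwards [hu'] with i hi
        exact ⟨fun h => absurd h hi, fun h => absurd h hu⟩
    obtain ⟨i, hi⟩ := h1.exists
    rw [← hcard i d]
    congr 1
    ext u
    constructor
    · rintro ⟨h2, h3⟩
      exact ⟨(hi u h3).2 h2, h3⟩
    · rintro ⟨h2, h3⟩
      exact ⟨(hi u h3).1 h2, h3⟩
  have heq : ∀ᶠ k in (U : Filter ℕ), E k = L := by
    filter_upwards [hL] with k hk
    apply Set.Subset.antisymm _ hk
    intro u hu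
    have hfin : {v | v ∈ E k ∧ deg v = deg u}.Finite :=
      (finite_deg n (deg u)).subset fun v hv => hv.2
    have hsub : {v | v ∈ L ∧ deg v = deg u} ⊆ {v | v ∈ E k ∧ deg v = deg u} :=
      fun v hv => ⟨hk hv.1, hv.2⟩
    have h2 := Set.eq_of_subset_of_ncard_le hsub (by rw [hdeg, hcard]) hfin
    have h3 : u ∈ {v | v ∈ E k ∧ deg v = deg u} := ⟨hu, rfl⟩
    rw [← h2] at h3
    exact h3.1
  have hfin : {k | E k = L}.Finite := by
    apply Set.Subsingleton.finite
    intro k hk l hl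
    exact hinj (hk.trans hl.symm)
  exact Filter.notMem_hyperfilter_of_finite hfin heq

end Pool.Agent.TD.BG
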