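import Pool.Agent.TD.BG.Basic

/-!
# The tropicalization of a stratum (module TD_BG_STR)
-/

open scoped ContDiff Topology NNReal

namespace Pool.Agent.TD.BG.STR

section seminorm

variable {K A : Type} [NormedField K] [CommRing A] [Algebra K A] (z : Ber K A)

theorem v_zero : z.v 0 = 0 := by
  have h := z.ext 0
  simpa using h

theorem v_neg_one : z.v (-1) = 1 := by
  have h := z.ext (-1)
  simpa using h

theorem v_neg (a : A) : z.v (-a) = z.v a := by
  rw [neg_eq_neg_one_mul, z.mul, v_neg_one, one_mul]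

theorem v_pow (a : A) (n : ℕ) : z.v (a ^ n) = z.v a ^ n := by
  induction n with
  | zero => simp [z.one]
  | succ n ih => rw [pow_succ, z.mul, ih, pow_succ]

theorem v_prod {ι : Type} (s : Finset ι) (f : ι → A) :
    z.v (∏ i ∈ s, f i) = ∏ i ∈ s, z.v (f i) := by
  classical
  induction s using Finset.induction_on with
  | empty => simp [z.one]
  | insert i s hi ih => rw [Finset.prod_insert hi, z.mul, ih, Finset.prod_insert hi]

theorem v_add_eq_of_zero {a b : A} (h : z.v a = 0) : z.v (a + b) = z.v b := by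
  apply le_antisymm
  · have := z.add a b
    rw [h, max_eq_right (z.nonneg b)] at this
    exact this
  · have := z.add (-a) (a + b)
    rw [v_neg, h, max_eq_right (z.nonneg _)] at this
    simpa using this

theorem v_sum_lt {ι : Type} (s : Finset ι) (f : ι → A) {c : ℝ} (hc : 0 < c)
    (h : ∀ i ∈ s, z.v (f i) < c) : z.v (∑ i ∈ s, f i) < c := by
  classical
  induction s using Finset.induction_on with
  | empty => simpa [v_zero] using hc
  | insert i s hi ih =>
    rw [Finset.sum_insert hi]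
    exact (z.add _ _).trans_lt (max_lt (h i (by simp)) (ih fun j hj => h j (by simp [hj])))

/-- if one term dominates strictly, the sum is non-zero. -/
theorem v_sum_ne_zero {ι : Type} (s : Finset ι) (f : ι → A) {i : ι} (hi : i ∈ s)
    (h0 : z.v (f i) ≠ 0) (h : ∀ j ∈ s, j ≠ i → z.v (f j) < z.v (f i)) :
    z.v (∑ j ∈ s, f j) ≠ 0 := by
  classical
  intro hs
  have hpos : 0 < z.v (f i) := lt_of_le_of_ne (z.nonneg _) (Ne.symm h0)
  have h1 : z.v (∑ j ∈ s.erase i, f j) < z.v (f i) :=
    v_sum_lt z _ _ hpos fun j hj => h j (Finset.mem_of_mem_erase hj) (Finset.ne_of_mem_erase hj)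
  have h2 : f i + ∑ j ∈ s.erase i, f j = ∑ j ∈ s, f j := Finset.add_sum_erase s f hi
  have h3 : z.v (∑ j ∈ s.erase i, f j) = z.v (f i) := by
    have h4 : ∑ j ∈ s.erase i, f j = ∑ j ∈ s, f j + -(f i) := by rw [← h2]; abel
    rw [h4, v_add_eq_of_zero z hs, v_neg]
  exact h1.ne h3

theorem v_span {s : Set A} (hs : ∀ a ∈ s, z.v a = 0) {x : A} (hx : x ∈ Ideal.span s) :
    z.v x = 0 := by
  induction hx using Submodule.span_induction with
  | mem x h => exact hs x h
  | zero => exact v_zero z
  | add x y _ _ hx hy => rw [v_add_eq_of_zero z hx, hy]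
  | smul a x _ hx => rw [smul_eq_mul, z.mul, hx, mul_zero]

end seminorm

section laur

variable {K ι : Type} [NormedField K] [Fintype ι] [DecidableEq ι]

/-- natural exponents as integral exponents -/
def cz (m : ι →₀ ℕ) : ι → ℤ := fun i => (m i : ℤ)

omit [Fintype ι] [DecidableEq ι] in
theorem cz_inj : Function.Injective (cz (ι := ι)) := by
  intro m m' h
  ext i
  have := congrFun h i
  simpa [cz] using this

theorem prod_var_aux (m : ι →₀ ℕ) (s : Finset ι) :
    ∏ i ∈ s, (var i : Laur K ι) ^ m i =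
      AddMonoidAlgebra.single (∑ i ∈ s, m i • Pi.single i (1 : ℤ)) 1 := by
  induction s using Finset.induction_on with
  | empty => simp [AddMonoidAlgebra.one_def]
  | insert i s hi ih =>
    rw [Finset.prod_insert hi, ih, Finset.sum_insert hi, var, AddMonoidAlgebra.single_pow,
      AddMonoidAlgebra.single_mul_single]
    simp

theorem prod_var (m : ι →₀ ℕ) :
    ∏ i, (var i : Laur K ι) ^ m i = AddMonoidAlgebra.single (cz m) 1 := by
  rw [prod_var_aux]
  congr 1
  ext j
  simp [cz, Finset.sum_apply, Pi.single_apply]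

theorem aeval_var (P : MvPolynomial ι K) :
    MvPolynomial.aeval (fun i : ι => (var i : Laur K ι)) P =
      ∑ m ∈ P.support, AddMonoidAlgebra.single (cz m) (P.coeff m) := by
  rw [MvPolynomial.aeval_def, MvPolynomial.eval₂_eq']
  refine Finset.sum_congr rfl fun m _ => ?_
  rw [prod_var, AddMonoidAlgebra.coe_algebraMap]
  simp [AddMonoidAlgebra.single_mul_single]

theorem coeff_aeval_var (P : MvPolynomial ι K) (m : ι →₀ ℕ) :
    (MvPolynomial.aeval (fun i : ι => (var i : Laur K ι)) P).coeff (cz m) = P.coeff m := by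
  classical
  rw [aeval_var, AddMonoidAlgebra.coeff_sum, Finsupp.finsetSum_apply]
  simp only [AddMonoidAlgebra.coeff_single, Finsupp.single_apply, cz_inj.eq_iff]
  rw [Finset.sum_ite_eq' P.support m]
  split_ifs with h
  · rfl
  · exact (MvPolynomial.notMem_support_iff.1 h).symm

theorem exists_of_coeff_aeval_var {P : MvPolynomial ι K} {u : ι → ℤ}
    (h : (MvPolynomial.aeval (fun i : ι => (var i : Laur K ι)) P).coeff u ≠ 0) :
    ∃ m, u = cz m := by
  classical
  by_contra hcon
  push Not at hcon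
  apply h
  rw [aeval_var, AddMonoidAlgebra.coeff_sum, Finsupp.finsetSum_apply]
  refine Finset.sum_eq_zero fun m _ => ?_
  rw [AddMonoidAlgebra.coeff_single, Finsupp.single_apply, if_neg (fun h1 => hcon m h1.symm)]

omit [DecidableEq ι] in
theorem wtZ_pos (w : ι → ℝ) (u : ι → ℤ) : 0 < wtZ w u := Real.exp_pos _

omit [DecidableEq ι] in
theorem wtZ_add (w : ι → ℝ) (u v : ι → ℤ) : wtZ w (u + v) = wtZ w u * wtZ w v := by
  apply NNReal.eq
  show Real.exp _ = Real.exp _ * Real.exp _
  rw [← Real.exp_add, ← Finset.sum_add_distrib]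
  congr 1
  exact Finset.sum_congr rfl fun i _ => by simp [add_mul]

/-- A multiple of a single Laurent polynomial by a monomial is single. -/
theorem single_shift {w : ι → ℝ} {F : Laur K ι} {u : ι → ℤ} (h : Single (wtZ w) (co F) u)
    (a : ι → ℤ) : Single (wtZ w) (co (F * AddMonoidAlgebra.single a 1)) (u + a) := by
  have key : ∀ v, (F * AddMonoidAlgebra.single a 1).coeff (v + a) = F.coeff v := by
    intro v
    rw [AddMonoidAlgebra.coeff_mul_single_add]
    simp
  refine ⟨?_, ?_⟩
  · show (F * AddMonoidAlgebra.single a 1).coeff (u + a) ≠ 0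
    rw [key]
    exact h.1
  · intro u' hne
    have h1 : u' = (u' - a) + a := by abel
    have h2 : u' - a ≠ u := fun h3 => hne (by rw [← h3]; abel)
    have h3 := h.2 (u' - a) h2
    show ‖(F * AddMonoidAlgebra.single a 1).coeff u'‖₊ * wtZ w u' <
      ‖(F * AddMonoidAlgebra.single a 1).coeff (u + a)‖₊ * wtZ w (u + a)
    rw [key, h1, key, wtZ_add, wtZ_add, ← mul_assoc, ← mul_assoc]
    exact (mul_lt_mul_iff_left₀ (wtZ_pos w a)).2 h3

end laur

section main

variable {K A : Type} [NormedField K] [CommRing A] [Algebra K A] [DecidableEq A]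

/-- the value of a monomial -/
theorem v_mon {ι : Type} [Fintype ι] (z : Ber K A) (g : ι → A) (hg : ∀ i, z.v (g i) ≠ 0) (c : K)
    (m : ι →₀ ℕ) : z.v (algebraMap K A c * ∏ i, g i ^ m i) =
      ((‖c‖₊ * wtZ (fun i => Real.log (z.v (g i))) (cz m) : ℝ≥0) : ℝ) := by
  rw [z.mul, z.ext, v_prod]
  rw [NNReal.coe_mul, coe_nnnorm]
  congr 1
  show _ = Real.exp _
  rw [Real.exp_sum]
  refine Finset.prod_congr rfl fun i _ => ?_
  have hpos : 0 < z.v (g i) := lt_of_le_of_ne (z.nonneg _) (Ne.symm (hg i))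
  rw [v_pow]
  simp only [cz, Int.cast_natCast]
  rw [← Real.log_pow, Real.exp_log (pow_pos hpos _)]

theorem sub1 (t J : Finset A) (hJ : J ⊆ t) (I : Ideal (Laur K J))
    (hI : ∀ F, F ∈ I ↔ IJ t J F) (z : Ber K A) (hz : z ∈ stra t J) :
    (berLS K A).trop J z ∈ Trop I := by
  intro F hF u hs
  obtain ⟨u', P, h1, h2⟩ := (hI F).1 hF
  have h3 := single_shift hs (fun j => (u' j : ℤ))
  rw [h1] at h3
  have hne : ∀ j : J, z.v (j : A) ≠ 0 := fun j => (hz j (hJ j.2)).2 j.2
  have h0 : z.v (MvPolynomial.aeval (fun j : J => (j : A)) P) = 0 := by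
    refine v_span z ?_ h2
    intro a ha
    have ha' : a ∈ t ∧ a ∉ J := by simpa using ha
    by_contra hcon
    exact ha'.2 ((hz a ha'.1).1 hcon)
  obtain ⟨m0, hm0⟩ := exists_of_coeff_aeval_var h3.1
  have hw : (berLS K A).trop J z = fun j : J => Real.log (z.v (j : A)) := rfl
  rw [hw] at h3
  rw [hm0] at h3
  have h4 : P.coeff m0 ≠ 0 := by
    rw [← coeff_aeval_var]
    exact h3.1
  have h5 : ∀ m, m ≠ m0 → ‖P.coeff m‖₊ * wtZ (fun j : J => Real.log (z.v (j : A))) (cz m) <
      ‖P.coeff m0‖₊ * wtZ (fun j : J => Real.log (z.v (j : A))) (cz m0) := by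
    intro m hm
    have h6 := h3.2 (cz m) (fun h => hm (cz_inj h))
    rw [← coeff_aeval_var P m, ← coeff_aeval_var P m0]
    exact h6
  rw [MvPolynomial.aeval_def, MvPolynomial.eval₂_eq'] at h0
  refine v_sum_ne_zero z P.support _ (i := m0) (by simpa using h4) ?_ ?_ h0
  · rw [v_mon z (fun j : J => (j : A)) hne]
    have h7 : ‖P.coeff m0‖₊ ≠ 0 := by simpa using h4
    have h8 := (wtZ_pos (fun j : J => Real.log (z.v (j : A))) (cz m0)).ne'
    exact_mod_cast mul_ne_zero h7 h8
  · intro m _ hm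
    rw [v_mon z (fun j : J => (j : A)) hne, v_mon z (fun j : J => (j : A)) hne]
    exact_mod_cast h5 m hm

/-- the map of polynomials to Laurent polynomials -/
noncomputable def hh (K : Type) [NormedField K] (t J : Finset A) :
    MvPolynomial t K →ₐ[K] Laur K J :=
  MvPolynomial.aeval fun a : t => if h : (a : A) ∈ J then var ⟨a, h⟩ else 0

/-- evaluation in `A` -/
noncomputable def gg (K : Type) [NormedField K] [Algebra K A] (t : Finset A) :
    MvPolynomial t K →ₐ[K] A :=
  MvPolynomial.aeval fun a : t => (a : A)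

/-- restriction to the variables `J` -/
noncomputable def rr (K : Type) [NormedField K] (t J : Finset A) :
    MvPolynomial t K →ₐ[K] MvPolynomial J K :=
  MvPolynomial.aeval fun a : t => if h : (a : A) ∈ J then MvPolynomial.X ⟨a, h⟩ else 0

theorem hh_eq (t J : Finset A) (Q : MvPolynomial t K) :
    hh K t J Q = MvPolynomial.aeval (fun j : J => var j) (rr K t J Q) := by
  have h : hh K t J = (MvPolynomial.aeval (fun j : J => (var j : Laur K J))).comp (rr K t J) := by
    apply MvPolynomial.algHom_ext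
    intro a
    rw [AlgHom.comp_apply, hh, rr, MvPolynomial.aeval_X, MvPolynomial.aeval_X]
    split_ifs with h
    · rw [MvPolynomial.aeval_X]
    · simp
  rw [h]; rfl

theorem gg_sub (t J : Finset A) (Q : MvPolynomial t K) :
    Ideal.Quotient.mk (Ideal.span (↑(t \ J) : Set A))
      (MvPolynomial.aeval (fun j : J => (j : A)) (rr K t J Q)) =
    Ideal.Quotient.mk (Ideal.span (↑(t \ J) : Set A)) (gg K t Q) := by
  have h : ((Ideal.Quotient.mkₐ K (Ideal.span (↑(t \ J) : Set A))).comp
      (MvPolynomial.aeval (fun j : J => (j : A)))).comp (rr K t J) =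
      (Ideal.Quotient.mkₐ K (Ideal.span (↑(t \ J) : Set A))).comp (gg K t) := by
    apply MvPolynomial.algHom_ext
    intro a
    rw [AlgHom.comp_apply, AlgHom.comp_apply, AlgHom.comp_apply, gg, rr, MvPolynomial.aeval_X,
      MvPolynomial.aeval_X]
    split_ifs with h
    · rw [MvPolynomial.aeval_X]
    · rw [map_zero, map_zero]
      symm
      rw [Ideal.Quotient.mkₐ_eq_mk, Ideal.Quotient.eq_zero_iff_mem]
      apply Ideal.subset_span
      simp [h]
  exact congrArg (fun f : MvPolynomial t K →ₐ[K] _ => f Q) h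

theorem hh_mem (t J : Finset A) (I : Ideal (Laur K J))
    (hI : ∀ F, F ∈ I ↔ IJ t J F) (Q : MvPolynomial t K) (hQ : gg K t Q = 0) :
    hh K t J Q ∈ I := by
  rw [hI]
  refine ⟨0, rr K t J Q, ?_, ?_⟩
  · rw [← hh_eq]
    have : (AddMonoidAlgebra.single (fun j : J => (((0 : J → ℕ) j : ℕ) : ℤ)) 1 : Laur K J) = 1 := by
      rw [AddMonoidAlgebra.one_def]
      congr 1
    rw [this, mul_one]
  · have := gg_sub t J Q
    rw [hQ, map_zero, Ideal.Quotient.eq_zero_iff_mem] at this
    exact this

theorem gg_surj (t : Finset A) (h : Algebra.adjoin K (t : Set A) = ⊤) :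
    Function.Surjective (gg K t) := by
  intro a
  have h1 : a ∈ Algebra.adjoin K (t : Set A) := by rw [h]; trivial
  rw [Algebra.adjoin_eq_range] at h1
  obtain ⟨Q, hQ⟩ := h1
  exact ⟨Q, hQ⟩

theorem sup1 (h1 : B1_Stmt) [IsUltrametricDist K] (t J : Finset A) (hJ : J ⊆ t)
    (hA : Algebra.adjoin K (t : Set A) = ⊤) (I : Ideal (Laur K J))
    (hI : ∀ F, F ∈ I ↔ IJ t J F) (w : J → ℝ) (hw : w ∈ Trop I) :
    w ∈ (berLS K A).trop J '' (stra t J) := by
  obtain ⟨z, hz1, hz2⟩ := h1 K J I w hw
  have hsurj := gg_surj t hA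
  have hker : ∀ Q : MvPolynomial t K, gg K t Q = 0 → z.v (hh K t J Q) = 0 := fun Q hQ =>
    hz2 _ (hh_mem t J I hI Q hQ)
  choose s hs using hsurj
  have hval : ∀ Q : MvPolynomial t K, z.v (hh K t J (s (gg K t Q))) = z.v (hh K t J Q) := by
    intro Q
    have h2 : z.v (hh K t J (s (gg K t Q) - Q)) = 0 := by
      apply hker
      rw [map_sub, hs, sub_self]
    have h3 := v_add_eq_of_zero z (b := hh K t J Q) h2
    rw [← map_add, sub_add_cancel] at h3
    exact h3
  have hval' : ∀ (a : A) (Q : MvPolynomial t K), gg K t Q = a →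
      z.v (hh K t J (s a)) = z.v (hh K t J Q) := by
    rintro a Q rfl
    exact hval Q
  let z' : Ber K A := {
    v := fun a => z.v (hh K t J (s a))
    nonneg := fun a => z.nonneg _
    one := by
      rw [hval' 1 1 (map_one _), map_one, z.one]
    mul := fun a b => by
      rw [hval' (a * b) (s a * s b) (by rw [map_mul, hs, hs]), map_mul, z.mul]
    add := fun a b => by
      rw [hval' (a + b) (s a + s b) (by rw [map_add, hs, hs]), map_add]
      exact z.add _ _
    ext := fun c => by
      rw [hval' _ (algebraMap K _ c) (AlgHom.commutes _ _), AlgHom.commutes, z.ext] }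
  have hX : ∀ a : t, z'.v (a : A) = z.v (if h : (a : A) ∈ J then var ⟨a, h⟩ else 0) := by
    intro a
    show z.v (hh K t J (s (a : A))) = _
    rw [hval' (a : A) (MvPolynomial.X a) (by rw [gg, MvPolynomial.aeval_X]), hh,
      MvPolynomial.aeval_X]
  have hXJ : ∀ j : J, z'.v (j : A) = Real.exp (w j) := by
    intro j
    rw [hX ⟨j, hJ j.2⟩, dif_pos j.2]
    exact hz1 j
  refine ⟨z', ?_, ?_⟩
  · intro a ha
    by_cases haJ : a ∈ J
    · refine ⟨fun _ => haJ, fun _ => ?_⟩
      rw [hXJ ⟨a, haJ⟩]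
      exact (Real.exp_pos _).ne'
    · refine ⟨fun h => absurd ?_ h, fun h => absurd h haJ⟩
      rw [hX ⟨a, ha⟩, dif_neg haJ, v_zero]
  · funext j
    show Real.log (z'.v (j : A)) = w j
    rw [hXJ, Real.log_exp]

end main

end Pool.Agent.TD.BG.STR

namespace Pool.Agent.TD.BG

theorem STR_thm (h1 : B1_Stmt) : STR_Stmt := by
  intro K A _ _ _ _ _ t J hJ hA I hI
  apply Set.Subset.antisymm
  · rintro _ ⟨z, hz, rfl⟩
    exact STR.sub1 t J hJ I hI z hz
  · intro w hw
    exact STR.sup1 h1 t J hJ hA I hI w hw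

end Pool.Agent.TD.BG
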